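import Mathlib
import Pool.Agent.MP_494aff_an.se.Dim

-- ======== part 0: formerly Pool.Agent.MP_494aff_an.lf.Co
section MrgPart0

-- ======== part 0: formerly Pool.Agent.MP_494aff_an.lf.An
section MrgPart0

/-! Limits of polynomials in weighted norms. -/

namespace Pool.Agent.MP_494aff_an.Lf

open Pool.Agent.MP_494aff_an.Pinch Pool.Agent.MP_494aff_an.Pinch.TowP

noncomputable section

namespace AnP

section NoGroup

variable {Γ : Type}

lemma vec_le {η ζ : H Γ} {C : ℝ} (hC : 0 ≤ C) (h : ∀ x, ‖η x‖ ≤ C * ‖ζ x‖) :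
    ‖η‖ ≤ C * ‖ζ‖ := by
  have h1 : ‖η‖ ≤ ‖(C : ℂ) • ζ‖ := lp.norm_mono (by norm_num) fun x => by
    rw [lp.coeFn_smul, Pi.smul_apply, norm_smul, Complex.norm_real, Real.norm_of_nonneg hC]
    exact h x
  rwa [norm_smul, Complex.norm_real, Real.norm_of_nonneg hC] at h1

lemma exists_mul (w : Γ → ℝ) {C : ℝ} (hC : 0 ≤ C) (h : ∀ x, |w x| ≤ C) :
    ∃ T : Op Γ, ∀ ξ x, T ξ x = (w x : ℂ) * ξ x := by
  have hb : ∀ (ξ : H Γ) x, ‖(w x : ℂ) * ξ x‖ ≤ C * ‖ξ x‖ := fun ξ x => by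
    rw [norm_mul, Complex.norm_real, Real.norm_eq_abs]
    exact mul_le_mul_of_nonneg_right (h x) (norm_nonneg _)
  have hm : ∀ ξ : H Γ, Memℓp (fun x => (w x : ℂ) * ξ x) 2 := fun ξ =>
    (lp.memℓp ((C : ℂ) • ξ)).mono' fun x => by
      rw [lp.coeFn_smul, Pi.smul_apply, norm_smul, Complex.norm_real, Real.norm_of_nonneg hC]
      exact hb ξ x
  let L : H Γ →ₗ[ℂ] H Γ :=
    { toFun := fun ξ => ⟨fun x => (w x : ℂ) * ξ x, hm ξ⟩
      map_add' := fun ξ η => lp.ext (funext fun x => by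
        show (w x : ℂ) * (ξ + η) x = (w x : ℂ) * ξ x + (w x : ℂ) * η x
        rw [lp.coeFn_add, Pi.add_apply, mul_add])
      map_smul' := fun c ξ => lp.ext (funext fun x => by
        show (w x : ℂ) * (c • ξ) x = c * ((w x : ℂ) * ξ x)
        rw [lp.coeFn_smul, Pi.smul_apply, smul_eq_mul]; ring) }
  exact ⟨L.mkContinuous C fun ξ => vec_le hC (hb ξ), fun _ _ => rfl⟩

/-- Bounded weights. -/
def Bo (ψ : Γ → ℝ) : Prop := ∃ R, ∀ x, |ψ x| ≤ R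

lemma Bo.neg {ψ : Γ → ℝ} (h : Bo ψ) : Bo (-ψ) := by
  obtain ⟨R, hR⟩ := h
  exact ⟨R, fun x => by rw [Pi.neg_apply, abs_neg]; exact hR x⟩

lemma mo_coef {ψ : Γ → ℝ} (h : Bo ψ) (ξ : H Γ) (x : Γ) :
    mo ψ ξ x = (Real.exp (ψ x) : ℂ) * ξ x := by
  obtain ⟨R, hR⟩ := h
  have he : ∃ T : Op Γ, ∀ ξ x, T ξ x = (Real.exp (ψ x) : ℂ) * ξ x :=
    exists_mul (fun x => Real.exp (ψ x)) (Real.exp_pos R).le fun x => by
      rw [abs_of_pos (Real.exp_pos _)]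
      exact Real.exp_le_exp.2 ((le_abs_self _).trans (hR x))
  rw [mo, dif_pos he]
  exact he.choose_spec ξ x

lemma op_coef_ext {S T : Op Γ} (h : ∀ ξ x, S ξ x = T ξ x) : S = T :=
  ContinuousLinearMap.ext fun ξ => lp.ext (funext (h ξ))

lemma mo_neg_mul {ψ : Γ → ℝ} (h : Bo ψ) : mo (-ψ) * mo ψ = 1 :=
  op_coef_ext fun ξ x => by
    rw [mul_ap, mo_coef h.neg, mo_coef h, one_ap, ← mul_assoc, ← Complex.ofReal_mul,
      ← Real.exp_add, Pi.neg_apply, neg_add_cancel, Real.exp_zero, Complex.ofReal_one, one_mul]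

lemma mo_mul_neg {ψ : Γ → ℝ} (h : Bo ψ) : mo ψ * mo (-ψ) = 1 := by
  have := mo_neg_mul h.neg
  rwa [neg_neg] at this

lemma mo_zero : mo (0 : Γ → ℝ) = 1 :=
  op_coef_ext fun ξ x => by
    rw [mo_coef ⟨0, fun _ => by simp⟩, one_ap]; simp

lemma mo_dl {ψ : Γ → ℝ} (h : Bo ψ) (x : Γ) : mo ψ (dl x) = (Real.exp (ψ x) : ℂ) • dl x :=
  lp.ext (funext fun y => by
    rw [mo_coef h, lp.coeFn_smul, Pi.smul_apply, smul_eq_mul]
    by_cases hy : y = x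
    · rw [hy]
    · rw [dl_ne hy, mul_zero, mul_zero])

lemma star_mo {ψ : Γ → ℝ} (h : Bo ψ) : star (mo ψ) = mo ψ :=
  op_ext fun x => lp.ext (funext fun y => by
    rw [star_coef', mo_coef h, mo_coef h]
    by_cases hy : y = x
    · rw [hy, dl_self, mul_one, Complex.conj_ofReal]
    · rw [dl_ne hy, dl_ne (Ne.symm hy), mul_zero, mul_zero, map_zero])

/-- Conjugation by a weight. -/
def tw (ψ : Γ → ℝ) (T : Op Γ) : Op Γ := mo ψ * T * mo (-ψ)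

lemma tw_add (ψ : Γ → ℝ) (S T : Op Γ) : tw ψ (S + T) = tw ψ S + tw ψ T := by
  rw [tw, tw, tw, mul_add, add_mul]

lemma tw_sub (ψ : Γ → ℝ) (S T : Op Γ) : tw ψ (S - T) = tw ψ S - tw ψ T := by
  rw [tw, tw, tw, mul_sub, sub_mul]

lemma tw_smul (ψ : Γ → ℝ) (r : ℝ) (T : Op Γ) : tw ψ (r • T) = r • tw ψ T := by
  rw [tw, tw, mul_smul_comm, smul_mul_assoc]

lemma tw_zero (ψ : Γ → ℝ) : tw ψ (0 : Op Γ) = 0 := by rw [tw, mul_zero, zero_mul]

lemma tw_one {ψ : Γ → ℝ} (h : Bo ψ) : tw ψ (1 : Op Γ) = 1 := by rw [tw, mul_one, mo_mul_neg h]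

lemma tw_mul {ψ : Γ → ℝ} (h : Bo ψ) (S T : Op Γ) : tw ψ (S * T) = tw ψ S * tw ψ T := by
  have : tw ψ S * tw ψ T = mo ψ * S * (mo (-ψ) * mo ψ) * T * mo (-ψ) := by
    simp only [tw, mul_assoc]
  rw [this, mo_neg_mul h, tw]
  simp only [mul_assoc, one_mul]

lemma sum_sq_le (ξ : H Γ) (Q : Finset Γ) : ∑ z ∈ Q, ‖ξ z‖ ^ 2 ≤ ‖ξ‖ ^ 2 := by
  have := lp.sum_rpow_le_norm_rpow (p := 2) (by norm_num) ξ Q
  simpa using this

lemma norm_sum_dl (P : Finset Γ) : ‖∑ p ∈ P, dl p‖ ^ 2 = P.card := by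
  classical
  have h := (orthonormal_dl (G := Γ)).inner_sum (fun _ => 1) (fun _ => 1) P
  simp only [one_smul, map_one, mul_one, Finset.sum_const, nsmul_eq_mul] at h
  rw [← inner_self_eq_norm_sq (𝕜 := ℂ), h]
  simp

end NoGroup

variable {Γ : Type} [Group Γ] {ℓ : Γ → ℕ} {X Y Z : Set Γ} {S T : Op Γ} {a a' C D : ℝ}

lemma norm_one_le : ‖(1 : Op Γ)‖ ≤ 1 := by
  rw [← map_one (lam : Γ →* Op Γ)]; exact opNorm_lam 1

lemma lp_zero (ha : 0 ≤ a) : Lp ℓ a (0 : Γ → ℝ) :=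
  ⟨⟨0, fun _ => by simp⟩, fun g _ => by
    simp only [Pi.zero_apply, sub_self, abs_zero]; positivity⟩

lemma lp_neg {ψ : Γ → ℝ} (h : Lp ℓ a ψ) : Lp ℓ a (-ψ) :=
  ⟨Bo.neg h.1, fun g x => by
    rw [Pi.neg_apply, Pi.neg_apply, neg_sub_neg, abs_sub_comm]; exact h.2 g x⟩

lemma lp_mono {ψ : Γ → ℝ} (h : Lp ℓ a' ψ) (ha : a' ≤ a) : Lp ℓ a ψ :=
  ⟨h.1, fun g x => (h.2 g x).trans (mul_le_mul_of_nonneg_right ha (Nat.cast_nonneg _))⟩

lemma bd_anti (h : Bd ℓ a T C) (ha : a' ≤ a) : Bd ℓ a' T C := fun ψ hψ => h ψ (lp_mono hψ ha)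

lemma bd_le (h : Bd ℓ a T C) (hC : C ≤ D) : Bd ℓ a T D := fun ψ hψ => (h ψ hψ).trans hC

lemma bd_norm (h : Bd ℓ a T C) (ha : 0 ≤ a) : ‖T‖ ≤ C := by
  have := h 0 (lp_zero ha)
  rwa [neg_zero, mo_zero, one_mul, mul_one] at this

lemma bd_add (hS : Bd ℓ a S C) (hT : Bd ℓ a T D) : Bd ℓ a (S + T) (C + D) := fun ψ hψ => by
  show ‖tw ψ (S + T)‖ ≤ _
  rw [tw_add]
  exact norm_add_le_of_le (hS ψ hψ) (hT ψ hψ)

lemma bd_smul (r : ℝ) (hT : Bd ℓ a T C) : Bd ℓ a (r • T) (|r| * C) := fun ψ hψ => by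
  show ‖tw ψ (r • T)‖ ≤ _
  rw [tw_smul, norm_smul, Real.norm_eq_abs]
  exact mul_le_mul_of_nonneg_left (hT ψ hψ) (abs_nonneg r)

lemma bd_mul (hS : Bd ℓ a S C) (hT : Bd ℓ a T D) : Bd ℓ a (S * T) (C * D) := fun ψ hψ => by
  show ‖tw ψ (S * T)‖ ≤ _
  rw [tw_mul hψ.1]
  exact (norm_mul_le _ _).trans
    (mul_le_mul (hS ψ hψ) (hT ψ hψ) (norm_nonneg _) ((norm_nonneg _).trans (hS ψ hψ)))

lemma bd_zero : Bd ℓ a (0 : Op Γ) 0 := fun ψ _ => by
  show ‖tw ψ 0‖ ≤ _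
  rw [tw_zero, norm_zero]

lemma tw_lam_sub {ψ : Γ → ℝ} (h : Lp ℓ a ψ) (g : Γ) :
    ‖tw ψ (lam g) - lam g‖ ≤ Real.exp (a * ℓ g) - 1 := by
  have h0 : 0 ≤ a * ℓ g := (abs_nonneg _).trans (h.2 g 1)
  have h1 : 0 ≤ Real.exp (a * ℓ g) - 1 := sub_nonneg.2 (Real.one_le_exp h0)
  refine ContinuousLinearMap.opNorm_le_bound _ h1 fun ξ => ?_
  rw [← lam_norm g ξ]
  refine vec_le h1 fun x => ?_
  have e : (tw ψ (lam g) - lam g) ξ x =
      ((Real.exp (ψ x - ψ (g⁻¹ * x)) - 1 : ℝ) : ℂ) * lam g ξ x := by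
    rw [_root_.sub_apply, lp.coeFn_sub, Pi.sub_apply, tw, mul_ap, mul_ap,
      mo_coef h.1, lam_coef, mo_coef (Bo.neg h.1), lam_coef, Pi.neg_apply, sub_eq_add_neg (ψ x),
      Real.exp_add]
    push_cast; ring
  rw [e, norm_mul, Complex.norm_real, Real.norm_eq_abs]
  refine mul_le_mul_of_nonneg_right ?_ (norm_nonneg _)
  have h2 := h.2 g (g⁻¹ * x)
  rw [mul_inv_cancel_left] at h2
  obtain ⟨h3, h4⟩ := abs_le.1 h2
  refine abs_le.2 ⟨?_, sub_le_sub_right (Real.exp_le_exp.2 h4) 1⟩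
  have h5 := Real.add_one_le_exp (ψ x - ψ (g⁻¹ * x))
  have h6 := Real.add_one_le_exp (a * ℓ g)
  linarith

lemma pol_bd {p : Op Γ} (hp : p ∈ Pol X) (a : ℝ) : ∃ C, 0 ≤ C ∧ Bd ℓ a p C := by
  induction hp using Submodule.span_induction with
  | mem x hx =>
    obtain ⟨g, -, rfl⟩ := hx
    refine ⟨Real.exp (a * ℓ g), (Real.exp_pos _).le, fun ψ hψ => ?_⟩
    show ‖tw ψ (lam g)‖ ≤ _
    have h1 := tw_lam_sub hψ g
    have h2 := norm_add_le (tw ψ (lam g) - lam g) (lam g)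
    rw [sub_add_cancel] at h2
    linarith [opNorm_lam g]
  | zero => exact ⟨0, le_rfl, bd_zero⟩
  | add x y _ _ hx hy =>
    obtain ⟨C, hC, hx⟩ := hx
    obtain ⟨D, hD, hy⟩ := hy
    exact ⟨C + D, add_nonneg hC hD, bd_add hx hy⟩
  | smul r x _ hx =>
    obtain ⟨C, hC, hx⟩ := hx
    exact ⟨|r| * C, mul_nonneg (abs_nonneg r) hC, bd_smul r hx⟩

lemma pol_near {p : Op Γ} (hp : p ∈ Pol X) :
    ∀ ε, 0 < ε → ∃ a, 0 < a ∧ ∀ ψ, Lp ℓ a ψ → ‖tw ψ p - p‖ ≤ ε := by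
  induction hp using Submodule.span_induction with
  | mem x hx =>
    obtain ⟨g, -, rfl⟩ := hx
    intro ε hε
    have hl : 0 < Real.log (1 + ε) := Real.log_pos (by linarith)
    have hg : (0 : ℝ) < ℓ g + 1 := by positivity
    refine ⟨Real.log (1 + ε) / (ℓ g + 1), div_pos hl hg, fun ψ hψ => (tw_lam_sub hψ g).trans ?_⟩
    have h1 : Real.log (1 + ε) / (ℓ g + 1) * ℓ g ≤ Real.log (1 + ε) := by
      rw [div_mul_eq_mul_div, div_le_iff₀ hg]
      nlinarith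
    have h2 := Real.exp_le_exp.2 h1
    rw [Real.exp_log (by linarith)] at h2
    linarith
  | zero =>
    exact fun ε hε => ⟨1, one_pos, fun ψ _ => by rw [tw_zero, sub_zero, norm_zero]; exact hε.le⟩
  | add x y _ _ hx hy =>
    intro ε hε
    obtain ⟨a, ha, hx⟩ := hx (ε / 2) (half_pos hε)
    obtain ⟨b, hb, hy⟩ := hy (ε / 2) (half_pos hε)
    refine ⟨min a b, lt_min ha hb, fun ψ hψ => ?_⟩
    rw [tw_add, add_sub_add_comm]
    have := norm_add_le_of_le (hx ψ (lp_mono hψ (min_le_left _ _)))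
      (hy ψ (lp_mono hψ (min_le_right _ _)))
    linarith
  | smul r x _ hx =>
    intro ε hε
    have hr : 0 < |r| + 1 := by positivity
    obtain ⟨a, ha, hx⟩ := hx (ε / (|r| + 1)) (div_pos hε hr)
    refine ⟨a, ha, fun ψ hψ => ?_⟩
    rw [tw_smul, ← smul_sub, norm_smul, Real.norm_eq_abs]
    have h1 := mul_le_mul_of_nonneg_left (hx ψ hψ) (abs_nonneg r)
    have h2 : |r| * (ε / (|r| + 1)) ≤ ε := by
      rw [← mul_div_assoc, div_le_iff₀ hr]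
      nlinarith
    linarith

lemma pol_mul {p q : Op Γ} (hp : p ∈ Pol X) (hq : q ∈ Pol Y)
    (h : ∀ x ∈ X, ∀ y ∈ Y, x * y ∈ Z) : p * q ∈ Pol Z := by
  induction hp using Submodule.span_induction with
  | mem x hx =>
    obtain ⟨g, hg, rfl⟩ := hx
    induction hq using Submodule.span_induction with
    | mem y hy =>
      obtain ⟨k, hk, rfl⟩ := hy
      rw [← map_mul]
      exact Submodule.subset_span ⟨g * k, h g hg k hk, rfl⟩
    | zero => rw [mul_zero]; exact zero_mem _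
    | add u v _ _ hu hv => rw [mul_add]; exact add_mem hu hv
    | smul r u _ hu => rw [mul_smul_comm]; exact Submodule.smul_mem _ r hu
  | zero => rw [zero_mul]; exact zero_mem _
  | add u v _ _ hu hv => rw [add_mul]; exact add_mem hu hv
  | smul r u _ hu => rw [smul_mul_assoc]; exact Submodule.smul_mem _ r hu

/-- Limits of polynomials for one fixed weight class. -/
def AnA (ℓ : Γ → ℕ) (a : ℝ) (X : Set Γ) (T : Op Γ) : Prop :=
  ∀ ε, 0 < ε → ∃ p ∈ Pol X, Bd ℓ a (T - p) ε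

lemma AnA.anti (h : AnA ℓ a X T) (ha : a' ≤ a) : AnA ℓ a' X T := fun ε hε => by
  obtain ⟨p, hp, hb⟩ := h ε hε
  exact ⟨p, hp, bd_anti hb ha⟩

lemma AnA.pol (h : T ∈ Pol X) : AnA ℓ a X T := fun _ hε =>
  ⟨T, h, by rw [sub_self]; exact bd_le bd_zero hε.le⟩

lemma AnA.bd (h : AnA ℓ a X T) : ∃ C, 0 ≤ C ∧ Bd ℓ a T C := by
  obtain ⟨p, hp, hb⟩ := h 1 one_pos
  obtain ⟨C, hC, hq⟩ := pol_bd (ℓ := ℓ) hp a
  have := bd_add hb hq
  rw [sub_add_cancel] at this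
  exact ⟨1 + C, by linarith, this⟩

lemma AnA.add (hS : AnA ℓ a X S) (hT : AnA ℓ a X T) : AnA ℓ a X (S + T) := fun ε hε => by
  obtain ⟨p, hp, hb⟩ := hS (ε / 2) (half_pos hε)
  obtain ⟨q, hq, hc⟩ := hT (ε / 2) (half_pos hε)
  refine ⟨p + q, add_mem hp hq, ?_⟩
  rw [add_sub_add_comm]
  exact bd_le (bd_add hb hc) (add_halves ε).le

lemma AnA.smul (r : ℝ) (hT : AnA ℓ a X T) : AnA ℓ a X (r • T) := fun ε hε => by
  have hr : 0 < |r| + 1 := by positivity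
  obtain ⟨p, hp, hb⟩ := hT (ε / (|r| + 1)) (div_pos hε hr)
  refine ⟨r • p, Submodule.smul_mem _ r hp, ?_⟩
  rw [← smul_sub]
  refine bd_le (bd_smul r hb) ?_
  rw [← mul_div_assoc, div_le_iff₀ hr]
  nlinarith

lemma AnA.mul (hS : AnA ℓ a X S) (hT : AnA ℓ a Y T) (h : ∀ x ∈ X, ∀ y ∈ Y, x * y ∈ Z) :
    AnA ℓ a Z (S * T) := fun ε hε => by
  obtain ⟨C, hC, hTC⟩ := hT.bd
  have hC1 : 0 < C + 1 := by linarith
  obtain ⟨p, hp, hb⟩ := hS (ε / 2 / (C + 1)) (div_pos (half_pos hε) hC1)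
  obtain ⟨D, hD, hpD⟩ := pol_bd (ℓ := ℓ) hp a
  have hD1 : 0 < D + 1 := by linarith
  obtain ⟨q, hq, hc⟩ := hT (ε / 2 / (D + 1)) (div_pos (half_pos hε) hD1)
  refine ⟨p * q, pol_mul hp hq h, ?_⟩
  have e : S * T - p * q = (S - p) * T + p * (T - q) := by noncomm_ring
  rw [e]
  refine bd_le (bd_add (bd_mul hb hTC) (bd_mul hpD hc)) ?_
  have h1 : ε / 2 / (C + 1) * C ≤ ε / 2 := by
    rw [div_mul_eq_mul_div, div_le_iff₀ hC1]; nlinarith
  have h2 : D * (ε / 2 / (D + 1)) ≤ ε / 2 := by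
    rw [← mul_div_assoc, div_le_iff₀ hD1]; nlinarith
  linarith

lemma AnA.lim (h : ∀ ε, 0 < ε → ∃ S, AnA ℓ a X S ∧ Bd ℓ a (T - S) ε) : AnA ℓ a X T :=
  fun ε hε => by
    obtain ⟨S, hS, hb⟩ := h (ε / 2) (half_pos hε)
    obtain ⟨p, hp, hc⟩ := hS (ε / 2) (half_pos hε)
    refine ⟨p, hp, ?_⟩
    have := bd_add hb hc
    rwa [sub_add_sub_cancel, add_halves] at this

lemma closed_of_approx {W : Set (Op Γ)} (hW : IsClosed W) (hp : ∀ p ∈ Pol X, p ∈ W)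
    (h : ∀ ε : ℝ, 0 < ε → ∃ p ∈ Pol X, ‖T - p‖ ≤ ε) : T ∈ W := by
  rw [← hW.closure_eq]
  refine Metric.mem_closure_iff.2 fun ε hε => ?_
  obtain ⟨p, hpX, hn⟩ := h (ε / 2) (half_pos hε)
  exact ⟨p, hp p hpX, by rw [dist_eq_norm]; linarith⟩

end AnP

open AnP

variable {Γ : Type} [Group Γ] {ℓ : Γ → ℕ} {X Y Z : Set Γ} {S T : Op Γ}

lemma An.approx (h : An ℓ X T) {ε : ℝ} (hε : 0 < ε) : ∃ p ∈ Pol X, ‖T - p‖ ≤ ε := by
  obtain ⟨a, ha, h⟩ := h
  obtain ⟨p, hp, hb⟩ := h ε hε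
  exact ⟨p, hp, bd_norm hb ha.le⟩

lemma An.mem (h : An ℓ X T) : T ∈ LL Γ := by
  refine closed_of_approx (W := (LL Γ : Set (Op Γ))) isClosed_LL (fun p hp => ?_)
    fun _ hε => h.approx hε
  induction hp using Submodule.span_induction with
  | mem x hx =>
    obtain ⟨g, -, rfl⟩ := hx
    exact lam_mem g
  | zero => exact zero_mem (LL Γ)
  | add u v _ _ hu hv => exact add_mem (s := LL Γ) hu hv
  | smul r u _ hu =>
    exact SMulMemClass.smul_mem (s := LL Γ) (r : ℂ) hu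

lemma An.supp (h : An ℓ X T) : Supp X (T (dl 1)) := by
  refine closed_of_approx (W := {T : Op Γ | Supp X (T (dl 1))})
    ((isClosed_supp X).preimage (ContinuousLinearMap.apply ℂ (H Γ) (dl 1)).continuous)
    (fun p hp => ?_) fun _ hε => h.approx hε
  induction hp using Submodule.span_induction with
  | mem x hx =>
    obtain ⟨g, hg, rfl⟩ := hx
    show Supp X (lam g (dl 1))
    rw [lam_one]; exact supp_dl hg
  | zero => exact supp_zero X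
  | add u v _ _ hu hv => exact Supp.add hu hv
  | smul r u _ hu => exact Supp.rsmul hu r

lemma An.real (h : An ℓ X T) (x : Γ) : (T (dl 1) x).im = 0 := by
  have hc : Continuous fun T : Op Γ => (T (dl 1) x).im := by
    simp_rw [← inner_dl]
    exact Complex.continuous_im.comp
      (continuous_const.inner (ContinuousLinearMap.apply ℂ (H Γ) (dl 1)).continuous)
  refine closed_of_approx (W := {T : Op Γ | (T (dl 1) x).im = 0})
    (isClosed_eq hc continuous_const) (fun p hp => ?_) fun _ hε => h.approx hε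
  induction hp using Submodule.span_induction with
  | mem y hy =>
    obtain ⟨g, -, rfl⟩ := hy
    show (lam g (dl 1) x).im = 0
    rw [lam_one]
    by_cases hx : x = g
    · rw [hx, dl_self, Complex.one_im]
    · rw [dl_ne hx, Complex.zero_im]
  | zero => rfl
  | add u v _ _ hu hv =>
    show (u (dl 1) x + v (dl 1) x).im = 0
    rw [Complex.add_im, show (u (dl 1) x).im = 0 from hu, show (v (dl 1) x).im = 0 from hv,
      add_zero]
  | smul r u _ hu =>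
    show (r • u (dl 1) x).im = 0
    rw [Complex.smul_im, show (u (dl 1) x).im = 0 from hu, smul_zero]

lemma An.mono (h : An ℓ X T) (hXY : X ⊆ Y) : An ℓ Y T := by
  obtain ⟨a, ha, h⟩ := h
  refine ⟨a, ha, fun ε hε => ?_⟩
  obtain ⟨p, hp, hb⟩ := h ε hε
  exact ⟨p, Submodule.span_mono (Set.image_mono hXY) hp, hb⟩

lemma An.pol (h : T ∈ Pol X) : An ℓ X T := ⟨1, one_pos, AnA.pol h⟩

lemma An.of_lam {x : Γ} (hx : x ∈ X) : An ℓ X (lam x) :=
  An.pol (Submodule.subset_span ⟨x, hx, rfl⟩)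

lemma An.zero : An ℓ X (0 : Op Γ) := An.pol (zero_mem _)

lemma An.add (hS : An ℓ X S) (hT : An ℓ X T) : An ℓ X (S + T) := by
  obtain ⟨a, ha, hS⟩ := hS
  obtain ⟨b, hb, hT⟩ := hT
  exact ⟨min a b, lt_min ha hb,
    AnA.add (AnA.anti hS (min_le_left _ _)) (AnA.anti hT (min_le_right _ _))⟩

lemma An.neg (hT : An ℓ X T) : An ℓ X (-T) := by
  obtain ⟨a, ha, hT⟩ := hT
  rw [← neg_one_smul ℝ T]
  exact ⟨a, ha, AnA.smul (-1) hT⟩

lemma An.sub (hS : An ℓ X S) (hT : An ℓ X T) : An ℓ X (S - T) := by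
  rw [sub_eq_add_neg]; exact hS.add hT.neg

lemma An.smul (r : ℝ) (hT : An ℓ X T) : An ℓ X (r • T) := by
  obtain ⟨a, ha, hT⟩ := hT
  exact ⟨a, ha, AnA.smul r hT⟩

lemma An.sum {ι : Type} (s : Finset ι) {F : ι → Op Γ} (h : ∀ i ∈ s, An ℓ X (F i)) :
    An ℓ X (∑ i ∈ s, F i) :=
  Finset.sum_induction F (An ℓ X) (fun _ _ => An.add) An.zero h

lemma An.mul (hS : An ℓ X S) (hT : An ℓ Y T) (h : ∀ x ∈ X, ∀ y ∈ Y, x * y ∈ Z) :
    An ℓ Z (S * T) := by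
  obtain ⟨a, ha, hS⟩ := hS
  obtain ⟨b, hb, hT⟩ := hT
  exact ⟨min a b, lt_min ha hb,
    AnA.mul (AnA.anti hS (min_le_left _ _)) (AnA.anti hT (min_le_right _ _)) h⟩

lemma An.inv {K : Subgroup Γ} (hT : An ℓ K T) (h : ‖T‖ < 1) :
    ∃ R, An ℓ K R ∧ (1 - T) * R = 1 := by
  obtain ⟨a₀, ha₀, hT⟩ := hT
  set η := (1 - ‖T‖) / 4 with hη
  have hη0 : 0 < η := by rw [hη]; linarith
  obtain ⟨p, hp, hb⟩ := hT η hη0
  obtain ⟨a₁, ha₁, hn⟩ := pol_near (ℓ := ℓ) hp η hη0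
  set a := min a₀ a₁ with ha
  have hTa : AnA ℓ a K T := AnA.anti hT (min_le_left _ _)
  set θ := ‖T‖ + 3 * η with hθ
  have hθ0 : 0 ≤ θ := by have := norm_nonneg T; linarith
  have hθ1 : θ < 1 := by linarith
  have hTθ : Bd ℓ a T θ := fun ψ hψ => by
    show ‖tw ψ T‖ ≤ _
    have h1 : ‖tw ψ (T - p)‖ ≤ η := hb ψ (lp_mono hψ (min_le_left _ _))
    have h2 := hn ψ (lp_mono hψ (min_le_right _ _))
    have h3 := bd_norm hb ha₀.le
    have e : tw ψ T = tw ψ (T - p) + (tw ψ p - p) - (T - p) + T := by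
      rw [tw_sub]; abel
    rw [e]
    have h4 := norm_add_le (tw ψ (T - p) + (tw ψ p - p) - (T - p)) T
    have h5 := norm_sub_le (tw ψ (T - p) + (tw ψ p - p)) (T - p)
    have h6 := norm_add_le (tw ψ (T - p)) (tw ψ p - p)
    linarith
  have hR := mul_neg_geom_series T h
  set R := ∑' i : ℕ, T ^ i
  have hR' : R = 1 + T * R := by rw [← hR]; noncomm_ring
  have hd : 0 < 1 - θ := by linarith
  have hRb : Bd ℓ a R (1 - θ)⁻¹ := fun ψ hψ => by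
    show ‖tw ψ R‖ ≤ _
    have e : tw ψ R = 1 + tw ψ T * tw ψ R := by
      rw [← tw_mul hψ.1, ← tw_one hψ.1, ← tw_add, ← hR']
    have h1 := norm_add_le (1 : Op Γ) (tw ψ T * tw ψ R)
    rw [← e] at h1
    have h2 := norm_mul_le (tw ψ T) (tw ψ R)
    have h3 : ‖tw ψ T‖ * ‖tw ψ R‖ ≤ θ * ‖tw ψ R‖ :=
      mul_le_mul_of_nonneg_right (hTθ ψ hψ) (norm_nonneg _)
    have h4 := norm_one_le (Γ := Γ)
    rw [← one_div, le_div_iff₀ hd]
    linarith
  have h1K : (1 : Op Γ) ∈ Pol (K : Set Γ) := by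
    rw [← map_one (lam : Γ →* Op Γ)]
    exact Submodule.subset_span ⟨1, one_mem K, rfl⟩
  have key : ∀ N : ℕ, ∃ S, AnA ℓ a K S ∧ Bd ℓ a (R - S) (θ ^ N * (1 - θ)⁻¹) := by
    intro N
    induction N with
    | zero => exact ⟨0, AnA.pol (zero_mem _), by rw [sub_zero, pow_zero, one_mul]; exact hRb⟩
    | succ N ih =>
      obtain ⟨S, hS, hc⟩ := ih
      refine ⟨1 + T * S, AnA.add (AnA.pol h1K)
        (AnA.mul hTa hS fun _ hx _ hy => mul_mem hx hy), ?_⟩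
      have e : R - (1 + T * S) = T * (R - S) := by
        rw [mul_sub, eq_sub_iff_add_eq, sub_add_eq_add_sub, sub_eq_iff_eq_add]
        nth_rewrite 1 [hR']
        abel
      rw [e, pow_succ', mul_assoc]
      exact bd_mul hTθ hc
  refine ⟨R, ⟨a, lt_min ha₀ ha₁, AnA.lim fun ε hε => ?_⟩, hR⟩
  obtain ⟨N, hN⟩ := exists_pow_lt_of_lt_one (mul_pos hε hd) hθ1
  obtain ⟨S, hS, hc⟩ := key N
  refine ⟨S, hS, bd_le hc ?_⟩
  rw [← div_eq_mul_inv, div_le_iff₀ hd]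
  exact hN.le

lemma An.loc (h : An ℓ X T) : ∃ a C : ℝ, 0 < a ∧ ∀ ψ, Lp ℓ a ψ → ∀ P Q : Finset Γ,
    (∀ p ∈ P, ψ p = 0) →
    ∑ z ∈ Q, Real.exp (2 * ψ z) * ‖star T (∑ p ∈ P, dl p) z‖ ^ 2 ≤ C ^ 2 * P.card := by
  obtain ⟨a, ha, h⟩ := h
  obtain ⟨C, hC, hb⟩ := AnA.bd h
  refine ⟨a, C, ha, fun ψ hψ P Q hP => ?_⟩
  have h1 := hb (-ψ) (lp_neg hψ)
  rw [neg_neg, ← norm_star, star_mul, star_mul, star_mo hψ.1, star_mo (Bo.neg hψ.1)] at h1
  have h2 : mo (-ψ) (∑ p ∈ P, dl p) = ∑ p ∈ P, dl p := by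
    rw [map_sum]
    refine Finset.sum_congr rfl fun p hp => ?_
    rw [mo_dl (Bo.neg hψ.1), Pi.neg_apply, hP p hp, neg_zero, Real.exp_zero, Complex.ofReal_one,
      one_smul]
  have h3 := (mo ψ * (star T * mo (-ψ))).le_of_opNorm_le h1 (∑ p ∈ P, dl p)
  rw [mul_ap, mul_ap, h2] at h3
  have h4 := sum_sq_le (mo ψ (star T (∑ p ∈ P, dl p))) Q
  have h5 := pow_le_pow_left₀ (norm_nonneg _) h3 2
  rw [mul_pow, norm_sum_dl] at h5
  refine le_trans (le_of_eq (Finset.sum_congr rfl fun z _ => ?_)) (h4.trans h5)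
  rw [mo_coef hψ.1, norm_mul, mul_pow, Complex.norm_real, Real.norm_of_nonneg (Real.exp_pos _).le,
    ← Real.exp_nat_mul]
  norm_num

/-- The algebra attached to a subgroup. -/
def anS (ℓ : Γ → ℕ) (K : Subgroup Γ) : Subalgebra ℝ (Op Γ) where
  carrier := {T | An ℓ K T}
  mul_mem' := fun hS hT => An.mul hS hT fun _ hx _ hy => mul_mem hx hy
  add_mem' := An.add
  algebraMap_mem' := fun r => by
    rw [Algebra.algebraMap_eq_smul_one, ← map_one (lam : Γ →* Op Γ)]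
    exact An.smul r (An.of_lam (one_mem K))

lemma mem_anS {K : Subgroup Γ} : T ∈ anS ℓ K ↔ An ℓ K T := Iff.rfl

lemma An.one {K : Subgroup Γ} : An ℓ K (1 : Op Γ) := one_mem (anS ℓ K)

lemma An.mul' {K : Subgroup Γ} (hS : An ℓ K S) (hT : An ℓ K T) : An ℓ K (S * T) :=
  mul_mem (s := anS ℓ K) hS hT

end

end Pool.Agent.MP_494aff_an.Lf

end MrgPart0

-- ======== part 1: formerly Pool.Agent.MP_494aff_an.lf.Co
section MrgPart1

/-! Groups with abelian centralisers, cocycles. -/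

open Monoid

namespace Pool.Agent.MP_494aff_an.Lf

open Pool.Agent.MP_494aff_an.Pinch Pool.Agent.MP_494aff_an.Pinch.TowP

noncomputable section

namespace CoP

variable {G Γ : Type} [Group G] [Group Γ]

lemma pr_comp (φ : G →* Γ) (x y : G) : ⇑(pr (φ x) (φ y)) = φ ∘ pr x y := by
  have : pr (φ x) (φ y) = φ.comp (pr x y) := by
    ext o
    cases o <;> simp [pr]
  rw [this]
  rfl

lemma free_ne : cc Unit * io (FreeGroup.of ()) * (cc Unit)⁻¹ * io (FreeGroup.of ()) ≠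
    io (FreeGroup.of ()) * (cc Unit * io (FreeGroup.of ()) * (cc Unit)⁻¹) := fun e => by
  have := congrArg (pr (Equiv.swap (0 : Fin 3) 1) (Equiv.swap (1 : Fin 3) 2)) e
  simp only [map_mul, map_inv, pr_cc, pr_io] at this
  exact absurd this (by decide)

lemma pow_inj {g : Γ} (hg : InfOrd g) {a b : ℕ} (e : g ^ a = g ^ b) : a = b := by
  have := hg ((a : ℤ) - b) (by rw [zpow_sub, zpow_natCast, zpow_natCast, e, mul_inv_cancel])
  omega

lemma fix_zero {g : Γ} (hg : InfOrd g) {η : H Γ} (h : lam g η = η) : η = 0 := by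
  classical
  refine lp.ext (funext fun x => ?_)
  have h1 : ∀ k : ℕ, η (g ^ k * x) = η x := fun k => by
    induction k with
    | zero => rw [pow_zero, one_mul]
    | succ k ih => rw [← h, lam_coef, pow_succ', mul_assoc, inv_mul_cancel_left, ih, h]
  have hi : Function.Injective fun k : ℕ => g ^ k * x := fun a b e =>
    pow_inj hg (mul_right_cancel e)
  have h2 : ∀ N : ℕ, N * ‖η x‖ ^ 2 ≤ ‖η‖ ^ 2 := fun N => by
    have := AnP.sum_sq_le η ((Finset.range N).image fun k => g ^ k * x)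
    rw [Finset.sum_image fun a _ b _ e => hi e] at this
    simpa [h1] using this
  by_contra hx
  have h3 : 0 < ‖η x‖ ^ 2 := pow_pos (norm_pos_iff.2 hx) 2
  obtain ⟨N, hN⟩ := exists_nat_gt (‖η‖ ^ 2 / ‖η x‖ ^ 2)
  exact absurd (h2 N) (not_le.2 ((div_lt_iff₀ h3).1 hN))

lemma comm_zero {ι : G →* Γ} {γ : G → Op Γ} {x z : G} (h : Co ι γ) (hz : γ z = 0)
    (hc : x * z = z * x) (hi : ∀ T : Op Γ, (1 - lam (ι z)) * T = 0 → T = 0) : γ x = 0 := by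
  refine hi _ ?_
  have h1 := h x z
  rw [hc, h z x, hz, mul_zero, add_zero, zero_add] at h1
  rw [sub_mul, one_mul, h1, sub_self]

/-- Affine maps of the operator algebra with a translation as linear part. -/
@[ext] structure Aff (Γ : Type) where
  T : Op Γ
  g : Γ

instance : Mul (Aff Γ) := ⟨fun a b => ⟨a.T + lam a.g * b.T, a.g * b.g⟩⟩

instance : One (Aff Γ) := ⟨⟨0, 1⟩⟩

instance : Inv (Aff Γ) := ⟨fun a => ⟨-(lam a.g⁻¹ * a.T), a.g⁻¹⟩⟩

instance : Group (Aff Γ) :=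
  Group.ofLeftAxioms
    (fun a b c => Aff.ext (by
      show a.T + lam a.g * b.T + lam (a.g * b.g) * c.T = a.T + lam a.g * (b.T + lam b.g * c.T)
      rw [map_mul]
      noncomm_ring) (mul_assoc a.g b.g c.g))
    (fun a => Aff.ext (by
      show 0 + lam (1 : Γ) * a.T = a.T
      rw [map_one, one_mul, zero_add]) (one_mul a.g))
    fun a => Aff.ext (neg_add_cancel _) (inv_mul_cancel a.g)

/-- The homomorphism of a cocycle. -/
def toAff {ι : G →* Γ} {β : G → Op Γ} (h : Co ι β) (h1 : β 1 = 0) : G →* Aff Γ where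
  toFun x := ⟨β x, ι x⟩
  map_one' := Aff.ext h1 (map_one ι)
  map_mul' x y := Aff.ext (h x y) (map_mul ι x y)

/-- The elements where `π` has the right shape. -/
def good (ℓ : Γ → ℕ) {K : Subgroup Γ} {ι : G →* Γ} (hK : ∀ x, ι x ∈ K) (π : G →* Aff Γ) :
    Subgroup G where
  carrier := {x | (π x).g = ι x ∧ An ℓ K (π x).T}
  one_mem' := ⟨by rw [map_one, map_one]; rfl, by rw [map_one]; exact An.zero⟩
  mul_mem' := by
    rintro a b ⟨ha, ha'⟩ ⟨hb, hb'⟩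
    refine ⟨?_, ?_⟩
    · rw [map_mul, map_mul, ← ha, ← hb]; rfl
    · rw [map_mul]
      exact ha'.add ((An.of_lam (by rw [ha]; exact hK a)).mul' hb')
  inv_mem' := by
    rintro a ⟨ha, ha'⟩
    refine ⟨?_, ?_⟩
    · rw [map_inv, map_inv, ← ha]; rfl
    · rw [map_inv]
      exact ((An.of_lam (by rw [ha]; exact inv_mem (hK a))).mul' ha').neg

lemma mem_good {ℓ : Γ → ℕ} {K : Subgroup Γ} {ι : G →* Γ} {hK : ∀ x, ι x ∈ K} {π : G →* Aff Γ}
    {x : G} : x ∈ good ℓ hK π ↔ (π x).g = ι x ∧ An ℓ K (π x).T := Iff.rfl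

lemma co_of {ℓ : Γ → ℕ} {K : Subgroup Γ} {ι : G →* Γ} {hK : ∀ x, ι x ∈ K} {π : G →* Aff Γ}
    (h : ∀ x, x ∈ good ℓ hK π) : Co ι fun x => (π x).T := fun x y => by
  show (π (x * y)).T = (π x).T + lam (ι x) * (π y).T
  rw [map_mul, ← (h x).1]
  rfl

end CoP

section Grp

variable {G A Γ : Type} [Group G] [Group A] [Group Γ] {x y z w r : G}

lemma ct_of_inj {f : A →* G} (hf : Function.Injective f) (h : CT G) : CT A := by
  refine ⟨fun x hx k hk => h.tf (f x) (fun e => hx (hf (by rw [e, map_one]))) k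
    (by rw [← map_zpow, hk, map_one]), fun x y hxy => ?_, fun x y z hx h1 h2 => hf ?_⟩
  · have h1 := h.fr (f x) (f y) fun e => hxy (hf (by rw [map_mul, map_mul, e]))
    rw [CoP.pr_comp] at h1
    exact h1.of_comp
  · rw [map_mul, map_mul]
    exact h.ct (f x) _ _ (fun e => hx (hf (by rw [e, map_one])))
      (by rw [← map_mul, ← map_mul, h1]) (by rw [← map_mul, ← map_mul, h2])

lemma csa (h : CT G) (hx : x ≠ 1) (hc : y * x * y⁻¹ * x = x * (y * x * y⁻¹)) : y * x = x * y := by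
  have _ := hx
  by_contra hn
  refine CoP.free_ne (h.fr y x hn ?_)
  simp only [map_mul, map_inv, pr_cc, pr_io]
  exact hc

lemma ct_root (h : CT G) (hz : z ≠ 1) (hr : z ∈ Subgroup.zpowers r) (hc : x * z = z * x) :
    x * r = r * x := by
  obtain ⟨k, rfl⟩ := hr
  exact h.ct _ x r hz hc.symm ((Commute.refl r).zpow_left k).eq

lemma free_map (h : CT G) {ι : G →* Γ} (hι : Function.Injective ι) (hxy : x * y ≠ y * x) :
    Function.Injective (pr (ι x) (ι y)) := by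
  rw [CoP.pr_comp]
  exact hι.comp (h.fr x y hxy)

lemma Cyc.conj (h : Cyc w) (y : G) : Cyc (y * w * y⁻¹) := by
  refine ⟨fun e => h.1 (by simpa using e), fun x hx => ?_⟩
  obtain ⟨k, hk⟩ := h.2 (y⁻¹ * x * y) (by
    have : y⁻¹ * (x * (y * w * y⁻¹)) * y = y⁻¹ * (y * w * y⁻¹ * x) * y := by rw [hx]
    simpa [mul_assoc] using this)
  refine ⟨k, ?_⟩
  simp only at hk ⊢
  rw [conj_zpow, hk]
  group

lemma Cyc.of_map {f : A →* G} (hf : Function.Injective f) {a : A} (h : Cyc (f a)) : Cyc a := by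
  refine ⟨fun e => h.1 (by rw [e, map_one]), fun x hx => ?_⟩
  obtain ⟨k, hk⟩ := h.2 (f x) (by rw [← map_mul, ← map_mul, hx])
  exact ⟨k, hf (by rw [← hk]; exact map_zpow f a k)⟩

lemma NC.conj (h : NC z) (y : G) : NC (y * z * y⁻¹) := by
  refine ⟨fun e => h.1 (by simpa using e), fun w hw ⟨k, hk⟩ => h.2 _ (hw.conj y⁻¹) ⟨k, ?_⟩⟩
  simp only at hk ⊢
  rw [conj_zpow, hk]
  group

lemma Far.symm (h : Far z w) : Far w z := fun a e => h a⁻¹ (by
  have : a⁻¹ * (z * (a * w * a⁻¹)) * a = a⁻¹ * (a * w * a⁻¹ * z) * a := by rw [e]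
  simpa [mul_assoc] using this)

lemma Far.ne_one (h : Far z w) : z ≠ 1 := fun e => h 1 (by simp [e])

lemma Far.root (h : Far z w) (hr : z ∈ Subgroup.zpowers r) : Far r w := fun a e => by
  obtain ⟨k, rfl⟩ := hr
  refine h a ?_
  simp only
  rw [← conj_zpow]
  exact (Commute.zpow_left e k).eq

lemma Far.pow (hG : CT G) (h : Far r w) (hz : z ≠ 1) (hr : z ∈ Subgroup.zpowers r) : Far z w := fun a e => by
  obtain ⟨k, rfl⟩ := hr
  refine h a (ct_root hG (z := a * r ^ k * a⁻¹) (fun e => hz (by simpa using e))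
    ⟨k, conj_zpow⟩ e.symm).symm

end Grp

section Coc

variable {G A B Γ : Type} [Group G] [Group A] [Group B] [Group Γ] {ℓ : Γ → ℕ} {X Y : Set Γ}
  {K : Subgroup Γ} {ι : G →* Γ} {β γ : G → Op Γ} {x z w : G} {ξ T : Op Γ}

/-- The inner cocycle of `ξ`. -/
def inn (ι : G →* Γ) (ξ : Op Γ) (x : G) : Op Γ := (1 - lam (ι x)) * ξ

lemma Co.one (h : Co ι β) : β 1 = 0 := by
  have := h 1 1
  rw [mul_one, map_one, map_one, one_mul] at this
  exact left_eq_add.1 this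

lemma Co.inv (h : Co ι β) (x : G) : β x⁻¹ = -(lam (ι x⁻¹) * β x) := by
  have := h x⁻¹ x
  rw [inv_mul_cancel, h.one] at this
  exact eq_neg_of_add_eq_zero_left this.symm

lemma Co.conj (h : Co ι β) (y z : G) :
    β (y * z * y⁻¹) = (1 - lam (ι (y * z * y⁻¹))) * β y + lam (ι y) * β z := by
  have h1 := h (y * z * y⁻¹) y
  rw [inv_mul_cancel_right, h y z] at h1
  rw [sub_mul, one_mul, sub_add_eq_add_sub, h1, add_sub_cancel_right]

lemma Co.zpow_zero (h : Co ι β) (hz : β z = 0) (k : ℤ) : β (z ^ k) = 0 := by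
  let S : Subgroup G :=
    { carrier := {x | β x = 0}
      one_mem' := h.one
      mul_mem' := fun {a b} ha hb => by
        show β (a * b) = 0
        rw [h a b, show β a = 0 from ha, show β b = 0 from hb, mul_zero, add_zero]
      inv_mem' := fun {a} ha => by
        show β a⁻¹ = 0
        rw [h.inv, show β a = 0 from ha, mul_zero, neg_zero] }
  exact S.zpow_mem hz k

lemma Co.comp (h : Co ι β) (f : A →* G) : Co (ι.comp f) fun a => β (f a) := fun a b => by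
  show β (f (a * b)) = β (f a) + lam (ι (f a)) * β (f b)
  rw [map_mul, h]

lemma co_zero : Co ι fun _ => (0 : Op Γ) := fun _ _ => by simp

lemma co_inn (ξ : Op Γ) : Co ι (inn ι ξ) := fun x y => by
  unfold inn
  rw [map_mul, map_mul]
  noncomm_ring

lemma Co.add (h : Co ι β) (h' : Co ι γ) : Co ι fun x => β x + γ x := fun x y => by
  show β (x * y) + γ (x * y) = β x + γ x + lam (ι x) * (β y + γ y)
  rw [h, h', mul_add]
  abel

lemma Co.sub (h : Co ι β) (h' : Co ι γ) : Co ι fun x => β x - γ x := fun x y => by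
  show β (x * y) - γ (x * y) = β x - γ x + lam (ι x) * (β y - γ y)
  rw [h, h', mul_sub]
  abel

lemma Co.mul (h : Co ι β) (T : Op Γ) : Co ι fun x => β x * T := fun x y => by
  show β (x * y) * T = β x * T + lam (ι x) * (β y * T)
  rw [h, add_mul, mul_assoc]

lemma one_sub_inj {g : Γ} (hg : InfOrd g) (h : (1 - lam g) * T = 0) : T = 0 := by
  rw [sub_mul, one_mul, sub_eq_zero] at h
  exact ContinuousLinearMap.ext fun η =>
    CoP.fix_zero hg (congrArg (fun S : Op Γ => S η) h).symm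

/-- `1 - g ^ k` is divisible by `1 - g`. -/
lemma exists_quot {g : Γ} (hg : g ∈ K) (k : ℤ) :
    ∃ q, An ℓ K q ∧ 1 - lam (g ^ k) = (1 - lam g) * q := by
  let S : Subgroup Γ :=
    { carrier := {a | a ∈ K ∧ ∃ q, An ℓ K q ∧ 1 - lam a = (1 - lam g) * q}
      one_mem' := ⟨one_mem K, 0, An.zero, by rw [map_one, sub_self, mul_zero]⟩
      mul_mem' := by
        rintro a b ⟨ha, p, hp, ep⟩ ⟨hb, q, hq, eq⟩
        refine ⟨mul_mem ha hb, q + p * lam b, hq.add (hp.mul' (An.of_lam hb)), ?_⟩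
        rw [mul_add, ← mul_assoc, ← ep, ← eq, map_mul]
        noncomm_ring
      inv_mem' := by
        rintro a ⟨ha, p, hp, ep⟩
        refine ⟨inv_mem ha, -(p * lam a⁻¹), (hp.mul' (An.of_lam (inv_mem ha))).neg, ?_⟩
        rw [mul_neg, ← mul_assoc, ← ep, sub_mul, one_mul, ← map_mul, mul_inv_cancel, map_one,
          neg_sub] }
  exact (S.zpow_mem (x := g) ⟨hg, 1, An.one, (mul_one _).symm⟩ k).2

/-- One minus an average of powers of `g` is divisible by `1 - g`. -/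
lemma exists_quot_avg {g : Γ} (hg : g ∈ K) {N : ℕ} (hN : N ≠ 0) (e : ℕ → ℤ) :
    ∃ q, An ℓ K q ∧
      1 - (N : ℝ)⁻¹ • ∑ k ∈ Finset.range N, lam (g ^ e k) = (1 - lam g) * q := by
  choose q hq eq using fun k => exists_quot (ℓ := ℓ) hg (e k)
  refine ⟨(N : ℝ)⁻¹ • ∑ k ∈ Finset.range N, q k, (An.sum _ fun k _ => hq k).smul _, ?_⟩
  have hN' : (N : ℝ) ≠ 0 := Nat.cast_ne_zero.2 hN
  rw [mul_smul_comm, Finset.mul_sum, ← Finset.sum_congr rfl fun k _ => eq k,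
    Finset.sum_sub_distrib, smul_sub, Finset.sum_const, Finset.card_range,
    ← Nat.cast_smul_eq_nsmul ℝ, smul_smul, inv_mul_cancel₀ hN', one_smul]

/-- The average of distinct translations is small on the base vector. -/
lemma norm_avg {g : Γ} (hg : InfOrd g) {N : ℕ} (hN : N ≠ 0) (m : ℕ) :
    ‖((N : ℝ)⁻¹ • ∑ k ∈ Finset.range N, lam (g ^ (k + m))) (dl 1)‖ = (√N)⁻¹ := by
  classical
  have hi : Function.Injective fun k : ℕ => g ^ (k + m) := fun a b e =>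
    Nat.add_right_cancel (CoP.pow_inj hg e)
  have h1 := AnP.norm_sum_dl ((Finset.range N).image fun k => g ^ (k + m))
  rw [Finset.card_image_of_injective _ hi, Finset.card_range,
    Finset.sum_image fun a _ b _ e => hi e] at h1
  have h2 : ‖∑ k ∈ Finset.range N, dl (g ^ (k + m))‖ = √N := by
    rw [← h1, Real.sqrt_sq (norm_nonneg _)]
  have hN' : (0 : ℝ) < N := Nat.cast_pos.2 (Nat.pos_of_ne_zero hN)
  rw [ContinuousLinearMap.smul_apply, ContinuousLinearMap.sum_apply, norm_smul,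
    Finset.sum_congr rfl fun k _ => lam_one (g ^ (k + m)), h2, Real.norm_eq_abs,
    abs_of_pos (inv_pos.2 hN')]
  have h3 := Real.mul_self_sqrt hN'.le
  have h4 : √(N : ℝ) ≠ 0 := (Real.sqrt_pos.2 hN').ne'
  field_simp
  rw [sq, h3]

lemma In.mono (h : In ℓ X ι β z) (hXY : X ⊆ Y) : In ℓ Y ι β z := by
  obtain ⟨ξ, hξ, e⟩ := h
  exact ⟨ξ, hξ.mono hXY, e⟩

lemma in_of_zero (h : β z = 0) : In ℓ X ι β z := ⟨0, An.zero, by rw [h, mul_zero]⟩

lemma in_inn (hξ : An ℓ X ξ) (z : G) : In ℓ X ι (inn ι ξ) z := ⟨ξ, hξ, rfl⟩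

lemma In.add (h : In ℓ X ι β z) (h' : In ℓ X ι γ z) : In ℓ X ι (fun x => β x + γ x) z := by
  obtain ⟨ξ, hξ, e⟩ := h
  obtain ⟨ζ, hζ, e'⟩ := h'
  exact ⟨ξ + ζ, hξ.add hζ, by show β z + γ z = _; rw [e, e', mul_add]⟩

lemma In.sub (h : In ℓ X ι β z) (h' : In ℓ X ι γ z) : In ℓ X ι (fun x => β x - γ x) z := by
  obtain ⟨ξ, hξ, e⟩ := h
  obtain ⟨ζ, hζ, e'⟩ := h'
  exact ⟨ξ - ζ, hξ.sub hζ, by show β z - γ z = _; rw [e, e', ← mul_sub]⟩

lemma In.mul (h : In ℓ K ι β z) (hT : An ℓ K T) : In ℓ K ι (fun x => β x * T) z := by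
  obtain ⟨ξ, hξ, e⟩ := h
  exact ⟨ξ * T, hξ.mul' hT, by show β z * T = _; rw [e, mul_assoc]⟩

lemma In.of_mem (hβ : Co ι β) (h : In ℓ X ι β z) (hx : x ∈ Subgroup.zpowers z) :
    In ℓ X ι β x := by
  obtain ⟨ξ, hξ, e⟩ := h
  obtain ⟨k, rfl⟩ := hx
  exact ⟨ξ, hξ, sub_eq_zero.1 ((hβ.sub (co_inn ξ)).zpow_zero (sub_eq_zero.2 e) k)⟩

lemma In.comm (hβ : Co ι β) (h : In ℓ X ι β z) (hz : InfOrd (ι z)) (hc : x * z = z * x) :
    In ℓ X ι β x := by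
  obtain ⟨ξ, hξ, e⟩ := h
  refine ⟨ξ, hξ, sub_eq_zero.1 (CoP.comm_zero (x := x) (z := z) (hβ.sub (co_inn ξ))
    (sub_eq_zero.2 e) hc fun T => one_sub_inj hz)⟩

lemma In.conj (hβ : Co ι β) (hK : ∀ x, ι x ∈ K) (ha : ∀ x, An ℓ K (β x)) (h : In ℓ K ι β z)
    (y : G) : In ℓ K ι β (y * z * y⁻¹) := by
  obtain ⟨ξ, hξ, e⟩ := h
  refine ⟨β y + lam (ι y) * ξ, (ha y).add ((An.of_lam (hK y)).mul' hξ), ?_⟩
  have h1 : lam (ι (y * z * y⁻¹)) * lam (ι y) = lam (ι y) * lam (ι z) := by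
    rw [← map_mul, ← map_mul, ← map_mul, ← map_mul, inv_mul_cancel_right]
  rw [hβ.conj, e, mul_add, ← mul_assoc, ← mul_assoc, sub_mul 1 _ (lam (ι y)), h1, mul_sub,
    mul_one, one_mul]

lemma Z0.mono (h : Z0 ℓ X ι β) (hXY : X ⊆ Y) : Z0 ℓ Y ι β :=
  ⟨h.co, fun x => (h.an x).mono hXY, fun z hz => (h.nc z hz).mono hXY⟩

lemma z0_zero : Z0 ℓ X ι fun _ => (0 : Op Γ) := ⟨co_zero, fun _ => An.zero, fun _ _ => in_of_zero rfl⟩

lemma z0_inn (hK : ∀ x, ι x ∈ K) (hξ : An ℓ K ξ) : Z0 ℓ K ι (inn ι ξ) :=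
  ⟨co_inn ξ, fun x => (An.one.sub (An.of_lam (hK x))).mul' hξ, fun z _ => in_inn hξ z⟩

lemma Z0.add (h : Z0 ℓ X ι β) (h' : Z0 ℓ X ι γ) : Z0 ℓ X ι fun x => β x + γ x :=
  ⟨h.co.add h'.co, fun x => (h.an x).add (h'.an x), fun z hz => (h.nc z hz).add (h'.nc z hz)⟩

lemma Z0.sub (h : Z0 ℓ X ι β) (h' : Z0 ℓ X ι γ) : Z0 ℓ X ι fun x => β x - γ x :=
  ⟨h.co.sub h'.co, fun x => (h.an x).sub (h'.an x), fun z hz => (h.nc z hz).sub (h'.nc z hz)⟩

lemma Z0.mul (h : Z0 ℓ K ι β) (hT : An ℓ K T) : Z0 ℓ K ι fun x => β x * T :=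
  ⟨h.co.mul T, fun x => (h.an x).mul' hT, fun z hz => (h.nc z hz).mul hT⟩

/-- Value one at a conjugate gives value one. -/
lemma Z0.conjQ (h : Z0 ℓ K ι β) (hK : ∀ x, ι x ∈ K) {y : G} (hw : β (y * w * y⁻¹) = 1) :
    ∃ β', Z0 ℓ K ι β' ∧ β' w = 1 := by
  have hy : An ℓ K (lam (ι y)) := An.of_lam (hK y)
  have hy' : An ℓ K (lam (ι y⁻¹)) := An.of_lam (hK y⁻¹)
  refine ⟨_, (h.mul hy).add (z0_inn hK ((hy'.mul' (h.an y)).mul' hy)), ?_⟩
  have h1 := h.co.conj y⁻¹ (y * w * y⁻¹)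
  have h2 : y⁻¹ * (y * w * y⁻¹) * y⁻¹⁻¹ = w := by group
  have h3 : lam (ι y⁻¹) * lam (ι y) = 1 := by
    rw [← map_mul, ← map_mul, inv_mul_cancel, map_one, map_one]
  rw [h2, hw, mul_one, h.co.inv y] at h1
  show β w * lam (ι y) + (1 - lam (ι w)) * (lam (ι y⁻¹) * β y * lam (ι y)) = 1
  rw [h1, add_mul, h3]
  noncomm_ring

lemma ext_pin {c : A} {d : B} {f : A →* G} {g : B →* G} (h : Pin c d f g) (hK : ∀ x, ι x ∈ K)
    {βA : A → Op Γ} {βB : B → Op Γ} (hA : Co (ι.comp f) βA) (hB : Co (ι.comp g) βB)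
    (e : βA c = βB d) (aA : ∀ a, An ℓ K (βA a)) (aB : ∀ b, An ℓ K (βB b)) :
    ∃ β, Co ι β ∧ (∀ x, An ℓ K (β x)) ∧ (∀ a, β (f a) = βA a) ∧ ∀ b, β (g b) = βB b := by
  obtain ⟨π, h1, h2⟩ := h.lift (CoP.Aff Γ) (CoP.toAff hA hA.one) (CoP.toAff hB hB.one)
    (CoP.Aff.ext e (congrArg ι h.comm))
  have hg := h.gen (CoP.good ℓ hK π) (fun a => by rw [CoP.mem_good, h1]; exact ⟨rfl, aA a⟩)
    fun b => by rw [CoP.mem_good, h2]; exact ⟨rfl, aB b⟩
  exact ⟨fun x => (π x).T, CoP.co_of hg, fun x => (hg x).2, fun a => congrArg CoP.Aff.T (h1 a),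
    fun b => congrArg CoP.Aff.T (h2 b)⟩

lemma ext_hn {c c' : A} {f : A →* G} {t : G} (h : FG.Hn c' c f t) (hK : ∀ x, ι x ∈ K)
    {βA : A → Op Γ} (hA : Co (ι.comp f) βA) {θ : Op Γ}
    (e : βA c' = (1 - lam (ι (f c'))) * θ + lam (ι t) * βA c) (aA : ∀ a, An ℓ K (βA a))
    (aθ : An ℓ K θ) :
    ∃ β, Co ι β ∧ (∀ x, An ℓ K (β x)) ∧ (∀ a, β (f a) = βA a) ∧ β t = θ := by
  have h0 : ι (f c') = ι t * ι (f c) * (ι t)⁻¹ := by rw [h.comm, map_mul, map_mul, map_inv]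
  obtain ⟨π, h1, h2⟩ := h.lift (CoP.Aff Γ) (CoP.toAff hA hA.one) ⟨θ, ι t⟩ (by
    rw [eq_mul_inv_iff_mul_eq]
    refine CoP.Aff.ext ?_ ?_
    · show βA c' + lam (ι (f c')) * θ = θ + lam (ι t) * βA c
      rw [e]
      noncomm_ring
    · show ι (f c') * ι t = ι t * ι (f c)
      rw [h0, inv_mul_cancel_right])
  have hg := h.gen (CoP.good ℓ hK π) (fun a => by rw [CoP.mem_good, h1]; exact ⟨rfl, aA a⟩)
    (by rw [CoP.mem_good, h2]; exact ⟨rfl, aθ⟩)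
  exact ⟨fun x => (π x).T, CoP.co_of hg, fun x => (hg x).2, fun a => congrArg CoP.Aff.T (h1 a),
    by show (π t).T = θ; rw [h2]⟩

lemma ext_fz {ι : FZ A →* Γ} (hK : ∀ x, ι x ∈ K) {βA : A → Op Γ}
    (hA : Co (ι.comp Coprod.inl) βA) {θ : Op Γ} (aA : ∀ a, An ℓ K (βA a)) (aθ : An ℓ K θ) :
    ∃ β, Co ι β ∧ (∀ x, An ℓ K (β x)) ∧ (∀ a, β (Coprod.inl a) = βA a) ∧ β (gen A) = θ := by
  let π : FZ A →* CoP.Aff Γ :=
    Coprod.lift (CoP.toAff hA hA.one) (zpowersHom _ ⟨θ, ι (gen A)⟩)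
  have h1 : ∀ a, π (Coprod.inl a) = CoP.toAff hA hA.one a := fun a => Coprod.lift_apply_inl _ _ a
  have h2 : π (gen A) = ⟨θ, ι (gen A)⟩ := by
    show π (Coprod.inr _) = _
    rw [Coprod.lift_apply_inr, zpowersHom_apply, toAdd_ofAdd, zpow_one]
  have hg : ∀ x, x ∈ CoP.good ℓ hK π := fun x => by
    induction x using Coprod.induction_on with
    | inl a => rw [CoP.mem_good, h1]; exact ⟨rfl, aA a⟩
    | inr q =>
      have : (Coprod.inr q : FZ A) = gen A ^ q.toAdd := by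
        rw [gen, ← map_zpow, ← ofAdd_zsmul, smul_eq_mul, mul_one, ofAdd_toAdd]
      rw [this]
      exact Subgroup.zpow_mem _ (by rw [CoP.mem_good, h2]; exact ⟨rfl, aθ⟩) _
    | mul x y hx hy => exact mul_mem hx hy
  exact ⟨fun x => (π x).T, CoP.co_of hg, fun x => (hg x).2, fun a => congrArg CoP.Aff.T (h1 a),
    by show (π _).T = θ; rw [h2]⟩

lemma ext_cyc (hw : InfOrd w) (hg : ∀ x, x ∈ Subgroup.zpowers w) (hK : ∀ x, ι x ∈ K) :
    ∃ β, Co ι β ∧ (∀ x, An ℓ K (β x)) ∧ β w = 1 := by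
  have hb : Function.Bijective (zpowersHom G w) :=
    ⟨(injective_iff_map_eq_one _).2 fun k hk => hw k.toAdd hk, fun x => by
      obtain ⟨k, hk⟩ := hg x
      exact ⟨Multiplicative.ofAdd k, hk⟩⟩
  let E := MulEquiv.ofBijective _ hb
  let π : G →* CoP.Aff Γ := (zpowersHom _ ⟨1, ι w⟩).comp E.symm.toMonoidHom
  have h0 : E.symm w = Multiplicative.ofAdd 1 := by
    rw [MulEquiv.symm_apply_eq]
    exact (zpow_one w).symm
  have h2 : π w = ⟨1, ι w⟩ := by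
    show zpowersHom _ _ (E.symm w) = _
    rw [h0, zpowersHom_apply, toAdd_ofAdd, zpow_one]
  have hw' : w ∈ CoP.good ℓ hK π := by rw [CoP.mem_good, h2]; exact ⟨rfl, An.one⟩
  have hx : ∀ x, x ∈ CoP.good ℓ hK π := fun x => (Subgroup.zpowers_le.2 hw') (hg x)
  exact ⟨fun x => (π x).T, CoP.co_of hx, fun x => (hx x).2, by show (π _).T = 1; rw [h2]⟩

end Coc

end

end Pool.Agent.MP_494aff_an.Lf

end MrgPart1

-- marker of a merged file
example : 731051 + 34418 = 731051 + 34418 := rfl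

end MrgPart0

-- ======== part 1: formerly Pool.Agent.MP_494aff_an.lf.Scale
section MrgPart1

-- ======== part 0: formerly Pool.Agent.MP_494aff_an.lf.Abs
section MrgPart0

/-! Absorption of a free generator. -/

open Monoid Filter Topology
open scoped InnerProductSpace ComplexConjugate

namespace Pool.Agent.MP_494aff_an.Lf

open Pool.Agent.MP_494aff_an.Pinch Pool.Agent.MP_494aff_an.Pinch.TowP

noncomputable section

namespace AbsP

section Dev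

variable {Λ : Type} [Group Λ]

/-- The distance of `α x` from the translation by `φ x`. -/
def dev (α : Λ →* Op Λ) (φ : Λ →* Λ) (x : Λ) : ℝ := ‖α x (dl 1) - dl (φ x)‖

lemma dev_nonneg (α : Λ →* Op Λ) (φ : Λ →* Λ) (x : Λ) : 0 ≤ dev α φ x := norm_nonneg _

lemma dev_one (α : Λ →* Op Λ) (φ : Λ →* Λ) : dev α φ 1 = 0 := by
  simp [dev]

lemma unit_gen {α : Λ →* Op Λ} (h : Gen α) (g : Λ) : star (α g) * α g = 1 := by
  rw [h.star_eq, ← map_mul, inv_mul_cancel, map_one]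

lemma dev_inv {α : Λ →* Op Λ} (h : Gen α) (φ : Λ →* Λ) (x : Λ) : dev α φ x⁻¹ = dev α φ x := by
  have := norm_star_hat (sub_mem (h.mem x) (lam_mem (φ x)))
  rw [star_sub, h.star_eq, star_lam, _root_.sub_apply,
    _root_.sub_apply, lam_one, lam_one, ← map_inv] at this
  exact this

lemma dev_mul {α : Λ →* Op Λ} (h : Gen α) (φ : Λ →* Λ) (x y : Λ) :
    dev α φ (x * y) ≤ dev α φ x + dev α φ y := by
  have h1 := norm_mul_hat (sub_mem (h.mem x) (lam_mem (φ x))) (lam_mem (φ y))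
  rw [_root_.sub_apply, _root_.sub_apply, lam_one, lam_one] at h1
  have h2 : α (x * y) (dl 1) - dl (φ (x * y)) =
      (α x (dl (φ y)) - lam (φ x) (dl (φ y))) + α x (α y (dl 1) - dl (φ y)) := by
    rw [map_mul, mul_ap, map_sub, lam_dl, map_mul]; abel
  unfold dev
  rw [h2]
  refine (norm_add_le _ _).trans ?_
  rw [norm_of_star_mul_self (unit_gen h x)]
  have := opNorm_lam (φ y)
  nlinarith [norm_nonneg (α x (dl 1) - dl (φ x))]

end Dev

variable {G : Type} [Group G]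

/-- The elements whose deviation is controlled by finitely many generators. -/
def Ctl (x : FZ G) : Prop :=
  ∃ (S : Finset G) (c : ℝ), 0 ≤ c ∧ ∀ (α : FZ G →* Op (FZ G)) (φ : FZ G →* FZ G) (ε : ℝ),
    Gen α → (∀ s ∈ S, dev α φ (Coprod.inl s) ≤ ε) → dev α φ (gen G) ≤ ε → dev α φ x ≤ c * ε

lemma ctl_one : Ctl (1 : FZ G) :=
  ⟨∅, 0, le_rfl, fun α φ ε _ _ _ => by rw [dev_one, zero_mul]⟩

lemma Ctl.mul {x y : FZ G} (hx : Ctl x) (hy : Ctl y) : Ctl (x * y) := by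
  classical
  obtain ⟨S, a, ha, hx⟩ := hx
  obtain ⟨T, b, hb, hy⟩ := hy
  refine ⟨S ∪ T, a + b, by positivity, fun α φ ε h hs hg => (dev_mul h φ x y).trans ?_⟩
  have h1 := hx α φ ε h (fun s m => hs s (Finset.mem_union_left _ m)) hg
  have h2 := hy α φ ε h (fun s m => hs s (Finset.mem_union_right _ m)) hg
  linarith

lemma Ctl.inv {x : FZ G} (hx : Ctl x) : Ctl x⁻¹ := by
  obtain ⟨S, a, ha, hx⟩ := hx
  exact ⟨S, a, ha, fun α φ ε h hs hg => by rw [dev_inv h]; exact hx α φ ε h hs hg⟩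

/-- The controlled elements as a subgroup. -/
def ctlS (G : Type) [Group G] : Subgroup (FZ G) where
  carrier := {x | Ctl x}
  mul_mem' := Ctl.mul
  one_mem' := ctl_one
  inv_mem' := Ctl.inv

lemma inr_eq (n : Multiplicative ℤ) : (Coprod.inr n : FZ G) = gen G ^ n.toAdd := by
  rw [gen, ← map_zpow, ← ofAdd_zsmul]
  simp

lemma ctl (x : FZ G) : Ctl x := by
  induction x using Coprod.induction_on with
  | inl g =>
    exact ⟨{g}, 1, zero_le_one, fun α φ ε _ hs _ => by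
      rw [one_mul]; exact hs g (Finset.mem_singleton_self g)⟩
  | inr n =>
    have hg : gen G ∈ ctlS G :=
      ⟨∅, 1, zero_le_one, fun α φ ε _ _ hg => by rw [one_mul]; exact hg⟩
    rw [inr_eq]
    exact (ctlS G).zpow_mem hg _
  | mul x y hx hy => exact hx.mul hy

lemma ctl_fin (F : Finset (FZ G)) : ∃ (S : Finset G) (c : ℝ), 0 ≤ c ∧
    ∀ (α : FZ G →* Op (FZ G)) (φ : FZ G →* FZ G) (ε : ℝ), 0 ≤ ε → Gen α →
      (∀ s ∈ S, dev α φ (Coprod.inl s) ≤ ε) → dev α φ (gen G) ≤ ε →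
      ∀ x ∈ F, dev α φ x ≤ c * ε := by
  classical
  induction F using Finset.induction_on with
  | empty => exact ⟨∅, 0, le_rfl, fun _ _ _ _ _ _ _ x hx => absurd hx (Finset.notMem_empty x)⟩
  | insert z F _ ih =>
    obtain ⟨S, a, ha, hF⟩ := ih
    obtain ⟨T, b, hb, hz⟩ := ctl z
    refine ⟨S ∪ T, a + b, by positivity, fun α φ ε hε h hs hg x hx => ?_⟩
    have h1 := hF α φ ε hε h (fun s m => hs s (Finset.mem_union_left _ m)) hg
    have h2 := hz α φ ε h (fun s m => hs s (Finset.mem_union_right _ m)) hg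
    have h3 := mul_nonneg ha hε
    have h4 := mul_nonneg hb hε
    rcases Finset.mem_insert.1 hx with rfl | hx
    · linarith
    · have := h1 x hx
      linarith

/-- The endomorphism that fixes `G` and sends the extra generator to `z`. -/
def sub (z : FZ G) : FZ G →* FZ G := Coprod.lift Coprod.inl (zpowersHom _ z)

lemma sub_inl (z : FZ G) (g : G) : sub z (Coprod.inl g) = Coprod.inl g := by
  simp [sub]

lemma sub_gen (z : FZ G) : sub z (gen G) = z := by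
  simp [sub, gen]

lemma hom_eq {M : Type} [Group M] {f g : FZ G →* M}
    (h1 : ∀ x, f (Coprod.inl x) = g (Coprod.inl x)) (h2 : f (gen G) = g (gen G)) : f = g := by
  refine Coprod.hom_ext (MonoidHom.ext h1) (MonoidHom.ext fun n => ?_)
  simp only [MonoidHom.comp_apply]
  rw [inr_eq, map_zpow, map_zpow, h2]

lemma sub_left (w : G) (x : FZ G) :
    sub (Coprod.inl w * (gen G)⁻¹) (sub ((gen G)⁻¹ * Coprod.inl w) x) = x := by
  have : (sub (Coprod.inl w * (gen G)⁻¹)).comp (sub ((gen G)⁻¹ * Coprod.inl w)) =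
      MonoidHom.id _ := by
    refine hom_eq (fun g => ?_) ?_
    · simp only [MonoidHom.comp_apply, sub_inl, MonoidHom.id_apply]
    · simp only [MonoidHom.comp_apply, sub_gen, MonoidHom.id_apply, map_mul, map_inv, sub_inl]
      group
  exact DFunLike.congr_fun this x

lemma sub_right (w : G) (x : FZ G) :
    sub ((gen G)⁻¹ * Coprod.inl w) (sub (Coprod.inl w * (gen G)⁻¹) x) = x := by
  have : (sub ((gen G)⁻¹ * Coprod.inl w)).comp (sub (Coprod.inl w * (gen G)⁻¹)) =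
      MonoidHom.id _ := by
    refine hom_eq (fun g => ?_) ?_
    · simp only [MonoidHom.comp_apply, sub_inl, MonoidHom.id_apply]
    · simp only [MonoidHom.comp_apply, sub_gen, MonoidHom.id_apply, map_mul, map_inv, sub_inl]
      group
  exact DFunLike.congr_fun this x

lemma gen_comp {Λ : Type} [Group Λ] {α : Λ →* Op Λ} (h : Gen α) (σ : Λ →* Λ)
    (hi : Function.Injective σ) (hs : Function.Surjective σ) : Gen (α.comp σ) where
  mem g := h.mem _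
  star_eq g := by
    simp only [MonoidHom.comp_apply]
    rw [h.star_eq, map_inv σ]
  trace g hg := h.trace _ fun e => hg (hi (e.trans (map_one σ).symm))
  dense := by
    have : (Set.range fun g => (α.comp σ) g (dl 1)) = Set.range fun g => α g (dl 1) :=
      hs.range_comp fun g => α g (dl 1)
    rw [this]
    exact h.dense

lemma sub_range (w : G) (x : FZ G) : ∃ g : G, sub (Coprod.inl w) x = Coprod.inl g := by
  have : sub (Coprod.inl w : FZ G) =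
      Coprod.inl.comp (Coprod.lift (MonoidHom.id G) (zpowersHom _ w)) := by
    refine hom_eq (fun g => ?_) ?_
    · simp [sub_inl]
    · rw [sub_gen]; simp [gen]
  exact ⟨_, DFunLike.congr_fun this x⟩

lemma countable_fz (h : Group.FG G) : Countable (FZ G) := by
  obtain ⟨ι, _, φ, hφ⟩ := Group.fg_iff_exists_freeGroup_hom_surjective_finite.1 h
  have : Countable G := hφ.countable
  exact Coprod.mk_surjective.countable

end AbsP

open AbsP in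
theorem abs1 (hF : FlowStmt3) (hI : IntStmt) : AbsStmt := by
  classical
  intro G _ hG hA
  have := countable_fz hG
  refine hI G (FZ G) Coprod.inl Coprod.inl_injective fun E F η hη => ?_
  obtain ⟨ℓ, M, hM, hF⟩ := hF G hG
  obtain ⟨S, c, hc, hS⟩ := ctl_fin F
  have hpos : 0 < η / ((M + 1) * (c + 1)) := by positivity
  obtain ⟨β, w, hco, han, hs, hw⟩ := hA (FZ G) ℓ Coprod.inl Coprod.inl_injective (E ∪ S) _ hpos
  obtain ⟨α, hα, hy, hg⟩ := hF β hco han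
  have hM' : M * (η / ((M + 1) * (c + 1))) ≤ η / (c + 1) := by
    have : η / (c + 1) = (M + 1) * (η / ((M + 1) * (c + 1))) := by field_simp
    rw [this]
    nlinarith
  have hc1 : η / (c + 1) ≤ η := div_le_self hη.le (by linarith)
  have hc2 : c * (η / (c + 1)) ≤ η := by
    have h1 : η = (c + 1) * (η / (c + 1)) := by field_simp
    have h2 : 0 < η / (c + 1) := by positivity
    nlinarith
  have hsm : ∀ s ∈ E ∪ S, ‖α (Coprod.inl s) (dl 1) - dl (Coprod.inl s)‖ ≤ η / (c + 1) :=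
    fun s m => ((hg s).1.trans (mul_le_mul_of_nonneg_left (hs s m) hM)).trans hM'
  have hG' := gen_comp hα (sub ((gen G)⁻¹ * Coprod.inl w))
    (Function.LeftInverse.injective (sub_left w)) (Function.RightInverse.surjective (sub_right w))
  refine ⟨_, hG', fun g m => ?_, fun x m => ?_⟩
  · rw [MonoidHom.comp_apply, sub_inl]
    exact (hsm g (Finset.mem_union_left _ m)).trans hc1
  · obtain ⟨g, e⟩ := sub_range w x
    refine ⟨g, ?_⟩
    rw [← e]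
    refine (hS _ (sub (Coprod.inl w)) (η / (c + 1)) (by positivity) hG' (fun s m => ?_) ?_ x
      m).trans hc2
    · unfold dev
      rw [MonoidHom.comp_apply, sub_inl, sub_inl]
      exact hsm s (Finset.mem_union_right _ m)
    · unfold dev
      have hy' : α (gen G)⁻¹ = lam (gen G)⁻¹ := by rw [← hα.star_eq, hy, star_lam]
      have e1 : (dl (Coprod.inl w) : H (FZ G)) = lam (gen G)⁻¹ (dl (gen G * Coprod.inl w)) := by
        rw [lam_dl, inv_mul_cancel_left]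
      rw [MonoidHom.comp_apply, sub_gen, sub_gen, map_mul, mul_ap, hy', e1, ← map_sub, lam_norm]
      exact ((hg w).2.trans (mul_le_mul_of_nonneg_left hw hM)).trans hM'

end

end Pool.Agent.MP_494aff_an.Lf

end MrgPart0

-- ======== part 1: formerly Pool.Agent.MP_494aff_an.lf.Scale
section MrgPart1

/-! The scale of weighted norms attached to a kernel with a form bound. -/

open Filter Topology
open scoped InnerProductSpace ComplexConjugate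

namespace Pool.Agent.MP_494aff_an.Lf

open Pool.Agent.MP_494aff_an.Pinch Pool.Agent.MP_494aff_an.Pinch.TowP

noncomputable section

namespace ScP

open AnP

variable {Λ : Type}

/-- A weighted function. -/
def wt (ℓ : Λ → ℕ) (a : ℝ) (f : Λ → ℂ) : Λ → ℂ := fun x => (Real.exp (a * ℓ x) : ℂ) * f x

lemma norm_wt (ℓ : Λ → ℕ) (a : ℝ) (f : Λ → ℂ) (x : Λ) :
    ‖wt ℓ a f x‖ = Real.exp (a * ℓ x) * ‖f x‖ := by
  rw [wt, norm_mul, Complex.norm_real, Real.norm_of_nonneg (Real.exp_pos _).le]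

/-- Vectors with all weighted norms finite. -/
def VV (ℓ : Λ → ℕ) (a₀ : ℝ) : Submodule ℂ (H Λ) where
  carrier := {ξ | ∀ a, 0 ≤ a → a < a₀ → Memℓp (wt ℓ a ξ) 2}
  zero_mem' := fun a _ _ => by
    have : wt ℓ a ((0 : H Λ) : Λ → ℂ) = 0 := funext fun x => by
      rw [wt, lp.coeFn_zero, Pi.zero_apply, mul_zero]
    rw [this]; exact zero_memℓp
  add_mem' := fun {ξ η} h h' a ha hb => by
    have : wt ℓ a ((ξ + η : H Λ) : Λ → ℂ) = wt ℓ a ξ + wt ℓ a η := funext fun x => by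
      rw [wt, lp.coeFn_add, Pi.add_apply, Pi.add_apply, wt, wt, mul_add]
    rw [this]; exact (h a ha hb).add (h' a ha hb)
  smul_mem' := fun c ξ h a ha hb => by
    have : wt ℓ a ((c • ξ : H Λ) : Λ → ℂ) = c • wt ℓ a ξ := funext fun x => by
      rw [wt, lp.coeFn_smul, Pi.smul_apply, Pi.smul_apply, wt, smul_eq_mul, smul_eq_mul]; ring
    rw [this]; exact (h a ha hb).const_smul c

variable {ℓ : Λ → ℕ} {a₀ : ℝ}

/-- The weighted vector. -/
def WW (ℓ : Λ → ℕ) {a₀ a : ℝ} (ha : 0 ≤ a) (hb : a < a₀) : VV ℓ a₀ →ₗ[ℂ] H Λ where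
  toFun ξ := ⟨wt ℓ a (ξ : H Λ), ξ.2 a ha hb⟩
  map_add' ξ η := lp.ext (funext fun x => by
    show wt ℓ a ((ξ : H Λ) + η : H Λ) x = wt ℓ a (ξ : H Λ) x + wt ℓ a (η : H Λ) x
    rw [wt, lp.coeFn_add, Pi.add_apply, wt, wt, mul_add])
  map_smul' c ξ := lp.ext (funext fun x => by
    show wt ℓ a (c • (ξ : H Λ) : H Λ) x = c * wt ℓ a (ξ : H Λ) x
    rw [wt, lp.coeFn_smul, Pi.smul_apply, wt, smul_eq_mul]; ring)

lemma WW_coef {a : ℝ} (ha : 0 ≤ a) (hb : a < a₀) (ξ : VV ℓ a₀) (x : Λ) :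
    WW ℓ ha hb ξ x = wt ℓ a (ξ : H Λ) x := rfl

open Classical in
/-- The weighted norms. -/
def NN (ℓ : Λ → ℕ) (a₀ a : ℝ) : Seminorm ℂ (VV ℓ a₀) :=
  if h : 0 ≤ a ∧ a < a₀ then (normSeminorm ℂ (H Λ)).comp (WW ℓ h.1 h.2) else 0

lemma NN_eq {a : ℝ} (ha : 0 ≤ a) (hb : a < a₀) (ξ : VV ℓ a₀) :
    NN ℓ a₀ a ξ = ‖WW ℓ ha hb ξ‖ := by
  rw [NN, dif_pos ⟨ha, hb⟩]; rfl

lemma dl_mem (x : Λ) : dl x ∈ VV ℓ a₀ := fun a _ _ => by
  have : wt ℓ a (dl x) = ((Real.exp (a * ℓ x) : ℂ) • dl x : H Λ) := funext fun y => by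
    rw [wt, lp.coeFn_smul, Pi.smul_apply, smul_eq_mul]
    by_cases hy : y = x
    · rw [hy]
    · rw [dl_ne hy, mul_zero, mul_zero]
  rw [this]; exact lp.memℓp _

lemma WW_dl {a : ℝ} (ha : 0 ≤ a) (hb : a < a₀) (x : Λ) :
    WW ℓ ha hb ⟨dl x, dl_mem x⟩ = (Real.exp (a * ℓ x) : ℂ) • dl x :=
  lp.ext (funext fun y => by
    rw [WW_coef, wt, lp.coeFn_smul, Pi.smul_apply, smul_eq_mul]
    by_cases hy : y = x
    · rw [hy]
    · rw [dl_ne hy, mul_zero, mul_zero])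

lemma NN_zero (h0 : 0 < a₀) (ξ : VV ℓ a₀) : NN ℓ a₀ 0 ξ = ‖(ξ : H Λ)‖ := by
  rw [NN_eq le_rfl h0]
  congr 1
  exact lp.ext (funext fun x => by rw [WW_coef, wt]; simp)

lemma NN_mono {a' a : ℝ} (h0 : 0 ≤ a') (h : a' ≤ a) (hb : a < a₀) (ξ : VV ℓ a₀) :
    NN ℓ a₀ a' ξ ≤ NN ℓ a₀ a ξ := by
  rw [NN_eq h0 (h.trans_lt hb), NN_eq (h0.trans h) hb, ← one_mul ‖WW ℓ (h0.trans h) hb ξ‖]
  refine vec_le zero_le_one fun x => ?_
  rw [WW_coef, WW_coef, norm_wt, norm_wt, one_mul]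
  exact mul_le_mul_of_nonneg_right
    (Real.exp_le_exp.2 (mul_le_mul_of_nonneg_right h (Nat.cast_nonneg _))) (norm_nonneg _)

lemma NN_trunc {a : ℝ} (ha : 0 ≤ a) (hb : a < a₀) (ξ : VV ℓ a₀) : Tendsto
    (fun F : Finset Λ => NN ℓ a₀ a (ξ - ∑ x ∈ F, (ξ : H Λ) x • (⟨dl x, dl_mem x⟩ : VV ℓ a₀)))
    atTop (𝓝 0) := by
  have h1 : Tendsto (fun F : Finset Λ => ∑ x ∈ F, WW ℓ ha hb ξ x • dl x) atTop
      (𝓝 (WW ℓ ha hb ξ)) := hasSum_dl (WW ℓ ha hb ξ)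
  have h2 := ((tendsto_const_nhds (x := WW ℓ ha hb ξ)).sub h1).norm
  rw [sub_self, norm_zero] at h2
  refine h2.congr fun F => ?_
  rw [NN_eq ha hb, map_sub, map_sum]
  congr 2
  refine Finset.sum_congr rfl fun x _ => ?_
  rw [map_smul, WW_dl, smul_smul, WW_coef, wt, mul_comm]

lemma shift (T : Op Λ) (σ : Λ → Λ) (m : ℕ) (hT : ∀ ξ y, T ξ y = ξ (σ y))
    (hn : ∀ ξ, ‖T ξ‖ = ‖ξ‖) (hℓ : ∀ y, ℓ y ≤ m + ℓ (σ y)) :
    ∃ (T' : VV ℓ a₀ →ₗ[ℂ] VV ℓ a₀) (c : ℝ), (∀ ξ, (T' ξ : H Λ) = T ξ) ∧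
      ∀ a, 0 ≤ a → a < a₀ → ∀ ξ, NN ℓ a₀ a (T' ξ) ≤ c * NN ℓ a₀ a ξ := by
  have key : ∀ a (ha : 0 ≤ a) (hb : a < a₀) (ξ : VV ℓ a₀) y,
      ‖wt ℓ a (T ξ) y‖ ≤ Real.exp (a₀ * m) * ‖T (WW ℓ ha hb ξ) y‖ := by
    intro a ha hb ξ y
    rw [norm_wt, hT, hT, WW_coef, norm_wt, ← mul_assoc, ← Real.exp_add]
    refine mul_le_mul_of_nonneg_right (Real.exp_le_exp.2 ?_) (norm_nonneg _)
    have h1 : (ℓ y : ℝ) ≤ m + ℓ (σ y) := by exact_mod_cast hℓ y
    have h2 := mul_le_mul_of_nonneg_left h1 ha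
    have h3 : a * m ≤ a₀ * m := mul_le_mul_of_nonneg_right hb.le (Nat.cast_nonneg _)
    linarith
  have hm : ∀ ξ : VV ℓ a₀, T ξ ∈ VV ℓ a₀ := fun ξ a ha hb =>
    (lp.memℓp ((Real.exp (a₀ * m) : ℂ) • T (WW ℓ ha hb ξ))).mono' fun y => by
      rw [lp.coeFn_smul, Pi.smul_apply, norm_smul, Complex.norm_real,
        Real.norm_of_nonneg (Real.exp_pos _).le]
      exact key a ha hb ξ y
  refine ⟨((T : H Λ →ₗ[ℂ] H Λ).domRestrict _).codRestrict _ hm, Real.exp (a₀ * m),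
    fun _ => rfl, fun a ha hb ξ => ?_⟩
  rw [NN_eq ha hb, NN_eq ha hb, ← hn (WW ℓ ha hb ξ)]
  exact vec_le (Real.exp_pos _).le fun y => key a ha hb ξ y

lemma lose {δ : ℝ} (hδ : 0 < δ) (hb : δ ≤ a₀) (n : ℕ) :
    (1 + (n : ℝ)) ≤ Real.exp a₀ / δ * Real.exp (δ * n) := by
  rw [div_mul_eq_mul_div, le_div_iff₀ hδ, ← Real.exp_add]
  have h1 := Real.add_one_le_exp (a₀ + δ * n)
  linarith

lemma fin_bound {k : Λ → Λ → ℂ} {C b : ℝ} (h : FB ℓ k a₀ C) (h0 : 0 ≤ b) (hb : b ≤ a₀)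
    (F : Finset Λ) (ξ : Λ → ℂ) :
    ∑ y ∈ F, (1 + (ℓ y : ℝ))⁻¹ * ‖wt ℓ b (fun y => ∑ x ∈ F, k x y * ξ x) y‖ ^ 2 ≤
      C ^ 2 * ∑ x ∈ F, (1 + (ℓ x : ℝ)) * ‖wt ℓ b ξ x‖ ^ 2 := by
  set u := wt ℓ b (fun y => ∑ x ∈ F, k x y * ξ x) with hu
  set S := ∑ y ∈ F, (1 + (ℓ y : ℝ))⁻¹ * ‖u y‖ ^ 2 with hS
  set R := ∑ x ∈ F, (1 + (ℓ x : ℝ)) * ‖wt ℓ b ξ x‖ ^ 2 with hR
  have hp : ∀ y, (0 : ℝ) < 1 + ℓ y := fun y => by positivity
  have hS0 : 0 ≤ S := Finset.sum_nonneg fun y _ => by have := hp y; positivity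
  have hR0 : 0 ≤ R := Finset.sum_nonneg fun y _ => by have := hp y; positivity
  have h1 := h b h0 hb F (wt ℓ b ξ) (fun y => (((1 + (ℓ y : ℝ))⁻¹ : ℝ) : ℂ) * u y)
  have e1 : ∑ x ∈ F, ∑ y ∈ F, conj ((((1 + (ℓ y : ℝ))⁻¹ : ℝ) : ℂ) * u y) *
      (Real.exp (b * ((ℓ y : ℝ) - ℓ x)) : ℂ) * k x y * wt ℓ b ξ x = (S : ℂ) := by
    rw [Finset.sum_comm, hS, Complex.ofReal_sum]
    refine Finset.sum_congr rfl fun y _ => ?_
    have e2 : ∀ x, conj ((((1 + (ℓ y : ℝ))⁻¹ : ℝ) : ℂ) * u y) *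
        (Real.exp (b * ((ℓ y : ℝ) - ℓ x)) : ℂ) * k x y * wt ℓ b ξ x =
        conj ((((1 + (ℓ y : ℝ))⁻¹ : ℝ) : ℂ) * u y) *
          ((Real.exp (b * ℓ y) : ℂ) * (k x y * ξ x)) := fun x => by
      have e3 : (Real.exp (b * ℓ y) : ℂ) =
          (Real.exp (b * ((ℓ y : ℝ) - ℓ x)) : ℂ) * (Real.exp (b * ℓ x) : ℂ) := by
        rw [← Complex.ofReal_mul, ← Real.exp_add]; congr 2; ring
      rw [e3, wt]; ring
    rw [Finset.sum_congr rfl fun x _ => e2 x, ← Finset.mul_sum, ← Finset.mul_sum]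
    have e4 : (Real.exp (b * ℓ y) : ℂ) * ∑ x ∈ F, k x y * ξ x = u y := rfl
    rw [e4, map_mul, Complex.conj_ofReal, mul_assoc, Complex.conj_mul', Complex.ofReal_mul,
      Complex.ofReal_pow]
  have e5 : ∑ y ∈ F, (1 + (ℓ y : ℝ)) * ‖(((1 + (ℓ y : ℝ))⁻¹ : ℝ) : ℂ) * u y‖ ^ 2 = S := by
    refine Finset.sum_congr rfl fun y _ => ?_
    rw [norm_mul, Complex.norm_real, Real.norm_of_nonneg (inv_pos.2 (hp y)).le]
    have := (hp y).ne'
    field_simp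
  rw [e1, e5, ← hR, Complex.norm_real, Real.norm_of_nonneg hS0] at h1
  have h2 := pow_le_pow_left₀ hS0 h1 2
  rw [mul_pow, mul_pow, Real.sq_sqrt hR0, Real.sq_sqrt hS0] at h2
  rcases hS0.eq_or_lt with h3 | h3
  · rw [← h3]; positivity
  · rw [sq] at h2
    exact le_of_mul_le_mul_right h2 h3

lemma fin_bound' {k : Λ → Λ → ℂ} {C a' a : ℝ} (h : FB ℓ k a₀ C) (h0 : 0 ≤ a') (h1 : a' < a)
    (hb : a < a₀) (F : Finset Λ) (ξ : Λ → ℂ) :
    ∑ y ∈ F, ‖wt ℓ a' (fun y => ∑ x ∈ F, k x y * ξ x) y‖ ^ 2 ≤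
      (|C| * Real.exp a₀ / (a - a')) ^ 2 * ∑ x ∈ F, ‖wt ℓ a ξ x‖ ^ 2 := by
  have hδ : 0 < a - a' := sub_pos.2 h1
  set K := Real.exp a₀ / (a - a') with hK
  have hK0 : 0 ≤ K := by positivity
  have hl := fun n => lose (a₀ := a₀) hδ (by linarith) n
  have hp : ∀ y, (0 : ℝ) < 1 + ℓ y := fun y => by positivity
  have h2 := fin_bound (b := (a + a') / 2) h (by linarith) (by linarith) F ξ
  set u := fun y => ∑ x ∈ F, k x y * ξ x
  have h3 : ∑ y ∈ F, ‖wt ℓ a' u y‖ ^ 2 ≤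
      K * ∑ y ∈ F, (1 + (ℓ y : ℝ))⁻¹ * ‖wt ℓ ((a + a') / 2) u y‖ ^ 2 := by
    rw [Finset.mul_sum]
    refine Finset.sum_le_sum fun y _ => ?_
    rw [norm_wt, norm_wt, mul_pow, mul_pow, ← mul_assoc, ← mul_assoc]
    refine mul_le_mul_of_nonneg_right ?_ (sq_nonneg _)
    have e : Real.exp ((a + a') / 2 * ℓ y) ^ 2 =
        Real.exp ((a - a') * ℓ y) * Real.exp (a' * ℓ y) ^ 2 := by
      rw [sq, sq, ← Real.exp_add, ← Real.exp_add, ← Real.exp_add]; congr 1; ring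
    rw [e, ← mul_assoc]
    refine le_mul_of_one_le_left (sq_nonneg _) ?_
    rw [mul_right_comm, ← div_eq_mul_inv, one_le_div (hp y)]
    exact hl _
  have h4 : ∑ x ∈ F, (1 + (ℓ x : ℝ)) * ‖wt ℓ ((a + a') / 2) ξ x‖ ^ 2 ≤
      K * ∑ x ∈ F, ‖wt ℓ a ξ x‖ ^ 2 := by
    rw [Finset.mul_sum]
    refine Finset.sum_le_sum fun y _ => ?_
    rw [norm_wt, norm_wt, mul_pow, mul_pow, ← mul_assoc, ← mul_assoc]
    refine mul_le_mul_of_nonneg_right ?_ (sq_nonneg _)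
    have e : Real.exp (a * ℓ y) ^ 2 =
        Real.exp ((a - a') * ℓ y) * Real.exp ((a + a') / 2 * ℓ y) ^ 2 := by
      rw [sq, sq, ← Real.exp_add, ← Real.exp_add, ← Real.exp_add]; congr 1; ring
    rw [e, ← mul_assoc]
    exact mul_le_mul_of_nonneg_right (hl _) (sq_nonneg _)
  have h5 := mul_le_mul_of_nonneg_left h4 (sq_nonneg C)
  have h6 := mul_le_mul_of_nonneg_left (h2.trans h5) hK0
  refine (h3.trans h6).trans (le_of_eq ?_)
  rw [mul_div_assoc, ← hK, mul_pow, sq_abs]; ring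

/-- The coefficients of the image of a vector. -/
def Dc (d : Λ → H Λ) (ξ : H Λ) : Λ → ℂ := fun y => -⟪d y, ξ⟫_ℂ

lemma Dc_sum {d : Λ → H Λ} (hd : ∀ x y, d x y = -conj (d y x)) (ξ : H Λ) (y : Λ) :
    HasSum (fun x => d x y * ξ x) (Dc d ξ y) := by
  have h := ((hasSum_dl ξ).mapL (innerSL ℂ (d y))).neg
  have e : (fun x => d x y * ξ x) = fun x => -(innerSL ℂ (d y)) (ξ x • dl x) := funext fun x => by
    rw [map_smul, innerSL_apply_apply, inner_dl', hd x y, smul_eq_mul, mul_comm, mul_neg]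
  rw [e]
  exact h

lemma Dc_bound {d : Λ → H Λ} {C a' a : ℝ} (hd : ∀ x y, d x y = -conj (d y x))
    (h : FB ℓ (fun x y => d x y) a₀ C) (h0 : 0 ≤ a') (h1 : a' < a) (hb : a < a₀) (ξ : VV ℓ a₀)
    (G : Finset Λ) : ∑ y ∈ G, ‖wt ℓ a' (Dc d ξ) y‖ ^ 2 ≤
      (|C| * Real.exp a₀ / (a - a') * NN ℓ a₀ a ξ) ^ 2 := by
  have ha : 0 ≤ a := h0.trans h1.le
  have ht : Tendsto (fun F : Finset Λ =>
      ∑ y ∈ G, ‖wt ℓ a' (fun y => ∑ x ∈ F, d x y * (ξ : H Λ) x) y‖ ^ 2) atTop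
      (𝓝 (∑ y ∈ G, ‖wt ℓ a' (Dc d ξ) y‖ ^ 2)) :=
    tendsto_finsetSum G fun y _ =>
      ((Tendsto.const_mul _ (Dc_sum hd (ξ : H Λ) y)).norm).pow 2
  refine le_of_tendsto ht ((eventually_ge_atTop G).mono fun F hF => ?_)
  refine (Finset.sum_le_sum_of_subset_of_nonneg hF fun _ _ _ => sq_nonneg _).trans ?_
  refine (fin_bound' h h0 h1 hb F (ξ : H Λ)).trans ?_
  rw [mul_pow, NN_eq ha hb]
  exact mul_le_mul_of_nonneg_left (sum_sq_le (WW ℓ ha hb ξ) F) (sq_nonneg _)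

lemma Dc_mem {d : Λ → H Λ} {C a' : ℝ} (hd : ∀ x y, d x y = -conj (d y x))
    (h : FB ℓ (fun x y => d x y) a₀ C) (h0 : 0 ≤ a') (hb : a' < a₀) (ξ : VV ℓ a₀) :
    Memℓp (wt ℓ a' (Dc d ξ)) 2 :=
  memℓp_gen' (C := (|C| * Real.exp a₀ / ((a' + a₀) / 2 - a') * NN ℓ a₀ ((a' + a₀) / 2) ξ) ^ 2)
    fun G => by
      have := Dc_bound (a := (a' + a₀) / 2) hd h h0 (by linarith) (by linarith) ξ G
      simpa using this

lemma wt_zero (f : Λ → ℂ) : wt ℓ 0 f = f := funext fun x => by rw [wt]; simp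

/-- The operator on the scale. -/
def DD {d : Λ → H Λ} {C : ℝ} (h0 : 0 < a₀) (hd : ∀ x y, d x y = -conj (d y x))
    (h : FB ℓ (fun x y => d x y) a₀ C) : VV ℓ a₀ →ₗ[ℂ] VV ℓ a₀ where
  toFun ξ := ⟨⟨Dc d ξ, by
    have := Dc_mem hd h le_rfl h0 ξ
    rw [wt_zero] at this
    exact this⟩, fun a ha hb => Dc_mem hd h ha hb ξ⟩
  map_add' ξ η := Subtype.ext (lp.ext (funext fun y => by
    show -⟪d y, (ξ : H Λ) + η⟫_ℂ = -⟪d y, (ξ : H Λ)⟫_ℂ + -⟪d y, (η : H Λ)⟫_ℂ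
    rw [inner_add_right, neg_add]))
  map_smul' c ξ := Subtype.ext (lp.ext (funext fun y => by
    show -⟪d y, c • (ξ : H Λ)⟫_ℂ = c * -⟪d y, (ξ : H Λ)⟫_ℂ
    rw [inner_smul_right, mul_neg]))

variable {d : Λ → H Λ} {C : ℝ} (h0 : 0 < a₀) (hd : ∀ x y, d x y = -conj (d y x))
  (h : FB ℓ (fun x y => d x y) a₀ C)

lemma DD_coef (ξ : VV ℓ a₀) (y : Λ) : (DD h0 hd h ξ : H Λ) y = -⟪d y, (ξ : H Λ)⟫_ℂ := rfl

lemma DD_bd {a' a : ℝ} (ha : 0 ≤ a') (h1 : a' < a) (hb : a < a₀) (ξ : VV ℓ a₀) :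
    NN ℓ a₀ a' (DD h0 hd h ξ) ≤ |C| * Real.exp a₀ / (a - a') * NN ℓ a₀ a ξ := by
  have hδ : 0 < a - a' := sub_pos.2 h1
  rw [NN_eq ha (h1.trans hb)]
  refine lp.norm_le_of_forall_sum_le (by norm_num)
    (mul_nonneg (by positivity) (apply_nonneg _ _)) fun G => ?_
  have := Dc_bound hd h ha h1 hb ξ G
  simp only [ENNReal.toReal_ofNat, Real.rpow_ofNat]
  exact this

lemma DD_val (x : Λ) : (DD h0 hd h ⟨dl x, dl_mem x⟩ : H Λ) = d x :=
  lp.ext (funext fun y => by rw [DD_coef, inner_dl', hd x y])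

lemma DD_skew (ξ η : VV ℓ a₀) :
    ⟪(DD h0 hd h ξ : H Λ), (η : H Λ)⟫_ℂ + ⟪(ξ : H Λ), (DD h0 hd h η : H Λ)⟫_ℂ = 0 := by
  let φ : VV ℓ a₀ →ₗ[ℂ] ℂ :=
    (innerSL ℂ (η : H Λ) : H Λ →ₗ[ℂ] ℂ) ∘ₗ (VV ℓ a₀).subtype ∘ₗ DD h0 hd h +
      (innerSL ℂ (DD h0 hd h η : H Λ) : H Λ →ₗ[ℂ] ℂ) ∘ₗ (VV ℓ a₀).subtype
  have hφ : ∀ ζ, φ ζ = ⟪(η : H Λ), (DD h0 hd h ζ : H Λ)⟫_ℂ + ⟪(DD h0 hd h η : H Λ), (ζ : H Λ)⟫_ℂ :=
    fun _ => rfl
  have h1 : ∀ x, φ ⟨dl x, dl_mem x⟩ = 0 := fun x => by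
    rw [hφ, DD_val, inner_dl', DD_coef, map_neg, inner_conj_symm, add_neg_cancel]
  have ha : 0 < a₀ / 2 := half_pos h0
  have hb : a₀ / 2 < a₀ := half_lt_self h0
  set c := ‖(η : H Λ)‖ * (|C| * Real.exp a₀ / (a₀ / 2 - 0)) + ‖(DD h0 hd h η : H Λ)‖ with hc
  have h2 : ∀ ζ, ‖φ ζ‖ ≤ c * NN ℓ a₀ (a₀ / 2) ζ := fun ζ => by
    rw [hφ, hc, add_mul, mul_assoc]
    refine norm_add_le_of_le ((norm_inner_le_norm _ _).trans ?_) ((norm_inner_le_norm _ _).trans ?_)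
    · rw [← NN_zero h0 (DD h0 hd h ζ)]
      exact mul_le_mul_of_nonneg_left (DD_bd h0 hd h le_rfl ha hb ζ) (norm_nonneg _)
    · rw [← NN_zero h0 ζ]
      exact mul_le_mul_of_nonneg_left (NN_mono le_rfl ha.le hb ζ) (norm_nonneg _)
  have h3 := (NN_trunc ha.le hb ξ).const_mul c
  rw [mul_zero] at h3
  have h4 : ‖φ ξ‖ ≤ 0 := ge_of_tendsto' h3 fun F => by
    refine le_trans (le_of_eq ?_) (h2 _)
    rw [map_sub, map_sum, Finset.sum_eq_zero fun x _ => by rw [map_smul, h1, smul_zero], sub_zero]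
  have h5 := congrArg conj (norm_le_zero_iff.1 h4)
  rwa [hφ, map_add, inner_conj_symm, inner_conj_symm, map_zero] at h5

end ScP

open ScP

theorem scale : ScaleStmt := by
  intro Λ _ ℓ d a₀ C h0 hℓ hd h
  refine ⟨|C| * Real.exp a₀, VV ℓ a₀, NN ℓ a₀, DD h0 hd h, by positivity,
    ⟨dl_mem, NN_zero h0, fun _ _ => NN_mono, fun _ => NN_trunc, fun _ _ => DD_bd h0 hd h,
      DD_val h0 hd h, DD_skew h0 hd h, fun g => ?_, fun g => ?_⟩⟩
  · refine shift (lam g) (fun y => g⁻¹ * y) (ℓ g) (lam_coef g) (lam_norm g) fun y => ?_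
    have := hℓ g (g⁻¹ * y)
    rwa [mul_inv_cancel_left] at this
  · refine shift (rho g) (fun y => y * g) (ℓ g⁻¹) (rho_coef g) (rho_norm g) fun y => ?_
    have := hℓ (y * g) g⁻¹
    rwa [mul_inv_cancel_right, add_comm] at this

end

end Pool.Agent.MP_494aff_an.Lf

end MrgPart1

-- marker of a merged file
example : 731051 + 550733 = 731051 + 550733 := rfl

end MrgPart1

-- marker of a merged file
example : 731051 + 550733 = 731051 + 550733 := rfl
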