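import Mathlib
import Pool.Agent.MP_494aff_an.se.Dim
import Pool.Agent.MP_494aff_an.pinch.AttA
import Pool.Agent.MP_494aff_an.pinch.Sim

-- ======== part 0: formerly Pool.Agent.MP_494aff_an.lf.Hx
section MrgPart0

/-! Conjugacy classes and centralisers in an HNN extension over a cyclic group. -/

namespace Pool.Agent.MP_494aff_an.Lf

open Pool.Agent.MP_494aff_an.Pinch Pool.Agent.MP_494aff_an.Pinch.TowP

namespace HxP

section Grp

variable {G A : Type} [Group G] [Group A]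

lemma csa (h : CT G) {x y : G} (hc : y * x * y⁻¹ * x = x * (y * x * y⁻¹)) : y * x = x * y := by
  by_contra hn
  have hi := h.fr y x hn
  have e : cc Unit * io (FreeGroup.of ()) * (cc Unit)⁻¹ * io (FreeGroup.of ()) =
      io (FreeGroup.of ()) * (cc Unit * io (FreeGroup.of ()) * (cc Unit)⁻¹) :=
    hi (by simpa only [map_mul, map_inv, pr_cc, pr_io] using hc)
  have e2 := congrArg (pr (Equiv.swap (1 : Fin 3) 2) (Equiv.swap (0 : Fin 3) 1)) e
  simp only [map_mul, map_inv, pr_cc, pr_io] at e2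
  revert e2
  decide

lemma comm_of_mem {x z : G} (h : x ∈ Subgroup.zpowers z) : x * z = z * x := by
  obtain ⟨k, rfl⟩ := h
  exact (Commute.zpow_self z k).eq

lemma ct_root (h : CT G) {x z r : G} (hz : z ≠ 1) (hr : z ∈ Subgroup.zpowers r)
    (hc : x * z = z * x) : x * r = r * x :=
  h.ct z x r hz hc.symm (comm_of_mem hr)

lemma map_mem (f : A →* G) {a r : A} (h : a ∈ Subgroup.zpowers r) :
    f a ∈ Subgroup.zpowers (f r) := by
  obtain ⟨k, rfl⟩ := h
  exact ⟨k, (map_zpow f r k).symm⟩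

lemma cyc_conj {w : G} (h : Cyc w) (y : G) : Cyc (y * w * y⁻¹) := by
  refine ⟨fun e => h.1 (by simpa [mul_inv_eq_one] using e), fun x hx => ?_⟩
  obtain ⟨k, hk⟩ := h.2 (y⁻¹ * x * y) (by
    calc y⁻¹ * x * y * w = y⁻¹ * (x * (y * w * y⁻¹)) * y := by group
      _ = y⁻¹ * (y * w * y⁻¹ * x) * y := by rw [hx]
      _ = w * (y⁻¹ * x * y) := by group)
  refine ⟨k, ?_⟩
  have hk' : w ^ k = y⁻¹ * x * y := hk
  show (y * w * y⁻¹) ^ k = x
  rw [conj_zpow, hk']
  group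

end Grp

variable {A G : Type} [Group A] [Group G] {c c' : A} {f : A →* G} {t : G}

/-- The edge groups. -/
def KK (c c' : A) (b : Bool) : Subgroup A := Subgroup.zpowers (FG.ee c' c b)

/-- The letters. -/
def LT (t : G) (s e : Bool) : Set G := {l | s = !e ∧ l = FG.tt t e}

lemma ne_one' (h : Hx c c' f t) : c' ≠ 1 := fun e => h.far 1 (by simp [e])

lemma infOrd (h : Hx c c' f t) {a : A} (ha : a ≠ 1) : InfOrd a := fun k hk =>
  h.ct.tf (f a) (fun e => ha (h.hf (e.trans (map_one f).symm))) k (by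
    rw [← map_zpow, hk, map_one])

lemma csaA (h : Hx c c' f t) {x y : A} (hc : y * x * y⁻¹ * x = x * (y * x * y⁻¹)) :
    y * x = x * y := by
  apply h.hf
  rw [map_mul, map_mul]
  apply csa h.ct
  simpa only [map_mul, map_inv] using congrArg f hc

lemma rd {s e : Bool} {n : ℕ} {g : G} (hg : Wd f (KK c c') (LT t) s e n g) :
    FG.Rd c' c f t (!s) g := by
  induction hg with
  | one s e l hl =>
    obtain ⟨rfl, rfl⟩ := hl
    have := FG.Rd.one (a := c') (c := c) (F := f) (t := t) e 1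
    rw [map_one, mul_one] at this
    rwa [Bool.not_not]
  | cons s e s' e' l a n g hl hj _ ih =>
    obtain ⟨rfl, rfl⟩ := hl
    rw [Bool.not_not]
    exact FG.Rd.cons e a (!s') g ih fun hb hm => hj ⟨(Bool.not_inj hb).symm, hm⟩

lemma split (h : Hx c c' f t) : Split f (KK c c') (LT t) where
  inj := h.hf
  inv := by
    rintro s e l ⟨rfl, rfl⟩
    exact ⟨(Bool.not_not e).symm, (FG.tt_not t e).symm⟩
  shift := by
    rintro s l a ⟨hs, -⟩ -
    cases s <;> simp at hs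
  red := by
    rintro s e e' l l' a ⟨rfl, rfl⟩ ⟨rfl, rfl⟩ ⟨k, rfl⟩
    refine Or.inl ⟨FG.ee c' c (!!e') ^ k, ?_⟩
    rw [← h.hn.conj_zpow (!e') k, FG.tt_not, inv_inv]
  gen := fun T hT hL => h.hn.gen T hT (hL false true t ⟨rfl, rfl⟩)
  nf := fun s e n g hg =>
    (FG.britton h.hn (infOrd h (ne_one' h)) (infOrd h h.cyc.1)).2 _ g (rd hg)

/-- A reduced word conjugates an element of the base into the base only from an edge group. -/
lemma junction (hC : ClsStmt) (h : Hx c c' f t) {s e : Bool} {n : ℕ} {g : G}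
    (hg : Wd f (KK c c') (LT t) s e n g) {b : A} (hb : g⁻¹ * f b * g ∈ f.range) :
    b ∈ KK c c' s := by
  by_contra hn
  obtain ⟨-, h2, h3, -⟩ := hC A G f _ _ (split h)
  exact (split h).nf _ _ _ _ (h3 _ _ _ _ _ _ _ _ b (h2 _ _ _ _ hg) hg fun hh => hn hh.2) hb

lemma conj_in {x g : G} {a a' r : A} (hx : x = f a * g * f a') (hc : x * f r = f r * x) :
    g⁻¹ * f (a⁻¹ * r * a) * g = f (a' * r * a'⁻¹) := by
  subst hx
  simp only [map_mul, map_inv]
  calc g⁻¹ * ((f a)⁻¹ * f r * f a) * g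
      = g⁻¹ * (f a)⁻¹ * (f r * (f a * g * f a')) * (f a')⁻¹ := by group
    _ = g⁻¹ * (f a)⁻¹ * (f a * g * f a' * f r) * (f a')⁻¹ := by rw [hc]
    _ = _ := by group

/-- The centraliser of the edge generator lies in the base. -/
lemma o5 (hC : ClsStmt) (h : Hx c c' f t) {x : G} (hx : x * f c' = f c' * x) : x ∈ f.range := by
  by_contra hn
  obtain ⟨a, a', s, e, n, g, hg, hxe⟩ := (hC A G f _ _ (split h)).1 x hn
  have e1 := conj_in hxe hx
  have j1 := junction hC h hg ⟨_, e1.symm⟩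
  cases s with
  | true => exact h.far a⁻¹ (by rw [inv_inv]; exact comm_of_mem j1)
  | false =>
    have c1 : a⁻¹ * c' = c' * a⁻¹ := csaA h (by rw [inv_inv]; exact comm_of_mem j1)
    have c2 : a⁻¹ * c' * a = c' := by rw [c1]; group
    rw [c2] at e1
    have ht : t⁻¹ * f c' * t = f c := by rw [h.hn.comm]; group
    cases hg with
    | one _ _ _ hl =>
      obtain ⟨he, rfl⟩ := hl
      have : e = true := Bool.not_inj he.symm
      subst this
      have e2 : f c = f (a' * c' * a'⁻¹) := ht.symm.trans e1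
      exact h.far a' (by rw [← h.hf e2])
    | cons _ e0 s' _ l a1 m g' hl hj hg' =>
      obtain ⟨he, rfl⟩ := hl
      have : e0 = true := Bool.not_inj he.symm
      subst this
      have e2 : g'⁻¹ * f (a1⁻¹ * c * a1) * g' = f (a' * c' * a'⁻¹) := by
        rw [← e1, map_mul, map_mul, map_inv, ← ht]
        show _ = (t * f a1 * g')⁻¹ * f c' * (t * f a1 * g')
        group
      have j2 := junction hC h hg' ⟨_, e2.symm⟩
      cases s' with
      | true =>
        have c3 : a1⁻¹ * c = c * a1⁻¹ := csaA h (by rw [inv_inv]; exact comm_of_mem j2)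
        exact hj ⟨rfl, inv_mem_iff.1 (h.cyc.2 _ c3)⟩
      | false =>
        have c3 : a1⁻¹ * c * a1 * c' = c' * (a1⁻¹ * c * a1) := comm_of_mem j2
        refine h.far a1 ?_
        calc a1 * c' * a1⁻¹ * c = a1 * (c' * (a1⁻¹ * c * a1)) * a1⁻¹ := by group
          _ = a1 * (a1⁻¹ * c * a1 * c') * a1⁻¹ := by rw [c3]
          _ = _ := by group

lemma edge (hC : ClsStmt) (h : Hx c c' f t) (s : Bool) (b : A) (hb : b ∈ KK c c' s) (h1 : b ≠ 1) :
    ∃ y, ∀ x, x * f b = f b * x →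
      y * x * y⁻¹ ∈ f.range ∨ ∃ s e, y * x * y⁻¹ ∈ LT t s e := by
  have h2 : f b ≠ 1 := fun e => h1 (h.hf (e.trans (map_one f).symm))
  cases s with
  | false =>
    refine ⟨1, fun x hx => Or.inl ?_⟩
    rw [one_mul, inv_one, mul_one]
    exact o5 hC h (ct_root h.ct h2 (map_mem f hb) hx)
  | true =>
    refine ⟨t, fun x hx => Or.inl (o5 hC h ?_)⟩
    have h3 : x * f c = f c * x := ct_root h.ct h2 (map_mem f hb) hx
    rw [h.hn.comm]
    calc t * x * t⁻¹ * (t * f c * t⁻¹) = t * (x * f c) * t⁻¹ := by group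
      _ = t * (f c * x) * t⁻¹ := by rw [h3]
      _ = _ := by group

lemma cyc_map (hC : ClsStmt) (h : Hx c c' f t) {w : A} (hw : Cyc w)
    (hm : c' ∈ Subgroup.zpowers w) : Cyc (f w) := by
  refine ⟨fun e => hw.1 (h.hf (e.trans (map_one f).symm)), fun x hx => ?_⟩
  obtain ⟨k, hk⟩ := map_mem f hm
  have hk' : f w ^ k = f c' := hk
  obtain ⟨b, rfl⟩ := o5 hC h (x := x) (by
    rw [← hk']; exact ((show Commute x (f w) from hx).zpow_right k).eq)
  exact map_mem f (hw.2 b (h.hf (by rw [map_mul, map_mul, hx])))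

end HxP

open HxP in
theorem hx (hC : ClsStmt) (hH : HypStmt) : HxStmt := by
  intro A G _ _ c c' f t h
  refine ⟨fun z => ?_, fun a ha => ?_⟩
  · obtain ⟨y, h1 | ⟨s, hs, -⟩ | ⟨n, p, l, a, s, e, hp⟩⟩ := (hC A G f _ _ (split h)).2.2.2 z
    · exact ⟨y, Or.inl h1⟩
    · cases s <;> simp at hs
    · refine ⟨y, Or.inr ⟨hH A G f _ _ _ n p l a s e (split h) h.ct hp (edge hC h), n, p, a, e,
        ?_, fun i => ?_, fun i hi hm => hp.red i ⟨?_, hm⟩⟩⟩
      · have : l = fun i => FG.tt t (e i) := funext fun i => (hp.mem i).2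
        rw [← this]
        exact hp.ax
      · apply Bool.not_inj
        rw [← (hp.mem _).1, ← (hp.mem _).1, hp.ps]
      · rw [(hp.mem (i + 1)).1, hi, Bool.not_not]
  · by_cases h0 : NC a
    · exact Or.inl h0
    right
    have a1 : a ≠ 1 := fun e => ha.1 (by rw [e, map_one])
    obtain ⟨r, hr, har⟩ : ∃ r, Cyc r ∧ a ∈ Subgroup.zpowers r := by
      by_contra hn
      exact h0 ⟨a1, fun w hw hm => hn ⟨w, hw, hm⟩⟩
    obtain ⟨x, hx1, hx2⟩ : ∃ x, x * f r = f r * x ∧ x ∉ Subgroup.zpowers (f r) := by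
      by_contra hn
      refine ha.2 (f r) ⟨fun e => hr.1 (h.hf (e.trans (map_one f).symm)), fun x hx => ?_⟩
        (map_mem f har)
      by_contra hm
      exact hn ⟨x, hx, hm⟩
    have hx3 : x ∉ f.range := by
      rintro ⟨b, rfl⟩
      exact hx2 (map_mem f (hr.2 b (h.hf (by rw [map_mul, map_mul, hx1]))))
    obtain ⟨a0, a', s, e, n, g, hg, hxe⟩ := (hC A G f _ _ (split h)).1 x hx3
    obtain ⟨k, hk⟩ := junction hC h hg ⟨_, (conj_in hxe hx1).symm⟩
    have hk' : FG.ee c' c s ^ k = a0⁻¹ * r * a0 := hk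
    obtain ⟨m, hm⟩ := har
    have hm' : r ^ m = a := hm
    obtain ⟨y, hy⟩ : ∃ y, f r = y * f c' ^ k * y⁻¹ := by
      have e1 : f r = f a0 * f (FG.ee c' c s) ^ k * (f a0)⁻¹ := by
        rw [← map_zpow, hk', map_mul, map_mul, map_inv]; group
      cases s with
      | false => exact ⟨f a0, e1⟩
      | true =>
        refine ⟨f a0 * t⁻¹, ?_⟩
        rw [e1, h.hn.comm, conj_zpow]
        show f a0 * f c ^ k * (f a0)⁻¹ = _
        group
    have hfa : f a = y * f c' ^ (k * m) * y⁻¹ := by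
      rw [← hm', map_zpow, hy, conj_zpow, zpow_mul]
    refine ⟨⟨ne_one' h, fun w hw hcw => ?_⟩, y, k * m, hfa⟩
    refine ha.2 _ (cyc_conj (cyc_map hC h hw hcw) y) ?_
    obtain ⟨j, hj⟩ := map_mem f hcw
    have hj' : f w ^ j = f c' := hj
    refine ⟨j * (k * m), ?_⟩
    show (y * f w * y⁻¹) ^ (j * (k * m)) = f a
    rw [hfa, conj_zpow, zpow_mul, hj']

end Pool.Agent.MP_494aff_an.Lf

end MrgPart0

-- ======== part 1: formerly Pool.Agent.MP_494aff_an.lf.Am
section MrgPart1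

/-! Conjugacy classes and centralisers in an amalgam over a cyclic group. -/

namespace Pool.Agent.MP_494aff_an.Lf

open Pool.Agent.MP_494aff_an.Pinch Pool.Agent.MP_494aff_an.Pinch.TowP

namespace AmP

open HxP (csa comm_of_mem ct_root map_mem cyc_conj conj_in)

variable {A B G : Type} [Group A] [Group B] [Group G] {c : A} {d : B} {f : A →* G} {g : B →* G}

/-- The symmetric part of the hypotheses. -/
structure Sy (c : A) (d : B) (f : A →* G) (g : B →* G) : Prop where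
  pin : Pin c d f g
  hf : Function.Injective f
  hg : Function.Injective g
  ct : CT G

lemma Sy.symm (h : Sy c d f g) : Sy d c g f where
  pin :=
    { comm := h.pin.comm.symm
      lift := fun M _ φ ψ e => by
        obtain ⟨π, h1, h2⟩ := h.pin.lift M ψ φ e.symm
        exact ⟨π, h2, h1⟩
      gen := fun T h1 h2 => h.pin.gen T h2 h1 }
  hf := h.hg
  hg := h.hf
  ct := h.ct

lemma Sy.pow (h : Sy c d f g) (k : ℤ) : f (c ^ k) = g (d ^ k) := by
  rw [map_zpow, map_zpow, h.pin.comm]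

lemma Sy.edge (h : Sy c d f g) {a : A} (ha : a ∈ Subgroup.zpowers c) : f a ∈ g.range := by
  obtain ⟨k, rfl⟩ := ha
  exact ⟨d ^ k, (h.pow k).symm⟩

lemma Sy.csaA (h : Sy c d f g) {x y : A} (hc : y * x * y⁻¹ ∈ Subgroup.zpowers x) :
    y * x = x * y := by
  apply h.hf
  rw [map_mul, map_mul]
  apply csa h.ct
  simpa only [map_mul, map_inv] using congrArg f (comm_of_mem hc)

/-- The edge group. -/
def KK (c : A) (_ : Bool) : Subgroup A := Subgroup.zpowers c

/-- The letters. -/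
def LT (d : B) (g : B →* G) (s e : Bool) : Set G :=
  {l | s = true ∧ e = true ∧ ∃ b, b ∉ Subgroup.zpowers d ∧ l = g b}

lemma wd_true {s e : Bool} {n : ℕ} {x : G} (hx : Wd f (KK c) (LT d g) s e n x) :
    s = true ∧ e = true := by
  induction hx with
  | one s e l hl => exact ⟨hl.1, hl.2.1⟩
  | cons s e s' e' l a n x hl _ _ ih => exact ⟨hl.1, ih.2⟩

lemma Sy.nf (h : Sy c d f g) {s e : Bool} {n : ℕ} {x : G} (hx : Wd f (KK c) (LT d g) s e n x) :
    x ∉ f.range := by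
  let i := (Subgroup.zpowers c).subtype
  let j : Subgroup.zpowers c →* B := (MonoidHom.ofInjective h.hg).symm.toMonoidHom.comp
    ((f.comp i).codRestrict g.range fun x => h.edge x.2)
  have hj : ∀ x, f (i x) = g (j x) := fun x =>
    (MonoidHom.apply_ofInjective_symm h.hg ⟨f (i x), h.edge x.2⟩).symm
  have hi : Function.Injective i := Subtype.val_injective
  have hj' : Function.Injective j := fun x y e => hi (h.hf (by rw [hj, hj, e]))
  have hc : j ⟨c, Subgroup.mem_zpowers c⟩ = d := h.hg ((hj _).symm.trans h.pin.comm)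
  have hA : Amal i j f g :=
    ⟨hj, fun M _ φ ψ e => h.pin.lift M φ ψ (by rw [← hc]; exact e ⟨c, Subgroup.mem_zpowers c⟩),
      h.pin.gen⟩
  have ri : ∀ a, a ∉ Subgroup.zpowers c → a ∉ i.range := by
    rintro a ha ⟨y, rfl⟩
    exact ha y.2
  have rj : ∀ b, b ∉ Subgroup.zpowers d → b ∉ j.range := by
    rintro b hb ⟨⟨_, k, rfl⟩, rfl⟩
    exact hb ⟨k, h.hg ((h.pow k).symm.trans (hj ⟨c ^ k, k, rfl⟩))⟩
  have ht : Gl.Typ i j f g (some false) x := by
    induction hx with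
    | one s e l hl =>
      obtain ⟨-, -, b, hb, rfl⟩ := hl
      have := Gl.Typ.right (f := f) (g := g) b _ none (rj b hb) (Gl.Typ.base (i := i) 1) (by simp)
      rwa [map_one, map_one, mul_one] at this
    | cons s e s' e' l a n x hl ha hx ih =>
      obtain ⟨-, he, b, hb, rfl⟩ := hl
      rw [mul_assoc]
      exact Gl.Typ.right b _ _ (rj b hb) (Gl.Typ.left a x _
        (ri a fun hm => ha ⟨he.trans (wd_true hx).1.symm, hm⟩) ih (by simp)) (by simp)
  rintro ⟨a, rfl⟩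
  have e : f a⁻¹ * f a = 1 := by rw [map_inv, inv_mul_cancel]
  by_cases ha : a⁻¹ ∈ i.range
  · obtain ⟨y, hy⟩ := ha
    exact (Gl.nf hA hi hj').2 _ _ (ht.base_mul hj y) (by rw [hy, e])
  · exact (Gl.nf hA hi hj').2 _ _ (Gl.Typ.left _ _ _ ha ht (by simp)) e

lemma Sy.inter (h : Sy c d f g) {b : B} (hb : g b ∈ f.range) : b ∈ Subgroup.zpowers d := by
  by_contra hn
  exact h.nf (Wd.one true true _ ⟨rfl, rfl, b, hn, rfl⟩) hb

lemma Sy.letter (h : Sy c d f g) (b : B) : g b ∈ f.range ∨ g b ∈ LT d g true true := by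
  by_cases hb : b ∈ Subgroup.zpowers d
  · exact Or.inl (h.symm.edge hb)
  · exact Or.inr ⟨rfl, rfl, b, hb, rfl⟩

lemma Sy.split (h : Sy c d f g) : Split f (KK c) (LT d g) where
  inj := h.hf
  inv := by
    rintro s e l ⟨hs, he, b, hb, rfl⟩
    exact ⟨he, hs, b⁻¹, fun hm => hb (inv_mem_iff.1 hm), (map_inv g b).symm⟩
  shift := by
    rintro s l a ⟨hs, -, b, hb, rfl⟩ ⟨k, rfl⟩
    refine ⟨hs, hs, b * d ^ k, fun hm => hb ?_, by rw [map_mul, ← h.pow]⟩
    exact (Subgroup.mul_mem_cancel_right _ (Subgroup.zpow_mem_zpowers d k)).1 hm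
  red := by
    rintro s e e' l l' a ⟨rfl, -, b, -, rfl⟩ ⟨-, rfl, b', -, rfl⟩ ⟨k, rfl⟩
    have := h.letter (b * d ^ k * b')
    rwa [map_mul, map_mul, ← h.pow] at this
  gen := fun T hT hL => h.pin.gen T hT fun b => by
    rcases h.letter b with ⟨a, e⟩ | hl
    · exact e ▸ hT a
    · exact hL _ _ _ hl
  nf := fun _ _ _ _ hx => h.nf hx

/-- A reduced word conjugates an element of the base into the base only from the edge group. -/
lemma Sy.junction (hC : ClsStmt) (h : Sy c d f g) {s e : Bool} {n : ℕ} {x : G}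
    (hx : Wd f (KK c) (LT d g) s e n x) {a : A} (ha : x⁻¹ * f a * x ∈ f.range) :
    a ∈ Subgroup.zpowers c := by
  by_contra hn
  obtain ⟨-, h2, h3, -⟩ := hC A G f _ _ h.split
  exact h.nf (h3 _ _ _ _ _ _ _ _ a (h2 _ _ _ _ hx) hx fun hh => hn hh.2) ha

/-- The centraliser of the edge generator lies in the second factor. -/
lemma Sy.o5 (hC : ClsStmt) (h : Sy c d f g) (hc : Cyc c) {x : G} (hx : x * f c = f c * x) :
    x ∈ g.range := by
  by_cases hn : x ∈ f.range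
  · obtain ⟨a, rfl⟩ := hn
    exact h.edge (hc.2 a (h.hf (by rw [map_mul, map_mul, hx])))
  obtain ⟨h1, h2, h3, -⟩ := hC A G f _ _ h.split
  obtain ⟨a, a', s, e, n, y, hy, hxe⟩ := h1 x hn
  have e1 := conj_in hxe hx
  have c1 : a⁻¹ * c = c * a⁻¹ := h.csaA (by rw [inv_inv]; exact h.junction hC hy ⟨_, e1.symm⟩)
  have c2 : a⁻¹ * c * a = c := by rw [c1]; group
  rw [c2] at e1
  cases hy with
  | one _ _ _ hl =>
    obtain ⟨-, -, b, -, rfl⟩ := hl
    have c3 : a' * c * a'⁻¹ ∈ Subgroup.zpowers c := h.symm.inter ⟨b⁻¹ * d * b, by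
      rw [← e1, map_mul, map_mul, map_inv, h.pin.comm]⟩
    rw [hxe]
    exact mul_mem (mul_mem (h.edge (inv_mem_iff.1 (hc.2 _ c1))) ⟨b, rfl⟩)
      (h.edge (hc.2 _ (h.csaA c3)))
  | cons _ e0 s' _ l a1 m y' hl hj hy' =>
    exfalso
    obtain ⟨-, he, b, -, rfl⟩ := hl
    have hs := (wd_true hy').1
    have ha1 : a1 ∉ Subgroup.zpowers c := fun hm => hj ⟨he.trans hs.symm, hm⟩
    have e2 : y'⁻¹ * f a1⁻¹ * (g (b⁻¹ * d * b) * f a1 * y') = f (a' * c * a'⁻¹) := by
      rw [← e1, map_mul, map_mul, map_inv, map_inv, h.pin.comm]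
      group
    by_cases hb : b⁻¹ * d * b ∈ Subgroup.zpowers d
    · have c3 : b⁻¹ * d = d * b⁻¹ := h.symm.csaA (by rwa [inv_inv])
      have c4 : b⁻¹ * d * b = d := by rw [c3]; group
      rw [c4, ← h.pin.comm] at e2
      have c5 := h.junction hC hy' (a := a1⁻¹ * c * a1) ⟨_, by
        rw [← e2, map_mul, map_mul]; group⟩
      exact ha1 (inv_mem_iff.1 (hc.2 _ (h.csaA (by rwa [inv_inv]))))
    · exact h.nf (h3 _ _ _ _ _ _ _ _ a1⁻¹ (h2 _ _ _ _ hy')
        (Wd.cons true true s' _ _ a1 m y' ⟨rfl, rfl, _, hb, rfl⟩ (fun hh => ha1 hh.2) hy')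
        fun hh => ha1 (inv_mem_iff.1 hh.2)) ⟨_, e2.symm⟩

lemma sy (h : Am c d f g) : Sy c d f g := ⟨h.pin, h.hf, h.hg, h.ct⟩

lemma cyc_of (h : Am c d f g) {a : A} (ha : a ∈ Subgroup.zpowers c) (h1 : a ≠ 1) : Cyc c := by
  rcases h.edge with ⟨rfl, -⟩ | ⟨hc, -⟩
  · exact (h1 (by simpa using ha)).elim
  · exact hc

lemma root {z : A} (h1 : z ≠ 1) (h2 : ¬ NC z) : ∃ r, Cyc r ∧ z ∈ Subgroup.zpowers r := by
  by_contra h
  exact h2 ⟨h1, fun w hw hz => h ⟨w, hw, hz⟩⟩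

/-- If the image of `r` has a larger centraliser, then `r` is conjugate into the edge group. -/
lemma Sy.out (hC : ClsStmt) (h : Sy c d f g) {r : A} (hr : Cyc r) (hn : ¬ Cyc (f r)) :
    ∃ x a₀, x * f r = f r * x ∧ x ∉ f.range ∧ a₀⁻¹ * r * a₀ ∈ Subgroup.zpowers c := by
  obtain ⟨x, hx1, hx2⟩ : ∃ x, x * f r = f r * x ∧ x ∉ Subgroup.zpowers (f r) := by
    by_contra hm
    refine hn ⟨fun e => hr.1 (h.hf (e.trans (map_one f).symm)), fun x hx => ?_⟩
    by_contra hm'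
    exact hm ⟨x, hx, hm'⟩
  have hx3 : x ∉ f.range := by
    rintro ⟨b, rfl⟩
    exact hx2 (map_mem f (hr.2 b (h.hf (by rw [map_mul, map_mul, hx1]))))
  obtain ⟨a0, a', s, e, n, y, hy, hxe⟩ := (hC A G f _ _ h.split).1 x hx3
  exact ⟨x, a0, hx1, hx3, h.junction hC hy ⟨_, (conj_in hxe hx1).symm⟩⟩

lemma conj_ne {r a : A} (hr : r ≠ 1) : a⁻¹ * r * a ≠ 1 := fun e => hr (by
  calc r = a * (a⁻¹ * r * a) * a⁻¹ := by group
    _ = 1 := by rw [e]; group)

lemma cyc_map (hC : ClsStmt) (h : Am c d f g) {r : B} (hr : Cyc r) : Cyc (g r) := by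
  by_contra hn
  obtain ⟨x, b, hx1, hx2, hb⟩ := (sy h).symm.out hC hr hn
  have h1 : g (b⁻¹ * r * b) ≠ 1 := fun e => conj_ne hr.1 (h.hg (e.trans (map_one g).symm))
  have hc : Cyc c := by
    rcases h.edge with ⟨-, rfl⟩ | ⟨hc, -⟩
    · exact (conj_ne hr.1 (by simpa using hb)).elim
    · exact hc
  have h2 : (g b)⁻¹ * x * g b ∈ g.range := by
    refine (sy h).o5 hC hc ?_
    rw [h.pin.comm]
    refine ct_root h.ct h1 (map_mem g hb) ?_
    simp only [map_mul, map_inv]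
    calc (g b)⁻¹ * x * g b * ((g b)⁻¹ * g r * g b) = (g b)⁻¹ * (x * g r) * g b := by group
      _ = (g b)⁻¹ * (g r * x) * g b := by rw [hx1]
      _ = _ := by group
  refine hx2 ?_
  have e : x = g b * ((g b)⁻¹ * x * g b) * (g b)⁻¹ := by group
  rw [e]
  exact mul_mem (mul_mem ⟨b, rfl⟩ h2) (inv_mem ⟨b, rfl⟩)

end AmP

open AmP in
theorem am (hC : ClsStmt) (hH : HypStmt) : AmStmt := by
  intro A B G _ _ _ c d f g h
  have hs := sy h
  refine ⟨fun z => ?_, fun a ha => ?_, fun b hb => ?_⟩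
  · obtain ⟨y, h1 | ⟨s, -, -, b, -, e⟩ | ⟨n, p, l, a, s, e, hp⟩⟩ :=
      (hC A G f _ _ hs.split).2.2.2 z
    · exact ⟨y, Or.inl h1⟩
    · exact ⟨y, Or.inr (Or.inl ⟨b, e.symm⟩)⟩
    · refine ⟨y, Or.inr (Or.inr ⟨hH A G f _ _ _ n p l a s e hs.split h.ct hp ?_, n, p, l, a,
        hp.ax, fun i => ?_, fun i hm => hp.red i ⟨?_, hm⟩⟩)⟩
      · refine fun _ b hb h1 => ⟨1, fun x hx => ?_⟩
        rw [one_mul, inv_one, mul_one]
        obtain ⟨b', rfl⟩ := hs.o5 hC (cyc_of h hb h1) (HxP.ct_root h.ct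
          (fun e => h1 (h.hf (e.trans (map_one f).symm))) (HxP.map_mem f hb) hx)
        exact (hs.letter b').imp id fun hl => ⟨_, _, hl⟩
      · obtain ⟨-, -, b, -, e⟩ := hp.mem i
        exact ⟨b, e.symm⟩
      · exact (hp.mem i).2.1.trans (hp.mem (i + 1)).1.symm
  · by_cases h0 : NC a
    · exact Or.inl h0
    right
    obtain ⟨r, hr, har⟩ := root (fun e => ha.1 (by rw [e, map_one])) h0
    obtain ⟨-, a0, -, -, k, hk⟩ := hs.out hC hr fun hc => ha.2 _ hc (HxP.map_mem f har)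
    have hk' : c ^ k = a0⁻¹ * r * a0 := hk
    obtain ⟨m, hm⟩ := har
    have hm' : r ^ m = a := hm
    have e : a = a0 * c ^ (k * m) * a0⁻¹ := by
      rw [← hm', zpow_mul, hk', ← conj_zpow]
      congr 1
      group
    refine ⟨⟨fun hd => ha.1 ?_, fun w hw hdw => ?_⟩, a0, k * m, e⟩
    · rw [e, map_mul, map_mul, hs.pow, hd, one_zpow, map_one, mul_one, map_inv, mul_inv_cancel]
    · refine ha.2 _ (HxP.cyc_conj (cyc_map hC h hw) (f a0)) ?_
      obtain ⟨j, hj⟩ := hdw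
      have hj' : w ^ j = d := hj
      refine ⟨j * (k * m), ?_⟩
      show (f a0 * g w * (f a0)⁻¹) ^ (j * (k * m)) = f a
      rw [e, conj_zpow, zpow_mul, ← map_zpow, hj', map_mul, map_mul, hs.pow, map_zpow, map_inv]
  · exact ⟨fun e => hb.1 (by rw [e, map_one]), fun w hw hm =>
      hb.2 _ (cyc_map hC h hw) (HxP.map_mem g hm)⟩

end Pool.Agent.MP_494aff_an.Lf

end MrgPart1

-- ======== part 2: formerly Pool.Agent.MP_494aff_an.lf.Flow3
section MrgPart2

/-! The flow of a cocycle on the free product with the integers. -/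

open Monoid Filter Topology
open scoped InnerProductSpace ComplexConjugate

namespace Pool.Agent.MP_494aff_an.Lf

open Pool.Agent.MP_494aff_an.Pinch Pool.Agent.MP_494aff_an.Pinch.TowP

noncomputable section

namespace Fl3

section General

variable {Λ : Type}

lemma sum_sq_le (ξ : H Λ) (F : Finset Λ) : ∑ y ∈ F, ‖ξ y‖ ^ 2 ≤ ‖ξ‖ ^ 2 := by
  have := lp.sum_rpow_le_norm_rpow (p := 2) (by norm_num) ξ F
  simpa using this

lemma norm_fin (F : Finset Λ) (ξ : Λ → ℂ) :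
    ‖∑ x ∈ F, ξ x • (dl x : H Λ)‖ = √(∑ x ∈ F, ‖ξ x‖ ^ 2) := by
  have h1 := (orthonormal_dl (G := Λ)).inner_sum ξ ξ F
  rw [inner_self_eq_norm_sq_to_K] at h1
  have h2 : ‖∑ x ∈ F, ξ x • (dl x : H Λ)‖ ^ 2 = ∑ x ∈ F, ‖ξ x‖ ^ 2 := by
    have h3 : ∀ x, conj (ξ x) * ξ x = ((‖ξ x‖ ^ 2 : ℝ) : ℂ) := fun x => by
      rw [Complex.conj_mul']; push_cast; rfl
    simp only [h3] at h1
    refine Complex.ofReal_injective ?_
    rw [Complex.ofReal_sum, ← h1]
    push_cast
    rfl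
  rw [← h2, Real.sqrt_sq (norm_nonneg _)]

lemma form_bd (T : Op Λ) (F : Finset Λ) (ξ η : Λ → ℂ) :
    ‖∑ x ∈ F, ∑ y ∈ F, conj (η y) * T (dl x) y * ξ x‖ ≤
      ‖T‖ * √(∑ x ∈ F, ‖ξ x‖ ^ 2) * √(∑ y ∈ F, ‖η y‖ ^ 2) := by
  have e : ∑ x ∈ F, ∑ y ∈ F, conj (η y) * T (dl x) y * ξ x =
      ⟪∑ y ∈ F, η y • (dl y : H Λ), T (∑ x ∈ F, ξ x • dl x)⟫_ℂ := by
    rw [map_sum, inner_sum]
    refine Finset.sum_congr rfl fun x _ => ?_
    rw [sum_inner]
    refine Finset.sum_congr rfl fun y _ => ?_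
    rw [map_smul, inner_smul_left, inner_smul_right, inner_dl]
    ring
  rw [e, ← norm_fin, ← norm_fin]
  refine (norm_inner_le_norm _ _).trans ?_
  rw [mul_comm]
  exact mul_le_mul_of_nonneg_right (T.le_opNorm _) (norm_nonneg _)

lemma move_le {f f' : ℝ → H Λ} {c : ℝ} (h : ∀ t, HasDerivAt f (f' t) t) (hc : ∀ t, ‖f' t‖ ≤ c) :
    ‖f 1 - f 0‖ ≤ c :=
  norm_image_sub_le_of_norm_deriv_le_segment_01' (fun t _ => (h t).hasDerivWithinAt)
    fun t _ => hc t

lemma fix_supp {T : Op Λ} {X : Set Λ} (h : ∀ x ∈ X, T (dl x) = dl x) {ξ : H Λ} (hξ : Supp X ξ) :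
    T ξ = ξ := by
  have h1 : Supp (∅ : Set Λ) ((T - 1 : Op Λ) ξ) :=
    supp_map (T - 1 : Op Λ) (fun x hx => by
      rw [sub_apply, h x hx, one_ap, sub_self]
      exact supp_zero _) hξ
  have h2 : (T - 1 : Op Λ) ξ = 0 := by
    ext y
    exact h1 y (Set.notMem_empty y)
  rw [sub_apply, one_ap, sub_eq_zero] at h2
  exact h2

lemma exp_inv (A : Op Λ) : NormedSpace.exp A * NormedSpace.exp (-A) = 1 := by
  have := NormedSpace.exp_add_of_commute_of_mem_ball (𝕂 := ℂ) (Commute.refl A).neg_right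
    ((NormedSpace.expSeries_radius_eq_top ℂ (Op Λ)).symm ▸ edist_lt_top _ _)
    ((NormedSpace.expSeries_radius_eq_top ℂ (Op Λ)).symm ▸ edist_lt_top _ _)
  rw [add_neg_cancel, NormedSpace.exp_zero] at this
  exact this.symm

lemma exp_norm {h : Op Λ} (hs : IsSelfAdjoint h) (t : ℝ) (ξ : H Λ) :
    ‖NormedSpace.exp (t • -(Complex.I • h)) ξ‖ = ‖ξ‖ := by
  refine norm_of_star_mul_self ?_ ξ
  have e : star (t • -(Complex.I • h)) = -(t • -(Complex.I • h)) := by
    have e1 : t • -(Complex.I • h) = (-(t * Complex.I) : ℂ) • h := by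
      ext1 η
      simp [mul_smul]
      rfl
    rw [e1, star_smul, hs.star_eq, ← neg_smul]
    simp
  have := exp_inv (-(t • -(Complex.I • h)))
  rw [neg_neg] at this
  rw [NormedSpace.star_exp, e, this]

lemma der_exp (A : Op Λ) (t : ℝ) :
    HasDerivAt (fun u : ℝ => NormedSpace.exp (u • A)) (NormedSpace.exp (t • A) * A) t :=
  hasDerivAt_exp_smul_const A t

end General

section Cosets

variable {G : Type} [Group G]

lemma smul_mk (g z : FZ G) : g • (z : Cs G) = ((g * z : FZ G) : Cs G) := rfl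

lemma gen_mk (z : FZ G) (k : ℤ) : ((z * gen G ^ k : FZ G) : Cs G) = (z : Cs G) :=
  QuotientGroup.mk_mul_of_mem z ⟨k, rfl⟩

lemma co_one {A : Type} [AddCommGroup A] {c : FZ G → Cs G → A}
    (hc : ∀ x z q, c (x * z) q = c x q + c z (x⁻¹ • q)) (q : Cs G) : c 1 q = 0 := by
  have := hc 1 1 q
  rw [mul_one, inv_one, one_smul] at this
  simpa using this

lemma co_line {A : Type} [AddCommGroup A] {c : FZ G → Cs G → A}
    (hc : ∀ x z q, c (x * z) q = c x q + c z (x⁻¹ • q)) (z x : FZ G) (k : ℤ) :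
    c (z * gen G ^ k * z⁻¹ * x) (z : Cs G) =
      c (gen G ^ k) ((1 : FZ G) : Cs G) + c x (z : Cs G) := by
  have h1 := hc z z⁻¹ (z : Cs G)
  rw [mul_inv_cancel, co_one hc, smul_mk, inv_mul_cancel] at h1
  have h2 : (z * gen G ^ k)⁻¹ • (z : Cs G) = ((1 : FZ G) : Cs G) := by
    rw [smul_mk, ← gen_mk 1 (-k)]
    congr 1
    group
  have h3 : (z * gen G ^ k * z⁻¹)⁻¹ • (z : Cs G) = (z : Cs G) := by
    rw [smul_mk, ← gen_mk z (-k)]
    congr 1
    group
  rw [hc, hc, hc, h2, h3, smul_mk, inv_mul_cancel, add_right_comm (c z _), ← h1, zero_add]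

lemma co_pow {A : Type} [AddCommGroup A] {c : FZ G → Cs G → A}
    (hc : ∀ x z q, c (x * z) q = c x q + c z (x⁻¹ • q)) (h0 : ∀ q, c (gen G) q = 0) (k : ℤ) :
    ∀ q, c (gen G ^ k) q = 0 := by
  induction k using Int.induction_on with
  | zero => simpa using co_one hc
  | succ n ih => intro q; rw [zpow_add_one, hc, ih, h0, add_zero]
  | pred n ih =>
    intro q
    have h1 := hc (gen G ^ (-(n : ℤ) - 1)) (gen G) q
    rw [← zpow_add_one, sub_add_cancel, ih, h0, add_zero] at h1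
    exact h1.symm

lemma sum_cos (b : Cs G → ℂ) (ξ : H (FZ G))
    (h1 : ∀ x : G, ‖b ((Coprod.inl x : FZ G) : Cs G)‖ = ‖ξ (Coprod.inl x)‖)
    (h2 : ∀ q, (∀ x : G, q ≠ ((Coprod.inl x : FZ G) : Cs G)) → b q = 0) (Z : Finset (Cs G)) :
    ∑ q ∈ Z, ‖b q‖ ^ 2 ≤ ‖ξ‖ ^ 2 := by
  classical
  have h3 : ∀ q : Cs G, ∃ z : FZ G, (z : Cs G) = q ∧ ‖b q‖ ≤ ‖ξ z‖ := fun q => by
    by_cases hq : ∃ x : G, q = ((Coprod.inl x : FZ G) : Cs G)
    · obtain ⟨x, rfl⟩ := hq
      exact ⟨_, rfl, (h1 x).le⟩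
    · refine ⟨q.out, QuotientGroup.out_eq' q, ?_⟩
      rw [h2 q fun x hx => hq ⟨x, hx⟩, norm_zero]
      exact norm_nonneg _
  choose c hc hb using h3
  have hi : Function.Injective c := fun q q' e => by rw [← hc q, e, hc]
  calc ∑ q ∈ Z, ‖b q‖ ^ 2 ≤ ∑ q ∈ Z, ‖ξ (c q)‖ ^ 2 :=
        Finset.sum_le_sum fun q _ => pow_le_pow_left₀ (norm_nonneg _) (hb q) 2
    _ = ∑ z ∈ Z.image c, ‖ξ z‖ ^ 2 := by rw [Finset.sum_image fun q _ q' _ e => hi e]
    _ ≤ _ := sum_sq_le ξ _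

variable {S : Finset G} {ℓ : FZ G → ℕ} {φ : FZ G → Cs G → ℤ} {L : FZ G → Cs G → ℕ}

lemma infOrd (hW : WL S ℓ φ L) : InfOrd (gen G) := fun k hk => by
  have := hW.φ_gen k
  rw [hk, co_one hW.φ_mul] at this
  exact this.symm

lemma base_eq (hW : WL S ℓ φ L) {x : G}
    (h : ((Coprod.inl x : FZ G) : Cs G) = ((1 : FZ G) : Cs G)) : (Coprod.inl x : FZ G) = 1 := by
  obtain ⟨k, hk⟩ := QuotientGroup.eq.1 h.symm
  simp only [inv_one, one_mul] at hk
  have h1 := hW.φ_gen k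
  rw [hk, hW.φ_inl] at h1
  rw [← hk, ← h1, zpow_zero]

variable {h : Op (FZ G)}

lemma hq_mem (hh : h ∈ LL (FZ G)) (q : Cs G) : hq h q ∈ LL (FZ G) :=
  mul_mem (mul_mem (lam_mem _) hh) (lam_mem _)

lemma hq_norm (q : Cs G) : ‖hq h q‖ ≤ ‖h‖ := by
  refine (hq h q).opNorm_le_bound (norm_nonneg _) fun ξ => ?_
  unfold hq
  rw [mul_ap, mul_ap, lam_norm]
  refine (h.le_opNorm _).trans ?_
  rw [lam_norm]

lemma hq_conj (hs : IsSelfAdjoint h) (q : Cs G) (x y : FZ G) :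
    hq h q (dl x) y = conj (hq h q (dl y) x) := by
  rw [← star_coef']
  unfold hq
  rw [star_mul, star_mul, star_lam, star_lam, inv_inv, hs.star_eq, mul_assoc]

lemma hq_right (hh : h ∈ LL (FZ G)) (q : Cs G) (x z y : FZ G) :
    hq h q (dl x) (y * z⁻¹) = hq h q (dl (x * z)) y := by
  rw [LL_coef (hq_mem hh q), LL_coef (hq_mem hh q) (x * z), mul_inv_rev, mul_assoc]

lemma hq_left (h1 : ∀ z : FZ G, hq h (z : Cs G) = lam z * h * lam z⁻¹) (q : Cs G)
    (x z y : FZ G) : hq h (x⁻¹ • q) (dl z) (x⁻¹ * y) = hq h q (dl (x * z)) y := by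
  obtain ⟨w, rfl⟩ := QuotientGroup.mk_surjective q
  rw [smul_mk, h1, h1]
  simp only [mul_ap, lam_dl, lam_coef]
  group

/-- The two coefficient conditions. -/
def Ch (h : Op (FZ G)) (b : Cs G → ℂ) (x : FZ G) (v : H (FZ G)) : Prop :=
  (∀ q y, hq h q (dl x) y ≠ 0 → v y = b q * hq h q (dl x) y) ∧
    ∀ y, (∀ q, hq h q (dl x) y = 0) → v y = 0

lemma Ch.uniq {b : Cs G → ℂ} {x : FZ G} {v w : H (FZ G)} (hv : Ch h b x v) (hw : Ch h b x w) :
    v = w := by
  ext y
  by_cases hy : ∃ q, hq h q (dl x) y ≠ 0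
  · obtain ⟨q, hy⟩ := hy
    rw [hv.1 q y hy, hw.1 q y hy]
  · push Not at hy
    rw [hv.2 y hy, hw.2 y hy]

end Cosets

section Flow

variable {Λ : Type} [Group Λ]

/-- The conclusions of the kernel step. -/
structure Fw (d : Λ → H Λ) (U : ℝ → Op Λ) : Prop where
  zero : U 0 = 1
  add : ∀ s t, U (s + t) = U s * U t
  st : ∀ t, star (U t) = U (-t)
  mem : ∀ t g, U t * lam g * U (-t) ∈ LL Λ
  der : ∀ x t, HasDerivAt (fun s => U s (dl x)) (U t (d x)) t

variable {d : Λ → H Λ} {U : ℝ → Op Λ}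

lemma Fw.neg_mul (hU : Fw d U) (t : ℝ) : U (-t) * U t = 1 := by
  rw [← hU.add, neg_add_cancel, hU.zero]

lemma Fw.mul_neg (hU : Fw d U) (t : ℝ) : U t * U (-t) = 1 := by
  rw [← hU.add, add_neg_cancel, hU.zero]

lemma Fw.norm (hU : Fw d U) (t : ℝ) (ξ : H Λ) : ‖U t ξ‖ = ‖ξ‖ :=
  norm_of_star_mul_self (by rw [hU.st, hU.neg_mul]) ξ

lemma Fw.conj (hU : Fw d U) (t : ℝ) {m : Op Λ} (hm : m ∈ LL Λ) : U t * m * U (-t) ∈ LL Λ :=
  conj_mem_LL (hU.neg_mul t) (hU.mul_neg t) (hU.mem t) hm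

lemma Fw.fix (hU : Fw d U) {x : Λ} (hx : d x = 0) (t : ℝ) : U t (dl x) = dl x := by
  have h1 : ∀ s, HasDerivAt (fun s => U s (dl x)) 0 s := fun s => by
    have := hU.der x s
    rwa [hx, map_zero] at this
  have h2 := is_const_of_deriv_eq_zero (fun s => (h1 s).differentiableAt)
    (fun s => (h1 s).deriv) t 0
  rw [h2, hU.zero, one_ap]

lemma Fw.uni (hU : Fw d U) (h1 : d 1 = 0) : SimA.Uni (U 1) (U (-1)) where
  vw ξ := by rw [← mul_ap, hU.neg_mul, one_ap]
  wv ξ := by rw [← mul_ap, hU.mul_neg, one_ap]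
  adj ξ η := by rw [← hU.st, inner_star]
  one := hU.fix h1 1
  mem m hm := hU.conj 1 hm
  mem' m hm := by
    have := hU.conj (-1) hm
    rw [neg_neg] at this
    exact this

lemma Fw.comm (hU : Fw d U) (h1 : d 1 = 0) {X : Set Λ} (hX : ∀ x ∈ X, d x = 0) {h : Op Λ}
    (hh : h ∈ LL Λ) (hs : Supp X (h (dl 1))) (t : ℝ) (ξ : H Λ) : h (U t ξ) = U t (h ξ) := by
  have e : U t * h * U (-t) = h := by
    refine LL_ext (hU.conj t hh) hh ?_
    rw [mul_ap, mul_ap, hU.fix h1]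
    exact fix_supp (fun x hx => hU.fix (hX x hx) t) hs
  conv_lhs => rw [← e]
  rw [mul_ap, mul_ap, ← mul_ap (U (-t)), hU.neg_mul, one_ap]

lemma Fw.near (hU : Fw d U) (x : Λ) : ‖U 1 (dl x) - dl x‖ ≤ ‖d x‖ := by
  have := move_le (hU.der x) fun t => (hU.norm t (d x)).le
  rwa [hU.zero, one_ap] at this

lemma Fw.near' (hU : Fw d U) {h : Op Λ} (hs : IsSelfAdjoint h)
    (hc : ∀ t ξ, h (U t ξ) = U t (h ξ)) {y : Λ} (he : NormedSpace.exp (Complex.I • h) = lam y)
    (x : Λ) : ‖U 1 (dl x) - dl (y * x)‖ ≤ ‖d x - Complex.I • h (dl x)‖ := by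
  have h1 : ∀ t : ℝ, HasDerivAt
      (fun s : ℝ => NormedSpace.exp (s • -(Complex.I • h)) (U s (dl x)))
      (NormedSpace.exp (t • -(Complex.I • h)) (U t (d x - Complex.I • h (dl x)))) t := fun t => by
    have h2 := der_exp (-(Complex.I • h)) t
    have h3 := ((ContinuousLinearMap.restrictScalarsL ℂ (H Λ) (H Λ) ℝ ℝ).hasFDerivAt.comp_hasDerivAt
      t h2).clm_apply (hU.der x t)
    have h4 : NormedSpace.exp (t • -(Complex.I • h)) (U t (d x - Complex.I • h (dl x))) =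
        (NormedSpace.exp (t • -(Complex.I • h)) * -(Complex.I • h)) (U t (dl x)) +
        NormedSpace.exp (t • -(Complex.I • h)) (U t (d x)) := by
      rw [mul_ap, ← map_add, neg_apply, smul_apply, hc, map_sub, map_smul]
      congr 1
      abel
    rw [h4]
    exact h3
  have h4 := move_le h1 (c := ‖d x - Complex.I • h (dl x)‖) fun t => by
    rw [exp_norm hs, hU.norm]
  rw [zero_smul, NormedSpace.exp_zero, hU.zero, one_ap, one_ap, ← lam_norm y, map_sub, lam_dl,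
    ← he, ← mul_ap, one_smul, exp_inv, one_ap] at h4
  exact h4

end Flow

end Fl3

open Fl3 in
theorem flow3 (h1 : WLStmt) (h2 : LocStmt) (h3 : HargStmt) (h4 : LineStmt) (h5 : FormStmt)
    (h6 : KerStmt) : FlowStmt3 := by
  classical
  intro G _ hG
  obtain ⟨S, ℓ, φ, L, hW⟩ := h1 G hG
  obtain ⟨h, hh, hsa, hs, he⟩ := h3 (FZ G) (gen G) (infOrd hW)
  obtain ⟨l1, l2, l3, l4⟩ := h4 G S ℓ φ L h hW hh hs
  refine ⟨ℓ, ‖h (dl 1)‖, norm_nonneg _, fun β hco han => ?_⟩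
  obtain ⟨a₀, C, B, ha, hC, b1, b2, b3, b4, b5⟩ := h2 G S ℓ φ L β hW hco han
  have hd : ∀ x, ∃ v, Ch h (fun q => Complex.I * B x q) x v := fun x => by
    obtain ⟨v, -, hv⟩ := l4 (fun q => Complex.I * B x q) (√(C * (1 + ℓ x))) (Real.sqrt_nonneg _)
      (fun Z => by
        rw [Real.sq_sqrt (by positivity)]
        refine le_trans (Finset.sum_le_sum fun q _ => ?_) (b5 x Z)
        rw [norm_mul, Complex.norm_I, one_mul, Complex.norm_real, Real.norm_eq_abs, sq_abs]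
        refine le_mul_of_one_le_right (sq_nonneg _) (Real.one_le_exp ?_)
        have : (ℓ x : ℝ) ≤ L x q := by exact_mod_cast hW.ge x q
        have := sub_nonneg.2 this
        positivity) x
    exact ⟨v, hv⟩
  choose d hd using hd
  have hd1 : ∀ x q y, hq h q (dl x) y ≠ 0 → d x y = Complex.I * B x q * hq h q (dl x) y :=
    fun x => (hd x).1
  have key : ∀ q x y, hq h q (dl x) y ≠ 0 →
      B x q = B y q ∧ L x q = L y q ∧ (φ x q ≠ 0 ∨ φ y q ≠ 0) := fun q x y hne => by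
    obtain ⟨k, hk, rfl⟩ := l2 q x y hne
    have e1 := co_line b1 q.out x k
    have e2 := co_line hW.φ_mul q.out x k
    have e3 := hW.line q.out k x
    rw [QuotientGroup.out_eq'] at e1 e2 e3
    rw [co_pow b1 b2, zero_add] at e1
    rw [hW.φ_gen] at e2
    refine ⟨e1.symm, e3.symm, ?_⟩
    omega
  have skew : ∀ x y, d x y = -conj (d y x) := fun x y => by
    by_cases hy : ∃ q, hq h q (dl x) y ≠ 0
    · obtain ⟨q, hy⟩ := hy
      have hx : hq h q (dl y) x ≠ 0 := fun h0 => hy (by rw [hq_conj hsa, h0, map_zero])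
      rw [hd1 x q y hy, hd1 y q x hx, (key q x y hy).1, hq_conj hsa q x y]
      simp
    · push Not at hy
      rw [(hd x).2 y hy, (hd y).2 x fun q => by rw [hq_conj hsa, hy q, map_zero]]
      simp
  have leib : ∀ x z, d (x * z) = rho z⁻¹ (d x) + lam x (d z) := fun x z => by
    ext y
    rw [lp.coeFn_add, Pi.add_apply, rho_coef, lam_coef]
    by_cases hy : ∃ q, hq h q (dl (x * z)) y ≠ 0
    · obtain ⟨q, hy⟩ := hy
      rw [hd1 _ q y hy, hd1 x q _ (by rwa [hq_right hh]),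
        hd1 z (x⁻¹ • q) _ (by rwa [hq_left l1]), hq_right hh, hq_left l1, b1]
      push_cast
      ring
    · push Not at hy
      rw [(hd _).2 y hy, (hd x).2 _ fun q => by rw [hq_right hh, hy], (hd z).2 _ fun q => by
        rw [← inv_smul_smul x q, hq_left l1, hy], add_zero]
  obtain ⟨C', hFB⟩ := h5 (FZ G) (Cs G) ℓ (fun x y => d x y) (fun q x y => hq h q (dl x) y) B
    (fun x q => φ x q ≠ 0) L ‖h‖ C a₀ (norm_nonneg _) hC ha.le
    (fun q F ξ η => (form_bd (hq h q) F ξ η).trans (by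
      gcongr
      exact hq_norm q))
    key hW.nd hW.ge hW.count b5 (fun x y q q' => l3 q q' x y) (fun x y q => (hd x).1 q y)
    (fun x y => (hd x).2 y)
  obtain ⟨U, u0, u1, u2, u3, u4⟩ := h6 (FZ G) ℓ d a₀ C' ha hW.sub skew leib hFB
  have hU : Fw d U := ⟨u0, u1, u2, u3, u4⟩
  have dz : ∀ k : ℤ, d (gen G ^ k) = 0 := fun k =>
    (hd _).uniq ⟨fun q y _ => by simp [co_pow b1 b2], fun _ _ => rfl⟩
  have d1 : d 1 = 0 := by simpa using dz 0
  have hc := hU.comm d1 (X := C0 (gen G)) (fun x ⟨k, _, e⟩ => e ▸ dz k) hh hs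
  have hgen := (hU.uni d1).gen (SimA.gen_lam (MulEquiv.refl (FZ G)))
  have hα : ∀ x, ((hU.uni d1).cg.comp ((lam : FZ G →* Op (FZ G)).comp
      (MulEquiv.refl (FZ G)).toMonoidHom)) x (dl 1) = U 1 (dl x) := fun x => by
    show U 1 (lam x (U (-1) (dl 1))) = _
    rw [hU.fix d1, lam_one]
  refine ⟨_, hgen, ?_, fun g => ⟨?_, ?_⟩⟩
  · refine LL_ext (hgen.mem _) (lam_mem _) ?_
    rw [hα, lam_one]
    exact hU.fix (by simpa using dz 1) 1
  · rw [hα, mul_comm]
    obtain ⟨v, hv, hv'⟩ := l4 (fun q => Complex.I * B (Coprod.inl g) q) ‖β g (dl 1)‖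
      (norm_nonneg _) (sum_cos _ _ (fun x => by rw [b3, norm_mul, Complex.norm_I, one_mul])
        fun q hq0 => by rw [b4 g q hq0, Complex.ofReal_zero, mul_zero]) (Coprod.inl g)
    refine (hU.near _).trans ?_
    rwa [(hd _).uniq hv']
  · rw [hα, mul_comm]
    obtain ⟨v, hv, hv'⟩ := l4 (fun q => Complex.I * (B (Coprod.inl g) q -
        if q = ((1 : FZ G) : Cs G) then 1 else 0)) ‖β g (dl 1) - dl 1‖ (norm_nonneg _)
      (sum_cos _ _ (fun x => by
        rw [b3, norm_mul, Complex.norm_I, one_mul, lp.coeFn_sub, Pi.sub_apply, dl_apply]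
        congr 2
        exact if_congr ⟨base_eq hW, fun e => by rw [e]⟩ rfl rfl)
        fun q hq0 => by
          rw [b4 g q hq0, if_neg fun e => hq0 1 (by rw [e, map_one])]
          simp) (Coprod.inl g)
    refine (hU.near' hsa hc he _).trans ?_
    have hb : hq h ((1 : FZ G) : Cs G) = h := by rw [l1, inv_one, map_one, mul_one, one_mul]
    have hch : Ch h (fun q => Complex.I * (B (Coprod.inl g) q -
        if q = ((1 : FZ G) : Cs G) then 1 else 0)) (Coprod.inl g)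
        (d (Coprod.inl g) - Complex.I • h (dl (Coprod.inl g))) := by
      refine ⟨fun q y hy => ?_, fun y hy => ?_⟩
      · rw [lp.coeFn_sub, Pi.sub_apply, lp.coeFn_smul, Pi.smul_apply, hd1 _ q y hy,
          smul_eq_mul]
        beta_reduce
        split_ifs with hq1
        · rw [hq1, hb]
          ring
        · have : h (dl (Coprod.inl g)) y = 0 := by
            by_contra h0
            exact hq1 (l3 q _ _ y hy (by rwa [hb]))
          rw [this]
          ring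
      · have := hy ((1 : FZ G) : Cs G)
        rw [hb] at this
        rw [lp.coeFn_sub, Pi.sub_apply, lp.coeFn_smul, Pi.smul_apply, (hd _).2 y hy, this]
        simp
    rwa [hch.uniq hv']

end

end Pool.Agent.MP_494aff_an.Lf

end MrgPart2

-- ======== part 3: formerly Pool.Agent.MP_494aff_an.lf.Ping
section MrgPart3

-- ======== part 0: formerly Pool.Agent.MP_494aff_an.lf.Cls
section MrgPart0

/-! Normal forms and conjugacy classes in a splitting. -/

namespace Pool.Agent.MP_494aff_an.Lf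

namespace ClsP

variable {A G : Type} [Group A] [Group G] {f : A →* G} {K : Bool → Subgroup A}
  {Lt : Bool → Bool → Set G}

theorem cat {s e s' e' : Bool} {n n' : ℕ} {g g' : G} {a : A} (h : Wd f K Lt s e n g)
    (h' : Wd f K Lt s' e' n' g') (hj : ¬ (e = s' ∧ a ∈ K e)) :
    Wd f K Lt s e' (n + n') (g * f a * g') := by
  induction h with
  | one s e l hl =>
    rw [Nat.add_comm]
    exact Wd.cons s e s' e' l a n' g' hl hj h'
  | cons s e s1 e1 l a1 n g hl h1 _ ih =>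
    have := Wd.cons s e s1 e' l a1 _ _ hl h1 (ih hj)
    rw [Nat.add_right_comm n 1 n']
    simpa only [mul_assoc] using this

theorem winv (hS : Split f K Lt) {s e : Bool} {n : ℕ} {g : G} (h : Wd f K Lt s e n g) :
    Wd f K Lt e s n g⁻¹ := by
  induction h with
  | one s e l hl => exact Wd.one e s _ (hS.inv s e l hl)
  | cons s e s1 e1 l a n g hl h1 _ ih =>
    have := cat (a := a⁻¹) ih (Wd.one e s _ (hS.inv s e l hl)) fun h =>
      h1 ⟨h.1.symm, by rw [← h.1]; exact (K s1).inv_mem_iff.1 h.2⟩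
    simpa only [mul_inv_rev, map_inv, mul_assoc] using this

variable (f K Lt) in
/-- `x` has a normal form with `n` letters. -/
def N (n : ℕ) (x : G) : Prop :=
  (n = 0 ∧ x ∈ f.range) ∨ ∃ a a' s e x₀, Wd f K Lt s e n x₀ ∧ x = f a * x₀ * f a'

theorem N.mul {n : ℕ} {x : G} (h : N f K Lt n x) (b b' : A) : N f K Lt n (f b * x * f b') := by
  rcases h with ⟨h0, c, rfl⟩ | ⟨a, a', s, e, x₀, h, rfl⟩
  · exact Or.inl ⟨h0, b * c * b', by simp only [map_mul]⟩
  · exact Or.inr ⟨b * a, a' * b', s, e, x₀, h, by simp only [map_mul, mul_assoc]⟩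

theorem N.inv (hS : Split f K Lt) {n : ℕ} {x : G} (h : N f K Lt n x) : N f K Lt n x⁻¹ := by
  rcases h with ⟨h0, h⟩ | ⟨a, a', s, e, x₀, h, rfl⟩
  · exact Or.inl ⟨h0, f.range.inv_mem h⟩
  · exact Or.inr ⟨a'⁻¹, a⁻¹, e, s, x₀⁻¹, winv hS h, by simp only [mul_inv_rev, map_inv, mul_assoc]⟩

theorem of_wd {s e : Bool} {n : ℕ} {g : G} (h : Wd f K Lt s e n g) : N f K Lt n g :=
  Or.inr ⟨1, 1, s, e, g, h, by simp⟩

/-- A bad junction does not increase the length. -/
theorem bad (hS : Split f K Lt) {s e e' : Bool} {n : ℕ} {l g : G} {a : A} (hl : l ∈ Lt s e)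
    (ha : a ∈ K e) (h : Wd f K Lt e e' n g) : ∃ m ≤ n, N f K Lt m (l * f a * g) := by
  cases h with
  | one _ _ _ hl' =>
    rcases hS.red s e e' l g a hl hl' ha with h | h
    · exact ⟨0, Nat.zero_le _, Or.inl ⟨rfl, h⟩⟩
    · exact ⟨1, le_rfl, of_wd (Wd.one s e' _ h)⟩
  | cons _ e1 s1 _ l' a1 m g' hl' h1 h2 =>
    rcases hS.red s e e1 l l' a hl hl' ha with ⟨b, hb⟩ | h
    · refine ⟨m, Nat.le_succ m, Or.inr ⟨b * a1, 1, s1, e', g', h2, ?_⟩⟩
      rw [map_mul, hb, map_one]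
      simp only [mul_assoc, mul_one]
    · refine ⟨m + 1, le_rfl, ?_⟩
      have := of_wd (Wd.cons s e1 s1 e' _ a1 m g' h h1 h2)
      simpa only [mul_assoc] using this

theorem left (hS : Split f K Lt) {s e : Bool} {n : ℕ} {l x : G} (hl : l ∈ Lt s e)
    (h : N f K Lt n x) : ∃ m, N f K Lt m (l * x) := by
  rcases h with ⟨-, c, rfl⟩ | ⟨a, a', s', e', x₀, h, rfl⟩
  · exact ⟨1, Or.inr ⟨1, c, s, e, l, Wd.one s e l hl, by simp⟩⟩
  · by_cases hj : e = s' ∧ a ∈ K e
    · obtain ⟨rfl, ha⟩ := hj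
      obtain ⟨m, -, hm⟩ := bad hS hl ha h
      exact ⟨m, by simpa only [map_one, one_mul, mul_assoc] using hm.mul 1 a'⟩
    · exact ⟨n + 1, Or.inr ⟨1, a', s, e', _, Wd.cons s e s' e' l a n x₀ hl hj h,
        by simp only [map_one, one_mul, mul_assoc]⟩⟩

theorem all (hS : Split f K Lt) (z : G) : ∃ n, N f K Lt n z := by
  let T : Subgroup G :=
    { carrier := {z | ∀ x, (∃ n, N f K Lt n x) →
        (∃ n, N f K Lt n (z * x)) ∧ ∃ n, N f K Lt n (z⁻¹ * x)}
      one_mem' := fun x hx => by simpa using hx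
      mul_mem' := fun {y z} hy hz x hx => by
        rw [mul_inv_rev, mul_assoc, mul_assoc]
        exact ⟨(hy _ (hz x hx).1).1, (hz _ (hy x hx).2).2⟩
      inv_mem' := fun {y} hy x hx => by
        rw [inv_inv]
        exact (hy x hx).symm }
  have h := hS.gen T (fun a x ⟨n, hn⟩ => ⟨⟨n, by simpa using hn.mul a 1⟩,
      n, by simpa using hn.mul a⁻¹ 1⟩)
    (fun s e l hl x ⟨n, hn⟩ => ⟨left hS hl hn, left hS (hS.inv s e l hl) hn⟩) z 1
    ⟨0, Or.inl ⟨rfl, f.range.one_mem⟩⟩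
  simpa using h.1

/-- A word as a finite sequence. -/
theorem seq {s e : Bool} {n : ℕ} {g : G} (h : Wd f K Lt s e n g) (b : A) (s' : Bool)
    (hj : ¬ (e = s' ∧ b ∈ K e)) :
    ∃ (L q : ℕ → G) (a : ℕ → A) (S E : ℕ → Bool), 0 < n ∧ S 0 = s ∧ S n = s' ∧ q 0 = 1 ∧
      q n = g * f b ∧ ∀ i < n, L i ∈ Lt (S i) (E i) ∧ ¬ (E i = S (i + 1) ∧ a i ∈ K (E i)) ∧
        q (i + 1) = q i * L i * f (a i) := by
  induction h with
  | one s e l hl =>
    refine ⟨fun _ => l, fun i => Nat.casesOn i 1 fun _ => l * f b, fun _ => b,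
      fun i => Nat.casesOn i s fun _ => s', fun _ => e, Nat.one_pos, rfl, rfl, rfl, rfl, ?_⟩
    intro i hi
    obtain rfl : i = 0 := by omega
    exact ⟨hl, hj, by simp⟩
  | cons s e s1 e1 l a1 n g hl h1 _ ih =>
    obtain ⟨L, q, a, S, E, -, hS0, hSn, hq0, hqn, hi⟩ := ih hj
    refine ⟨fun i => Nat.casesOn i l L, fun i => Nat.casesOn i 1 fun j => l * f a1 * q j,
      fun i => Nat.casesOn i a1 a, fun i => Nat.casesOn i s S, fun i => Nat.casesOn i e E,
      Nat.succ_pos n, rfl, hSn, rfl, ?_, ?_⟩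
    · show l * f a1 * q n = _
      rw [hqn, ← mul_assoc]
    · intro i hn
      cases i with
      | zero =>
        refine ⟨hl, ?_, ?_⟩
        · show ¬ (e = S 0 ∧ a1 ∈ K e)
          rw [hS0]
          exact h1
        · show l * f a1 * q 0 = 1 * l * f a1
          rw [hq0, mul_one, one_mul]
      | succ j =>
        obtain ⟨k1, k2, k3⟩ := hi j (by omega)
        refine ⟨k1, k2, ?_⟩
        show l * f a1 * q (j + 1) = l * f a1 * q j * L j * f (a j)
        rw [k3]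
        simp only [mul_assoc]

/-- The vertices of a reduced sequence are distinct. -/
theorem sep (hS : Split f K Lt) {p l : ℤ → G} {a : ℤ → A} {s e : ℤ → Bool}
    (step : ∀ i, p (i + 1) = p i * l i * f (a i)) (mem : ∀ i, l i ∈ Lt (s i) (e i))
    (red : ∀ i, ¬ (e i = s (i + 1) ∧ a i ∈ K (e i))) (i j : ℤ)
    (h : (p i * l i)⁻¹ * (p j * l j) ∈ f.range) : i = j := by
  have k1 : ∀ (i : ℤ) (k : ℕ), ∃ g, Wd f K Lt (s i) (e (i + k)) (k + 1) g ∧
      p (i + k) * l (i + k) = p i * g := by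
    intro i k
    induction k with
    | zero => exact ⟨l i, by simpa using Wd.one _ _ _ (mem i), by simp⟩
    | succ k ih =>
      obtain ⟨g, hg, hp⟩ := ih
      have e1 : i + ((k + 1 : ℕ) : ℤ) = i + k + 1 := by push_cast; ring
      refine ⟨g * f (a (i + k)) * l (i + k + 1), ?_, ?_⟩
      · rw [e1]
        exact cat hg (Wd.one _ _ _ (mem _)) (red _)
      · rw [e1, step, hp]
        simp only [mul_assoc]
  have k2 : ∀ i j : ℤ, i < j → (p i * l i)⁻¹ * (p j * l j) ∉ f.range := by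
    intro i j hij h
    obtain ⟨k, rfl⟩ := Int.le.dest (show i + 1 ≤ j from hij)
    obtain ⟨g, hg, hp⟩ := k1 (i + 1) k
    rw [hp, step, mul_assoc (p i * l i), inv_mul_cancel_left] at h
    exact hS.nf _ _ _ _ hg ((f.range.mul_mem_cancel_left ⟨a i, rfl⟩).1 h)
  rcases lt_trichotomy i j with hij | hij | hij
  · exact absurd h (k2 i j hij)
  · exact hij
  · have := f.range.inv_mem h
    rw [mul_inv_rev, inv_inv] at this
    exact absurd this (k2 j i hij)

/-- Division with remainder along the integers. -/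
theorem divmod {n : ℕ} (hn : 0 < n) : ∃ (d : ℤ → ℤ) (r : ℤ → ℕ), d 0 = 0 ∧ r 0 = 0 ∧
    (∀ i, r i < n) ∧ (∀ i, d (i + n) = d i + 1 ∧ r (i + n) = r i) ∧
    ∀ i, (d (i + 1) = d i ∧ r (i + 1) = r i + 1) ∨
      (d (i + 1) = d i + 1 ∧ r (i + 1) = 0 ∧ r i + 1 = n) := by
  have hn' : (0 : ℤ) < n := by exact_mod_cast hn
  have h0 : ∀ i : ℤ, 0 ≤ i % n := fun i => Int.emod_nonneg i hn'.ne'
  have h1 : ∀ i : ℤ, i % n < n := fun i => Int.emod_lt_of_pos i hn'
  have h2 : ∀ i : ℤ, i % n + n * (i / n) = i := fun i => Int.emod_add_mul_ediv i n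
  refine ⟨fun i => i / n, fun i => (i % n).toNat, by simp, by simp, fun i => ?_, fun i => ?_,
    fun i => ?_⟩
  · have := h0 i
    have := h1 i
    show (i % n).toNat < n
    omega
  · obtain ⟨k1, k2⟩ := (Int.ediv_emod_unique (a := i + n) (r := i % n) (q := i / n + 1) hn').2
      ⟨by linarith [h2 i], h0 i, h1 i⟩
    exact ⟨k1, congrArg Int.toNat k2⟩
  · have t0 := h0 i
    have t1 := h1 i
    by_cases h : i % n + 1 < n
    · obtain ⟨k1, k2⟩ := (Int.ediv_emod_unique (a := i + 1) (r := i % n + 1) (q := i / n) hn').2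
        ⟨by linarith [h2 i], by omega, h⟩
      refine Or.inl ⟨k1, ?_⟩
      show ((i + 1) % n).toNat = (i % n).toNat + 1
      omega
    · obtain ⟨k1, k2⟩ := (Int.ediv_emod_unique (a := i + 1) (r := 0) (q := i / n + 1) hn').2
        ⟨by have : i % n + 1 = n := by omega
            linarith [h2 i], le_rfl, hn'⟩
      refine Or.inr ⟨k1, ?_, ?_⟩
      · show ((i + 1) % n).toNat = 0
        omega
      · show (i % n).toNat + 1 = n
        omega

/-- A cyclically reduced word is periodic. -/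
theorem per (hS : Split f K Lt) {s e : Bool} {n : ℕ} {g : G} (h : Wd f K Lt s e n g) {b : A}
    (hj : ¬ (e = s ∧ b ∈ K e)) : ∃ n p l a s e, Per f K Lt (g * f b) n p l a s e := by
  obtain ⟨L, q, a, S, E, hn, hS0, hSn, hq0, hqn, hi⟩ := seq h b s hj
  obtain ⟨d, r, d0, r0, rn, dp, ds⟩ := divmod hn
  have step : ∀ i : ℤ, (g * f b) ^ d (i + 1) * q (r (i + 1)) =
      (g * f b) ^ d i * q (r i) * L (r i) * f (a (r i)) := by
    intro i
    have k := (hi _ (rn i)).2.2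
    rcases ds i with ⟨k1, k2⟩ | ⟨k1, k2, k3⟩
    · rw [k1, k2, k]
      simp only [mul_assoc]
    · rw [k3, hqn] at k
      rw [k1, k2, hq0, mul_one, zpow_add_one, mul_assoc _ (q _), mul_assoc _ (q _ * _), ← k]
  have mem : ∀ i : ℤ, L (r i) ∈ Lt (S (r i)) (E (r i)) := fun i => (hi _ (rn i)).1
  have red : ∀ i : ℤ, ¬ (E (r i) = S (r (i + 1)) ∧ a (r i) ∈ K (E (r i))) := by
    intro i
    have k := (hi _ (rn i)).2.1
    rcases ds i with ⟨-, k2⟩ | ⟨-, k2, k3⟩
    · rwa [k2]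
    · rwa [k3, hSn, ← hS0, ← k2] at k
  refine ⟨n, fun i => (g * f b) ^ d i * q (r i), fun i => L (r i), fun i => a (r i),
    fun i => S (r i), fun i => E (r i), ⟨hn, ?_, step, fun i => ?_,
      sep (p := fun i => (g * f b) ^ d i * q (r i)) (l := fun i => L (r i))
        (a := fun i => a (r i)) (s := fun i => S (r i)) (e := fun i => E (r i)) hS step mem red⟩,
    mem, red, fun i => congrArg S (dp i).2, fun i => congrArg L (dp i).2⟩
  · show (g * f b) ^ d 0 * q (r 0) = 1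
    rw [d0, r0, hq0, zpow_zero, mul_one]
  · show (g * f b) ^ d (i + n) * q (r (i + n)) = g * f b * ((g * f b) ^ d i * q (r i))
    rw [(dp i).1, (dp i).2, add_comm, zpow_one_add, mul_assoc]

theorem conj (hS : Split f K Lt) (n : ℕ) : ∀ z, N f K Lt n z → ∃ y, y * z * y⁻¹ ∈ f.range ∨
    (∃ s, y * z * y⁻¹ ∈ Lt s s) ∨ ∃ n p l a s e, Per f K Lt (y * z * y⁻¹) n p l a s e := by
  induction n using Nat.strong_induction_on with
  | _ n ih =>
    rintro z (⟨-, h⟩ | ⟨a, a', s, e, x₀, h, rfl⟩)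
    · exact ⟨1, Or.inl (by simpa using h)⟩
    have e1 : (f a)⁻¹ * (f a * x₀ * f a') * (f a)⁻¹⁻¹ = x₀ * f (a' * a) := by
      rw [map_mul]; group
    by_cases hj : e = s ∧ a' * a ∈ K e
    · obtain ⟨rfl, hb⟩ := hj
      cases h with
      | one _ _ _ hl => exact ⟨(f a)⁻¹, Or.inr (Or.inl ⟨e, e1 ▸ hS.shift e _ _ hl hb⟩)⟩
      | cons _ e1 s1 _ l a1 m g hl h1 h2 =>
        obtain ⟨k, hk, hN⟩ := bad hS (hS.inv _ _ l hl) ((K e).inv_mem hb) (winv hS h2)
        obtain ⟨y, hy⟩ := ih k (by omega) _ ((hN.mul a1⁻¹ 1).inv hS)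
        refine ⟨y * (f a * l * f a1)⁻¹, ?_⟩
        have e2 : y * (f a * l * f a1)⁻¹ * (f a * (l * f a1 * g) * f a') *
            (y * (f a * l * f a1)⁻¹)⁻¹ =
            y * (f a1⁻¹ * (l⁻¹ * f (a' * a)⁻¹ * g⁻¹) * f 1)⁻¹ * y⁻¹ := by
          simp only [map_mul, map_inv, map_one]
          group
        rw [e2]
        exact hy
    · exact ⟨(f a)⁻¹, Or.inr (Or.inr (e1 ▸ per hS h hj))⟩

end ClsP

open ClsP in
theorem cls : ClsStmt := by
  intro A G _ _ f K Lt hS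
  refine ⟨fun x hx => ?_, fun s e n g h => winv hS h,
    fun s e n g s' e' n' g' a h h' hj => cat h h' hj, fun z => ?_⟩
  · obtain ⟨n, ⟨-, h⟩ | ⟨a, a', s, e, x₀, h, h'⟩⟩ := all hS x
    · exact absurd h hx
    · exact ⟨a, a', s, e, n, x₀, h, h'⟩
  · obtain ⟨n, h⟩ := all hS z
    exact conj hS n z h

end Pool.Agent.MP_494aff_an.Lf

end MrgPart0

-- ======== part 1: formerly Pool.Agent.MP_494aff_an.lf.Hyp
section MrgPart1

/-! The centraliser of a hyperbolic element is cyclic. -/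

namespace Pool.Agent.MP_494aff_an.Lf

namespace HypP

open ClsP

variable {A G : Type} [Group A] [Group G] {f : A →* G} {K : Bool → Subgroup A}
  {Lt : Bool → Bool → Set G}

/-- A bad junction merges two letters or cancels them. -/
theorem merge (hS : Split f K Lt) {s e e' : Bool} {n : ℕ} {l g : G} {a : A} (hl : l ∈ Lt s e)
    (ha : a ∈ K e) (h : Wd f K Lt e e' n g) :
    Wd f K Lt s e' n (l * f a * g) ∨ ∃ m, m + 1 = n ∧ N f K Lt m (l * f a * g) := by
  cases h with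
  | one _ _ _ hl' =>
    rcases hS.red s e e' l g a hl hl' ha with h | h
    · exact Or.inr ⟨0, rfl, Or.inl ⟨rfl, h⟩⟩
    · exact Or.inl (Wd.one s e' _ h)
  | cons _ e1 s1 _ l' a1 m g' hl' h1 h2 =>
    rcases hS.red s e e1 l l' a hl hl' ha with ⟨b, hb⟩ | h
    · refine Or.inr ⟨m, rfl, Or.inr ⟨b * a1, 1, s1, e', g', h2, ?_⟩⟩
      rw [map_mul, hb, map_one]
      simp only [mul_assoc, mul_one]
    · have := Wd.cons s e1 s1 e' _ a1 m g' h h1 h2
      exact Or.inl (by simpa only [mul_assoc] using this)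

theorem junc (hS : Split f K Lt) {s e s' e' : Bool} {n : ℕ} {l g : G} (a : A) (hl : l ∈ Lt s e)
    (h : Wd f K Lt s' e' n g) : Wd f K Lt s e' (n + 1) (l * f a * g) ∨
      ((e = s' ∧ a ∈ K e) ∧ Wd f K Lt s e' n (l * f a * g)) ∨
      ∃ m, m + 1 = n ∧ N f K Lt m (l * f a * g) := by
  by_cases hj : e = s' ∧ a ∈ K e
  · obtain ⟨rfl, ha⟩ := hj
    exact Or.inr ((merge hS hl ha h).imp_left fun h => ⟨⟨rfl, ha⟩, h⟩)
  · exact Or.inl (Wd.cons s e s' e' l a n g hl hj h)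

theorem pos {s e : Bool} {n : ℕ} {g : G} (h : Wd f K Lt s e n g) : 0 < n := by
  cases h <;> omega

theorem notMem (hS : Split f K Lt) {s e : Bool} {n : ℕ} {g : G} (h : Wd f K Lt s e n g)
    (a a' : A) : f a * g * f a' ∉ f.range := fun h' =>
  hS.nf _ _ _ _ h ((f.range.mul_mem_cancel_left ⟨a, rfl⟩).1
    ((f.range.mul_mem_cancel_right ⟨a', rfl⟩).1 h'))

theorem zero (hS : Split f K Lt) {n : ℕ} {x : G} (h : N f K Lt n x) (hx : x ∈ f.range) :
    n = 0 := by
  rcases h with ⟨h0, -⟩ | ⟨a, a', s, e, x₀, h, rfl⟩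
  · exact h0
  · exact absurd hx (notMem hS h a a')

theorem uniq0 (hS : Split f K Lt) {s' e' : Bool} {n' : ℕ} {x₁ : G} (h₁ : Wd f K Lt s' e' n' x₁) :
    ∀ n x, N f K Lt n x → x₁⁻¹ * x ∈ f.range → n = n' := by
  induction h₁ with
  | one s' e' l hl =>
    rintro n x (⟨-, h⟩ | ⟨a, a', s, e, x₀, h, rfl⟩) hx
    · exact absurd (f.range.inv_mem_iff.1 ((f.range.mul_mem_cancel_right h).1 hx))
        (hS.nf _ _ _ _ (Wd.one _ _ _ hl))
    have hx' : l⁻¹ * f a * x₀ ∈ f.range :=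
      (f.range.mul_mem_cancel_right ⟨a', rfl⟩).1 (by simpa only [mul_assoc] using hx)
    rcases junc hS a (hS.inv _ _ l hl) h with h1 | ⟨-, h1⟩ | ⟨m, h1, h2⟩
    · exact absurd hx' (hS.nf _ _ _ _ h1)
    · exact absurd hx' (hS.nf _ _ _ _ h1)
    · rw [← h1, zero hS h2 hx']
  | cons s' e1 s1 e' l a1 k g hl h1 hg ih =>
    rintro n x (⟨-, h⟩ | ⟨a, a', s, e, x₀, h, rfl⟩) hx
    · exact absurd (f.range.inv_mem_iff.1 ((f.range.mul_mem_cancel_right h).1 hx))
        (hS.nf _ _ _ _ (Wd.cons _ _ _ _ _ _ _ _ hl h1 hg))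
    have hx' : g⁻¹ * f a1⁻¹ * (l⁻¹ * f a * x₀) ∈ f.range :=
      (f.range.mul_mem_cancel_right ⟨a', rfl⟩).1
        (by simpa only [mul_assoc, mul_inv_rev, map_inv] using hx)
    have hj : ¬ (s1 = e1 ∧ a1⁻¹ ∈ K s1) := fun h =>
      h1 ⟨h.1.symm, by rw [← h.1]; exact (K s1).inv_mem_iff.1 h.2⟩
    rcases junc hS a (hS.inv _ _ l hl) h with h2 | ⟨-, h2⟩ | ⟨m, h2, h3⟩
    · exact absurd hx' (hS.nf _ _ _ _ (cat (winv hS hg) h2 hj))
    · exact absurd hx' (hS.nf _ _ _ _ (cat (winv hS hg) h2 hj))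
    · rw [← h2, ih m _ (h3.mul a1⁻¹ 1) (by simpa only [mul_assoc, map_one, mul_one] using hx')]

/-- The number of letters is well defined. -/
theorem uniq (hS : Split f K Lt) {n m : ℕ} {x : G} (h : N f K Lt n x) (h' : N f K Lt m x) :
    n = m := by
  rcases h' with ⟨h0, h'⟩ | ⟨a, a', s, e, x₀, h', rfl⟩
  · rw [h0, zero hS h h']
  · refine uniq0 hS h' n _ (h.mul a⁻¹ 1) ⟨a', ?_⟩
    simp only [map_inv, map_one]
    group

theorem left1 (hS : Split f K Lt) {s e : Bool} {n : ℕ} {l x : G} (hl : l ∈ Lt s e)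
    (h : N f K Lt n x) : ∃ m ≤ n + 1, N f K Lt m (l * x) := by
  rcases h with ⟨-, c, rfl⟩ | ⟨a, a', s', e', x₀, h, rfl⟩
  · exact ⟨1, by omega, Or.inr ⟨1, c, s, e, l, Wd.one s e l hl, by simp⟩⟩
  have e1 : l * (f a * x₀ * f a') = f 1 * (l * f a * x₀) * f a' := by
    simp only [map_one, one_mul, mul_assoc]
  rw [e1]
  rcases junc hS a hl h with h1 | ⟨-, h1⟩ | ⟨m, h1, h2⟩
  · exact ⟨_, le_rfl, (of_wd h1).mul _ _⟩
  · exact ⟨_, by omega, (of_wd h1).mul _ _⟩
  · exact ⟨m, by omega, h2.mul _ _⟩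

theorem sub0 (hS : Split f K Lt) {s e : Bool} {r n : ℕ} {y x : G} (hy : Wd f K Lt s e r y)
    (h : N f K Lt n x) : ∃ m ≤ r + n, N f K Lt m (y * x) := by
  induction hy with
  | one s e l hl => exact Nat.add_comm n 1 ▸ left1 hS hl h
  | cons s e s1 e1 l a k g hl _ _ ih =>
    obtain ⟨m, hm, h1⟩ := ih
    obtain ⟨m', hm', h2⟩ := left1 hS hl (h1.mul a 1)
    exact ⟨m', by omega, by simpa only [map_one, mul_one, mul_assoc] using h2⟩

theorem sub (hS : Split f K Lt) {r n : ℕ} {y x : G} (hy : N f K Lt r y) (h : N f K Lt n x) :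
    ∃ m ≤ r + n, N f K Lt m (y * x) := by
  rcases hy with ⟨-, c, rfl⟩ | ⟨a, a', s, e, y₀, hy, rfl⟩
  · exact ⟨n, by omega, by simpa only [map_one, mul_one] using h.mul c 1⟩
  · obtain ⟨m, hm, h1⟩ := sub0 hS hy (h.mul a' 1)
    exact ⟨m, hm, by simpa only [map_one, mul_one, mul_assoc] using h1.mul a 1⟩

variable {w : G} {n : ℕ} {p l : ℤ → G} {a : ℤ → A} {s e : ℤ → Bool}

theorem back (hP : Per f K Lt w n p l a s e) {e' : Bool} {r : ℕ} {z : G} (k : ℕ) :
    ∀ i : ℤ, Wd f K Lt (s (i + k)) e' r z →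
      Wd f K Lt (s i) e' (r + k) ((p i)⁻¹ * p (i + k) * z) := by
  induction k with
  | zero => intro i h; simpa using h
  | succ k ih =>
    intro i h
    have e1 : i + ((k + 1 : ℕ) : ℤ) = i + 1 + k := by push_cast; ring
    rw [e1] at h ⊢
    have := Wd.cons _ _ _ _ _ _ _ _ (hP.mem i) (hP.red i) (ih (i + 1) h)
    rw [hP.ax.step i] at this
    convert this using 1
    group

theorem dist (hP : Per f K Lt w n p l a s e) (i : ℤ) (k : ℕ) :
    N f K Lt k ((p i)⁻¹ * p (i + k)) := by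
  cases k with
  | zero => exact Or.inl ⟨rfl, by simp⟩
  | succ k =>
    have h := (of_wd (back hP k i (Wd.one _ _ _ (hP.mem _)))).mul 1 (a (i + k))
    rw [show i + ((k + 1 : ℕ) : ℤ) = i + k + 1 by push_cast; ring, hP.ax.step, Nat.add_comm]
    simpa only [map_one, one_mul, mul_assoc] using h

theorem dist' (hS : Split f K Lt) (hP : Per f K Lt w n p l a s e) (i j : ℤ) :
    N f K Lt (j - i).natAbs ((p i)⁻¹ * p j) := by
  rcases le_total i j with h | h
  · obtain ⟨k, rfl⟩ := Int.le.dest h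
    simpa using dist hP i k
  · obtain ⟨k, rfl⟩ := Int.le.dest h
    simpa using (dist hP j k).inv hS

theorem pw (hP : Per f K Lt w n p l a s e) (i : ℤ) (m : ℕ) : p (i + m * n) = w ^ m * p i := by
  induction m with
  | zero => simp
  | succ m ih =>
    rw [show i + ((m + 1 : ℕ) : ℤ) * n = i + m * n + n by push_cast; ring, hP.ax.per, ih,
      pow_succ', mul_assoc]

/-- A point that is moved as little as the points of the axis lies on the axis. -/
theorem onAxis (hS : Split f K Lt) (hP : Per f K Lt w n p l a s e) {g : G}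
    (hg : N f K Lt (2 * n) (g⁻¹ * w ^ 2 * g)) (r : ℕ) :
    ∀ i, N f K Lt r ((p i)⁻¹ * g) → ∃ j, (p j)⁻¹ * g ∈ f.range := by
  induction r using Nat.strong_induction_on with
  | _ r ih =>
    rintro i (⟨-, h⟩ | ⟨b, b', s', e', x₀, h, hx⟩)
    · exact ⟨i, h⟩
    obtain ⟨j, rfl⟩ : ∃ j, i = j + 1 := ⟨i - 1, by ring⟩
    have hr := pos h
    have hn := hP.ax.pos
    have e1 : (p (j + 1 + 1))⁻¹ * g = f (a (j + 1))⁻¹ * ((l (j + 1))⁻¹ * f b * x₀) * f b' := by
      rw [hP.ax.step (j + 1), map_inv]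
      simp only [mul_inv_rev, mul_assoc] at hx ⊢
      rw [hx]
    have e2 : (p j)⁻¹ * g = f 1 * (l j * f (a j * b) * x₀) * f b' := by
      rw [hP.ax.step j] at hx
      rw [map_one, map_mul, one_mul]
      simp only [mul_assoc] at hx ⊢
      rw [← hx]
      group
    have key : ∀ r₁ r₂, Wd f K Lt (e (j + 1)) e' r₁ ((l (j + 1))⁻¹ * f b * x₀) →
        Wd f K Lt (s j) e' r₂ (l j * f (a j * b) * x₀) → r₁ + r₂ = 2 := fun r₁ r₂ h1 h2 => by
      obtain ⟨k, hk⟩ : ∃ k : ℕ, 2 * n = k + 2 := ⟨2 * n - 2, by omega⟩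
      have hk' : (2 : ℤ) * n = k + 2 := by exact_mod_cast hk
      obtain ⟨i, rfl⟩ : ∃ i, j = i + k := ⟨j - k, by ring⟩
      have h3 := back hP k i h2
      have h4 : s (i + k + 1 + 1) = s i := by
        rw [show i + k + 1 + 1 = i + n + n by linarith, hP.ps, hP.ps]
      have h5 := (of_wd (cat (winv hS h1) h3 (h4 ▸ hP.red (i + k + 1)))).mul b'⁻¹ b'
      have h6 : p (i + k + 1 + 1) = w ^ 2 * p i := by
        rw [← pw hP i 2]
        congr 1
        push_cast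
        linarith
      have h8 : g⁻¹ * w ^ 2 * g =
          ((p (i + k + 1 + 1))⁻¹ * g)⁻¹ * ((p i)⁻¹ * p (i + k) * ((p (i + k))⁻¹ * g)) := by
        rw [h6]
        group
      rw [h8, e1, e2] at hg
      have h9 := uniq hS hg (by
        convert h5 using 1
        simp only [map_inv, map_one]
        group)
      omega
    rcases junc hS b (hS.inv _ _ _ (hP.mem (j + 1))) h with h1 | ⟨k1, h1⟩ | ⟨m, h1, h2⟩
    rotate_left 2
    · exact ih m (by omega) _ (e1 ▸ h2.mul _ _)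
    all_goals
      rcases junc hS (a j * b) (hP.mem j) h with h2 | ⟨k2, h2⟩ | ⟨m, h2, h3⟩
      rotate_left 2
      · exact ih m (by omega) _ (e2 ▸ h3.mul _ _)
    · have := key _ _ h1 h2; omega
    · have := key _ _ h1 h2; omega
    · have := key _ _ h1 h2; omega
    · have h3 : e j = s (j + 1) := k2.1.trans k1.1.symm
      exact absurd ⟨h3, ((K (e j)).mul_mem_cancel_right (h3 ▸ k1.2)).1 k2.2⟩ (hP.red j)

/-- The centraliser translates the axis. -/
theorem shift (hS : Split f K Lt) (hP : Per f K Lt w n p l a s e) {x : G} (hx : x * w = w * x) :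
    ∃ k, ∀ j, (p (j + k))⁻¹ * (x * p j) ∈ f.range := by
  have h1 : ∀ j, ∃ i, (p i)⁻¹ * (x * p j) ∈ f.range := fun j => by
    obtain ⟨r, hr⟩ := all hS ((p 0)⁻¹ * (x * p j))
    refine onAxis hS hP ?_ r 0 hr
    have h2 := dist hP j (2 * n)
    rw [Nat.cast_mul, pw hP j 2] at h2
    convert h2 using 1
    have h3 : w ^ 2 * x = x * w ^ 2 := ((show Commute x w from hx).pow_right 2).eq.symm
    rw [mul_inv_rev, mul_assoc, mul_assoc, ← mul_assoc (w ^ 2), h3, mul_assoc,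
      inv_mul_cancel_left]
  choose π hπ using h1
  have h2 : ∀ i i' j j', (p i)⁻¹ * (x * p j) ∈ f.range → (p i')⁻¹ * (x * p j') ∈ f.range →
      (i' - i).natAbs = (j' - j).natAbs := by
    rintro i i' j j' ⟨b, hb⟩ ⟨b', hb'⟩
    refine uniq hS ((dist' hS hP i i').mul b⁻¹ b') ?_
    convert dist' hS hP j j' using 1
    rw [map_inv, hb, hb']
    group
  have h3 : (p (π 0 + n))⁻¹ * (x * p (0 + n)) ∈ f.range := by
    convert hπ 0 using 1
    rw [hP.ax.per, hP.ax.per, ← mul_assoc x, hx]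
    group
  refine ⟨π 0, fun j => ?_⟩
  have h4 := h2 _ _ _ _ (hπ 0) (hπ j)
  have h5 := h2 _ _ _ _ h3 (hπ j)
  have hn := hP.ax.pos
  rw [show j + π 0 = π j by omega]
  exact hπ j

end HypP

open ClsP HypP in
theorem hyp (hC : ClsStmt) : HypStmt := by
  have _ := hC
  intro A G _ _ f K Lt w n p l a s e hS _ hP hb
  have hn := hP.ax.pos
  have hw : ∀ m : ℕ, N f K Lt (m * n) (w ^ m) := fun m => by
    have h := dist hP 0 (m * n)
    rwa [Nat.cast_mul, pw hP, hP.ax.zero, inv_one, one_mul, mul_one] at h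
  have h1 : ∀ x : Subgroup.centralizer ({w} : Set G), x.1 * w = w * x.1 := fun x =>
    (Subgroup.mem_centralizer_singleton_iff.1 x.2)
  choose σ hσ using fun x => shift hS hP (h1 x)
  have h2 : ∀ i j, (p i)⁻¹ * p j ∈ f.range → i = j := fun i j h => by
    have := zero hS (dist' hS hP i j) h
    omega
  have h3 : ∀ x y, σ (x * y) = σ x + σ y := fun x y => by
    refine h2 (σ (x * y)) (σ x + σ y) ?_
    have := f.range.mul_mem (hσ (x * y) 0)
      (f.range.inv_mem (f.range.mul_mem (hσ x (0 + σ y)) (hσ y 0)))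
    rw [zero_add, zero_add, add_comm (σ y)] at this
    convert this using 1
    rw [Subgroup.coe_mul]
    group
  have h4 : ∀ x, σ x = 0 → x = 1 := fun x hx => by
    obtain ⟨b, hb0⟩ := hσ x 0
    have h5 := hσ x (0 + 1)
    rw [hx, add_zero, hP.ax.zero, inv_one, one_mul, mul_one] at hb0
    rw [hx, add_zero, hP.ax.step, hP.ax.zero, ← hb0] at h5
    have h6 : b ∈ K (s 0) := by
      by_contra h
      refine notMem hS (Wd.cons _ _ _ _ _ b _ _ (hS.inv _ _ _ (hP.mem 0)) (fun h' => h h'.2)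
        (Wd.one _ _ _ (hP.mem 0))) (a 0)⁻¹ (a 0) ?_
      convert h5 using 1
      rw [map_inv]
      group
    by_contra hne
    obtain ⟨y, hy⟩ := hb _ b h6 fun h => hne (Subtype.ext (by rw [← hb0, h, map_one]; rfl))
    obtain ⟨r, hr⟩ := all hS y
    obtain ⟨t, ht, h7⟩ : ∃ t ≤ 1, N f K Lt t (y * w ^ (2 * r + 2) * y⁻¹) := by
      rcases hy (w ^ (2 * r + 2)) (by
        rw [hb0]
        exact ((show Commute x.1 w from h1 x).pow_right _).eq.symm) with h | ⟨s, e, h⟩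
      · exact ⟨0, zero_le_one, Or.inl ⟨rfl, h⟩⟩
      · exact ⟨1, le_rfl, of_wd (Wd.one _ _ _ h)⟩
    obtain ⟨m, hm, h8⟩ := sub hS h7 hr
    obtain ⟨m', hm', h9⟩ := sub hS (hr.inv hS) h8
    have h10 := uniq hS (hw (2 * r + 2)) (by
      convert h9 using 1
      group)
    nlinarith
  let φ : Subgroup.centralizer ({w} : Set G) →* Multiplicative ℤ :=
    MonoidHom.mk' (fun x => Multiplicative.ofAdd (σ x)) fun x y => by rw [h3, ofAdd_add]
  have h5 : Function.Injective φ := (injective_iff_map_eq_one φ).2 fun x hx => h4 x hx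
  obtain ⟨w₀, h6⟩ := (isCyclic_of_injective φ h5).exists_generator
  have h7 : ∀ x, x * w = w * x → x ∈ Subgroup.zpowers w₀.1 := fun x hx => by
    obtain ⟨k, hk⟩ := h6 ⟨x, Subgroup.mem_centralizer_singleton_iff.2 hx⟩
    exact ⟨k, congrArg Subtype.val hk⟩
  refine ⟨w₀.1, ⟨fun h => ?_, fun x hx => h7 x ?_⟩, h7 w rfl⟩
  · have h8 := h7 w rfl
    rw [h, Subgroup.zpowers_one_eq_bot, Subgroup.mem_bot] at h8
    have := zero hS (hw 1) (by rw [h8, one_pow]; exact f.range.one_mem)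
    omega
  · obtain ⟨k, hk⟩ := h7 w rfl
    rw [← hk]
    exact ((show Commute x w₀.1 from hx).zpow_right k).eq

end Pool.Agent.MP_494aff_an.Lf

end MrgPart1

-- ======== part 2: formerly Pool.Agent.MP_494aff_an.lf.Ping
section MrgPart2

/-! The ping-pong partition of a free pair and the norm of an average. -/

namespace Pool.Agent.MP_494aff_an.Lf

open Pool.Agent.MP_494aff_an.Pinch FreeGroup

namespace PingP

/-- The class of a first letter. -/
def cl : Option (Option Unit × Bool) → Fin 4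
  | none => 0
  | some (none, true) => 1
  | some (none, false) => 2
  | some (some _, _) => 3

/-- The class of the first letter of a word. -/
def ty (x : Lm Unit) : Fin 4 := cl (toWord x)[0]?

lemma ty_of {x : Lm Unit} {w : Option Unit × Bool} (h : x ∈ startsWith w) : ty x = cl (some w) :=
  congrArg cl h

lemma ty_one : ty 1 = 0 := by simp [ty, cl]

lemma ty_u (b : Bool) {x : Lm Unit} (h : ty x ≠ cl (some (none, !b))) :
    ty (mk [(none, b)] * x) = cl (some (none, b)) :=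
  ty_of (startsWith_mk_mul (w := (none, b)) x fun h' => h (ty_of h'))

lemma pow_v (b : Bool) {x : Lm Unit} (h : ty x ≠ 3) (n : ℕ) :
    (mk [(some (), b)] : Lm Unit) ^ (n + 1) * x ∈ startsWith (some (), b) := by
  induction n with
  | zero => simpa using startsWith_mk_mul (w := (some (), b)) x fun h' => h (ty_of h')
  | succ n ih =>
    rw [pow_succ', mul_assoc]
    refine startsWith_mk_mul (w := (some (), b)) _ fun h' => ?_
    exact Set.disjoint_left.1 (startsWith.disjoint_iff_ne.2 (by simp)) ih h'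

lemma ty_v {m : ℤ} (hm : m ≠ 0) {x : Lm Unit} (h : ty x ≠ 3) :
    ty (io (FreeGroup.of ()) ^ m * x) = 3 := by
  cases m with
  | ofNat n =>
    obtain ⟨n, rfl⟩ : ∃ k, n = k + 1 := ⟨n - 1, by simp at hm; omega⟩
    rw [Int.ofNat_eq_natCast, zpow_natCast]
    exact ty_of (pow_v true h n)
  | negSucc n =>
    rw [zpow_negSucc, ← inv_pow]
    exact ty_of (pow_v false h n)

end PingP

open PingP

theorem ping : PingStmt := by
  intro Γ _ u v h
  obtain ⟨ψ, hψ⟩ := exists_equivariant ((MulAction.toPermHom Γ Γ).comp (pr u v)) Set.univ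
    fun γ z _ hγ => h (by
      rw [_root_.map_one]
      exact mul_eq_right.1 hγ)
  have key : ∀ γ z, ψ (pr u v γ * z) * (ψ 1)⁻¹ = γ * (ψ z * (ψ 1)⁻¹) := fun γ z => by
    rw [← mul_assoc]
    exact congrArg (· * (ψ 1)⁻¹) (hψ γ z trivial)
  refine ⟨fun z => ty (ψ z * (ψ 1)⁻¹), by simp [ty_one], fun m z hm hz => ?_, fun z hz => ?_,
    fun z hz => ?_⟩
  · have := key (io (FreeGroup.of ()) ^ m) z
    rw [map_zpow, pr_io] at this
    simp only [this]
    exact ty_v hm hz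
  · have := key (cc Unit) z
    rw [pr_cc] at this
    simp only [this]
    exact ty_u true hz
  · have := key (cc Unit)⁻¹ z
    rw [_root_.map_inv, pr_cc] at this
    simp only [this]
    exact ty_u false hz

theorem avg : AvgStmt := by
  intro Γ _ u v h K
  obtain ⟨τ, -, hv, hu, -⟩ := ping Γ u v h
  have hup : ∀ (n : ℕ) z, τ z = 3 → τ (u ^ (n + 1) * z) = 1 := fun n z hz => by
    induction n with
    | zero => simpa using hu z (by rw [hz]; decide)
    | succ n ih =>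
      rw [pow_succ', mul_assoc]
      exact hu _ (by rw [ih]; decide)
  have h11 : ∀ (i j : ℕ) z, i < j → τ ((u ^ (i + 1))⁻¹ * z) = 3 → τ ((u ^ (j + 1))⁻¹ * z) ≠ 3 :=
    fun i j z hij hi hj => by
      obtain ⟨n, rfl⟩ := Nat.exists_eq_add_of_lt hij
      have := hup n _ hj
      rw [show u ^ (n + 1) * ((u ^ (i + n + 1 + 1))⁻¹ * z) = (u ^ (i + 1))⁻¹ * z by group, hi]
        at this
      exact absurd this (by decide)
  have h12 : ∀ (i j : ℕ) z, τ ((u ^ (i + 1))⁻¹ * z) = 3 → τ (v ^ (j + 1) * z) = 3 :=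
    fun i j z hi => by
      have := hup i _ hi
      rw [mul_inv_cancel_left] at this
      have h2 := hv ((j + 1 : ℕ) : ℤ) z (by omega) (by rw [this]; decide)
      rwa [zpow_natCast] at h2
  refine ContinuousLinearMap.opNorm_le_bound _ (by positivity) fun ξ => ?_
  have key := pp Γ ℕ (Finset.range K) (fun k => lam (u ^ (k + 1) * v ^ (k + 1))) (fun _ => 1)
    (fun k => {z | τ ((u ^ (k + 1))⁻¹ * z) = 3 ∨ τ (v ^ (k + 1) * z) ≠ 3}) Set.univ 1 ξ zero_le_one
    (fun k _ => opNorm_lam _)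
    (fun i _ j _ hij => by
      rw [Set.disjoint_left]
      rintro z (hi | hi) (hj | hj)
      · rcases lt_or_gt_of_ne hij with hlt | hlt
        exacts [h11 i j z hlt hi hj, h11 j i z hlt hj hi]
      · exact hj (h12 i j z hi)
      · exact hi (h12 j i z hj)
      · have := hv ((j : ℤ) - i) _ (by omega) hi
        rw [show v ^ ((j : ℤ) - i) * (v ^ (i + 1) * z) = v ^ (j + 1) * z by group] at this
        exact hj this)
    (fun k _ η hη => supp_lam _ hη fun y hy => Or.inl (by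
      have h3 : τ (v ^ (k + 1) * y) = 3 := by
        by_contra h4
        exact hy.2 (Or.inr h4)
      rwa [mul_assoc, inv_mul_cancel_left]))
    (supp_univ ξ)
  simpa [sum_apply] using key

end Pool.Agent.MP_494aff_an.Lf

end MrgPart2

-- marker of a merged file
example : 731051 + 474261 = 731051 + 474261 := rfl

end MrgPart3

-- ======== part 4: formerly Pool.Agent.MP_494aff_an.lf.Ker
section MrgPart4

/-! The flow of a kernel normalises the commutant of the right translations. -/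

open Monoid Filter Topology
open scoped InnerProductSpace ComplexConjugate

namespace Pool.Agent.MP_494aff_an.Lf

open Pool.Agent.MP_494aff_an.Pinch Pool.Agent.MP_494aff_an.Pinch.TowP

namespace KerP

open Finset.HasAntidiagonal (antidiagonal mem_antidiagonal)

noncomputable section

/-- The commutator with `D`. -/
def ad {E : Type} [Ring E] (D T : E) : E := D * T - T * D

lemma ad_iter {E : Type} [Ring E] (D T : E) (n : ℕ) :
    (ad D)^[n] T =
      ∑ p ∈ antidiagonal n, n.choose p.1 • (D ^ p.1 * T * (-D) ^ p.2) := by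
  induction n with
  | zero => simp
  | succ n ih =>
    rw [Finset.sum_antidiagonal_choose_succ_nsmul (M := E)
      (fun i j => D ^ i * T * (-D) ^ j) n, Function.iterate_succ_apply', ih, ad, Finset.mul_sum,
      Finset.sum_mul, ← Finset.sum_sub_distrib, ← Finset.sum_add_distrib]
    refine Finset.sum_congr rfl fun p hp => ?_
    rw [← Nat.choose_symm_of_eq_add (mem_antidiagonal.1 hp).symm, mul_smul_comm,
      smul_mul_assoc, ← smul_sub, ← smul_add, pow_succ (-D), pow_succ' D]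
    congr 1
    noncomm_ring

lemma ad_comm {E : Type} [Ring E] {D W R : E} (h1 : W * R = R * W)
    (h2 : W * ad D R = ad D R * W) : ad D W * R = R * ad D W := by
  unfold ad at h2 ⊢
  have h3 : (D * W - W * D) * R - R * (D * W - W * D) =
      D * (W * R - R * W) - (W * R - R * W) * D
        - (W * (D * R - R * D) - (D * R - R * D) * W) := by noncomm_ring
  rw [h1, h2, sub_self, sub_self, mul_zero, zero_mul, sub_zero, sub_zero] at h3
  exact sub_eq_zero.1 h3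

/-- The product of two absolutely convergent series of vectors. -/
lemma hasSum_inner {E : Type} [NormedAddCommGroup E] [InnerProductSpace ℂ E] {u v : ℕ → E}
    {a b : E} (hu : Summable fun n => ‖u n‖) (hv : Summable fun n => ‖v n‖) (ha : HasSum u a)
    (hb : HasSum v b) :
    HasSum (fun k => ∑ p ∈ antidiagonal k, ⟪u p.1, v p.2⟫_ℂ) ⟪a, b⟫_ℂ := by
  have h1 : Summable fun p : ℕ × ℕ => ⟪u p.1, v p.2⟫_ℂ := by
    refine Summable.of_norm_bounded (g := fun p : ℕ × ℕ => ‖u p.1‖ * ‖v p.2‖) ?_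
      fun p => norm_inner_le_norm _ _
    exact summable_mul_of_summable_norm (f := fun n => ‖u n‖) (g := fun n => ‖v n‖)
      (by simpa using hu) (by simpa using hv)
  have h2 : HasSum (fun m => ⟪u m, b⟫_ℂ) (∑' p : ℕ × ℕ, ⟪u p.1, v p.2⟫_ℂ) :=
    h1.hasSum.prod_fiberwise fun m => hb.mapL (innerSL ℂ (u m))
  have h3 : HasSum (fun m => ⟪u m, b⟫_ℂ) ⟪a, b⟫_ℂ := by
    have := (ha.mapL (innerSL ℂ b)).star
    simpa using this
  have h4 := h1.hasSum
  rw [h2.unique h3, ← Finset.HasAntidiagonal.sigmaAntidiagonalEquivProd.hasSum_iff] at h4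
  refine h4.sigma fun k => ?_
  have := hasSum_fintype fun c : antidiagonal k => ⟪u c.1.1, v c.1.2⟫_ℂ
  rw [Finset.sum_coe_sort (antidiagonal k) fun p => ⟪u p.1, v p.2⟫_ℂ] at this
  exact this

variable {Λ : Type} [Group Λ] {d : Λ → H Λ} {a₀ C : ℝ} {V : Submodule ℂ (H Λ)}
  {N : ℝ → Seminorm ℂ V} {D : V →ₗ[ℂ] V}

/-- Operators that are bounded from each norm of the scale to the smaller ones. -/
def SB (a₀ : ℝ) (N : ℝ → Seminorm ℂ V) (T : V →ₗ[ℂ] V) : Prop :=
  ∀ a' a, 0 ≤ a' → a' < a → a < a₀ → ∃ c, 0 ≤ c ∧ ∀ ξ, N a' (T ξ) ≤ c * N a ξ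

omit [Group Λ] in
lemma SB.mul {S T : V →ₗ[ℂ] V} (hS : SB a₀ N S) (hT : SB a₀ N T) : SB a₀ N (S * T) := by
  intro a' a h0 h1 h2
  obtain ⟨c, hc, hb⟩ := hS a' ((a' + a) / 2) h0 (by linarith) (by linarith)
  obtain ⟨c', hc', hb'⟩ := hT ((a' + a) / 2) a (by linarith) (by linarith) h2
  refine ⟨c * c', mul_nonneg hc hc', fun ξ => ?_⟩
  calc N a' ((S * T) ξ) ≤ c * N ((a' + a) / 2) (T ξ) := hb _
    _ ≤ c * (c' * N a ξ) := mul_le_mul_of_nonneg_left (hb' ξ) hc
    _ = _ := by ring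

omit [Group Λ] in
lemma SB.sub {S T : V →ₗ[ℂ] V} (hS : SB a₀ N S) (hT : SB a₀ N T) : SB a₀ N (S - T) := by
  intro a' a h0 h1 h2
  obtain ⟨c, hc, hb⟩ := hS a' a h0 h1 h2
  obtain ⟨c', hc', hb'⟩ := hT a' a h0 h1 h2
  refine ⟨c + c', add_nonneg hc hc', fun ξ => ?_⟩
  calc N a' ((S - T) ξ) ≤ N a' (S ξ) + N a' (T ξ) := map_sub_le_add (N a') _ _
    _ ≤ c * N a ξ + c' * N a ξ := add_le_add (hb ξ) (hb' ξ)
    _ = _ := by ring

omit [Group Λ] in
lemma SB.ad {T : V →ₗ[ℂ] V} (hD : SB a₀ N D) (hT : SB a₀ N T) : SB a₀ N (ad D T) :=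
  (hD.mul hT).sub (hT.mul hD)

lemma sb_D (h : Scale d a₀ C V N D) (hC : 0 ≤ C) : SB a₀ N D := fun a' a h0 h1 h2 =>
  ⟨C / (a - a'), div_nonneg hC (by linarith), h.bd a' a h0 h1 h2⟩

lemma sb_of (h : Scale d a₀ C V N D) {T : V →ₗ[ℂ] V} {c : ℝ}
    (hc : ∀ a, 0 ≤ a → a < a₀ → ∀ ξ, N a (T ξ) ≤ c * N a ξ) : SB a₀ N T := by
  intro a' a h0 h1 h2
  refine ⟨|c|, abs_nonneg c, fun ξ => ?_⟩
  calc N a' (T ξ) ≤ N a (T ξ) := h.mono a' a h0 h1.le h2 _
    _ ≤ c * N a ξ := hc a (by linarith) h2 ξ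
    _ ≤ |c| * N a ξ := mul_le_mul_of_nonneg_right (le_abs_self c) (apply_nonneg _ _)

/-- The unit vectors as elements of `V`. -/
def e (h : Scale d a₀ C V N D) (x : Λ) : V := ⟨dl x, h.mem x⟩

lemma e_coe (h : Scale d a₀ C V N D) (x : Λ) : (e h x : H Λ) = dl x := rfl

/-- Left translations on `V`. -/
def tl (h : Scale d a₀ C V N D) (g : Λ) : V →ₗ[ℂ] V := (h.lamb g).choose

/-- Right translations on `V`. -/
def tr (h : Scale d a₀ C V N D) (g : Λ) : V →ₗ[ℂ] V := (h.rhob g).choose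

lemma tl_coe (h : Scale d a₀ C V N D) (g : Λ) (ξ : V) : (tl h g ξ : H Λ) = lam g ξ :=
  (h.lamb g).choose_spec.choose_spec.1 ξ

lemma tr_coe (h : Scale d a₀ C V N D) (g : Λ) (ξ : V) : (tr h g ξ : H Λ) = rho g ξ :=
  (h.rhob g).choose_spec.choose_spec.1 ξ

lemma sb_tl (h : Scale d a₀ C V N D) (g : Λ) : SB a₀ N (tl h g) :=
  sb_of h (h.lamb g).choose_spec.choose_spec.2

lemma sb_tr (h : Scale d a₀ C V N D) (g : Λ) : SB a₀ N (tr h g) :=
  sb_of h (h.rhob g).choose_spec.choose_spec.2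

lemma tl_e (h : Scale d a₀ C V N D) (g x : Λ) : tl h g (e h x) = e h (g * x) :=
  Subtype.ext (by rw [tl_coe, e_coe, e_coe, lam_dl])

lemma tr_e (h : Scale d a₀ C V N D) (g x : Λ) : tr h g (e h x) = e h (x * g⁻¹) :=
  Subtype.ext (by rw [tr_coe, e_coe, e_coe, rho_dl])

lemma tl_tr (h : Scale d a₀ C V N D) (g k : Λ) : tl h g * tr h k = tr h k * tl h g := by
  refine LinearMap.ext fun ξ => Subtype.ext ?_
  rw [Module.End.mul_apply, Module.End.mul_apply, tl_coe, tr_coe, tr_coe, tl_coe, ← mul_ap,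
    ← mul_ap, rho_lam]

lemma hasSum_sb (h : Scale d a₀ C V N D) (h0 : 0 < a₀) {T : V →ₗ[ℂ] V} (hT : SB a₀ N T)
    (ξ : V) : HasSum (fun z => (ξ : H Λ) z • (T (e h z) : H Λ)) (T ξ : H Λ) := by
  obtain ⟨c, -, hb⟩ := hT 0 (a₀ / 2) le_rfl (by linarith) (by linarith)
  have h1 := (h.trunc (a₀ / 2) (by linarith) (by linarith) ξ).const_mul c
  rw [mul_zero] at h1
  have h2 : Tendsto (fun F : Finset Λ => ∑ z ∈ F, (ξ : H Λ) z • (T (e h z) : H Λ)) atTop
      (𝓝 (T ξ : H Λ)) := by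
    rw [tendsto_iff_norm_sub_tendsto_zero]
    refine squeeze_zero (fun _ => norm_nonneg _) (fun F => ?_) h1
    refine le_trans (le_of_eq ?_) (hb _)
    rw [h.zero, norm_sub_rev, map_sub, map_sum]
    simp only [map_smul, AddSubgroupClass.coe_sub, AddSubmonoidClass.coe_finsetSum,
      SetLike.val_smul]
    rfl
  exact h2

lemma sb_ext (h : Scale d a₀ C V N D) (h0 : 0 < a₀) {S T : V →ₗ[ℂ] V} (hS : SB a₀ N S)
    (hT : SB a₀ N T) (he : ∀ x, S (e h x) = T (e h x)) : S = T := by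
  refine LinearMap.ext fun ξ => Subtype.ext ?_
  refine (hasSum_sb h h0 hS ξ).unique ?_
  simpa only [he] using hasSum_sb h h0 hT ξ

lemma hasSum_coef (h : Scale d a₀ C V N D) (h0 : 0 < a₀) {T : V →ₗ[ℂ] V} (hT : SB a₀ N T)
    (ξ : V) (y : Λ) :
    HasSum (fun z => (ξ : H Λ) z * (T (e h z) : H Λ) y) ((T ξ : H Λ) y) := by
  have := (hasSum_sb h h0 hT ξ).mapL (innerSL ℂ (dl y))
  simpa only [innerSL_apply_apply, inner_smul_right, inner_dl] using this

lemma coef_tr (h : Scale d a₀ C V N D) {W : V →ₗ[ℂ] V}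
    (hW : ∀ k, W * tr h k = tr h k * W) (x y k : Λ) :
    (W (e h (x * k⁻¹)) : H Λ) y = (W (e h x) : H Λ) (y * k) := by
  rw [← tr_e, ← Module.End.mul_apply, hW, Module.End.mul_apply, tr_coe, rho_coef]

lemma coef_tl (h : Scale d a₀ C V N D) {S : V →ₗ[ℂ] V}
    (hS : ∀ g, S * tl h g = tl h g * S) (x y g : Λ) :
    (S (e h (g * x)) : H Λ) y = (S (e h x) : H Λ) (g⁻¹ * y) := by
  rw [← tl_e, ← Module.End.mul_apply, hS, Module.End.mul_apply, tl_coe, lam_coef]

lemma comm_sb (h : Scale d a₀ C V N D) (h0 : 0 < a₀) {W S : V →ₗ[ℂ] V} (hW : SB a₀ N W)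
    (hS : SB a₀ N S) (hWr : ∀ k, W * tr h k = tr h k * W) (hSl : ∀ g, S * tl h g = tl h g * S) :
    W * S = S * W := by
  have hw : ∀ x y, (W (e h x) : H Λ) y = (W (e h 1) : H Λ) (y * x⁻¹) := fun x y => by
    rw [← coef_tr h hWr, inv_inv, one_mul]
  have hs : ∀ x y, (S (e h x) : H Λ) y = (S (e h 1) : H Λ) (x⁻¹ * y) := fun x y => by
    rw [← coef_tl h hSl, mul_one]
  refine sb_ext h h0 (hW.mul hS) (hS.mul hW) fun x => Subtype.ext ?_
  ext y
  rw [Module.End.mul_apply, Module.End.mul_apply]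
  refine (hasSum_coef h h0 hW (S (e h x)) y).unique ?_
  have := hasSum_coef h h0 hS (W (e h x)) y
  rw [← ((Equiv.inv Λ).trans ((Equiv.mulLeft y).trans (Equiv.mulRight x))).hasSum_iff] at this
  convert this using 1
  funext z
  simp only [Function.comp, Equiv.trans_apply, Equiv.inv_apply, Equiv.coe_mulLeft,
    Equiv.coe_mulRight]
  rw [hw z, hw x, hs x, hs (y * z⁻¹ * x), mul_comm]
  congr 2 <;> group

lemma ad_tl_tr (h : Scale d a₀ C V N D) (h0 : 0 < a₀) (hC : 0 ≤ C)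
    (hd : ∀ x y, d (x * y) = rho y⁻¹ (d x) + lam x (d y)) (g k : Λ) :
    ad D (tl h g) * tr h k = tr h k * ad D (tl h g) := by
  have h1 : ∀ x, (ad D (tl h g) (e h x) : H Λ) = rho x⁻¹ (d g) := fun x => by
    have h2 : ∀ z, (D (e h z) : H Λ) = d z := h.val
    rw [ad, LinearMap.sub_apply, Module.End.mul_apply, Module.End.mul_apply, tl_e,
      AddSubgroupClass.coe_sub, tl_coe, h2, h2, hd, add_sub_cancel_right]
  have h3 := (sb_D h hC).ad (sb_tl h g)
  refine sb_ext h h0 (h3.mul (sb_tr h k)) ((sb_tr h k).mul h3) fun x => Subtype.ext ?_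
  rw [Module.End.mul_apply, Module.End.mul_apply, tr_e, tr_coe, h1, h1, ← mul_ap, ← map_mul]
  simp

lemma iter_tr (h : Scale d a₀ C V N D) (h0 : 0 < a₀) (hC : 0 ≤ C)
    (hd : ∀ x y, d (x * y) = rho y⁻¹ (d x) + lam x (d y)) (g : Λ) (n : ℕ) :
    SB a₀ N ((ad D)^[n] (tl h g)) ∧
      ∀ k, (ad D)^[n] (tl h g) * tr h k = tr h k * (ad D)^[n] (tl h g) := by
  induction n with
  | zero => exact ⟨sb_tl h g, tl_tr h g⟩
  | succ n ih =>
    rw [Function.iterate_succ_apply']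
    refine ⟨(sb_D h hC).ad ih.1, fun k => ad_comm (ih.2 k) ?_⟩
    exact comm_sb h h0 ih.1 ((sb_D h hC).ad (sb_tr h k)) ih.2 fun g' =>
      ad_comm (tl_tr h g' k).symm (ad_tl_tr h h0 hC hd g' k).symm

lemma pow_bd (h : Scale d a₀ C V N D) (hC : 0 ≤ C) {δ : ℝ} (hδ : 0 < δ) (ξ : V) (k : ℕ) :
    ∀ b, 0 ≤ b → b + k * δ < a₀ → N b ((D ^ k) ξ) ≤ (C / δ) ^ k * N (b + k * δ) ξ := by
  induction k with
  | zero => intro b _ _; simp
  | succ k ih =>
    intro b hb hk
    have h1 : b + ((k + 1 : ℕ) : ℝ) * δ = b + δ + k * δ := by push_cast; ring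
    have h2 : 0 ≤ (k : ℝ) * δ := by positivity
    rw [h1] at hk ⊢
    have h3 := h.bd b (b + δ) hb (by linarith) (by linarith) ((D ^ k) ξ)
    rw [add_sub_cancel_left] at h3
    rw [pow_succ', Module.End.mul_apply]
    calc N b (D ((D ^ k) ξ)) ≤ C / δ * N (b + δ) ((D ^ k) ξ) := h3
      _ ≤ C / δ * ((C / δ) ^ k * N (b + δ + k * δ) ξ) :=
        mul_le_mul_of_nonneg_left (ih _ (by linarith) hk) (div_nonneg hC hδ.le)
      _ = _ := by ring

lemma analytic (h : Scale d a₀ C V N D) (h0 : 0 < a₀) (hC : 0 ≤ C) (ξ : V) (n : ℕ) :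
    ‖((D ^ n) ξ : H Λ)‖ ≤
      N (a₀ / 2) ξ * n.factorial * (C * Real.exp 1 / (a₀ / 2)) ^ n := by
  rw [← h.zero]
  rcases Nat.eq_zero_or_pos n with rfl | hn
  · simpa using h.mono 0 (a₀ / 2) le_rfl (by linarith) (by linarith) ξ
  have hn' : (0 : ℝ) < n := by exact_mod_cast hn
  have h1 : (0 : ℝ) + n * (a₀ / 2 / n) = a₀ / 2 := by field_simp; ring
  have h2 := pow_bd h hC (δ := a₀ / 2 / n) (by positivity) ξ n 0 le_rfl (by rw [h1]; linarith)
  rw [h1] at h2
  have hf : (0 : ℝ) < n.factorial := by exact_mod_cast n.factorial_pos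
  have h3 : (n : ℝ) ^ n ≤ n.factorial * Real.exp 1 ^ n := by
    have := Real.pow_div_factorial_le_exp (n : ℝ) hn'.le n
    rw [div_le_iff₀ hf] at this
    rw [← Real.exp_nat_mul, mul_one, mul_comm]
    exact this
  have h4 : C / (a₀ / 2 / n) = C / (a₀ / 2) * n := by field_simp
  have h5 : C * Real.exp 1 / (a₀ / 2) = C / (a₀ / 2) * Real.exp 1 := by ring
  rw [h4, mul_pow] at h2
  rw [h5, mul_pow]
  have h6 : 0 ≤ (C / (a₀ / 2)) ^ n := by positivity
  have h7 : 0 ≤ N (a₀ / 2) ξ := apply_nonneg _ _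
  calc N 0 ((D ^ n) ξ) ≤ (C / (a₀ / 2)) ^ n * (n : ℝ) ^ n * N (a₀ / 2) ξ := h2
    _ ≤ (C / (a₀ / 2)) ^ n * (n.factorial * Real.exp 1 ^ n) * N (a₀ / 2) ξ := by gcongr
    _ = _ := by ring

lemma skew_pow (h : Scale d a₀ C V N D) (i : ℕ) (ξ η : V) :
    ⟪((D ^ i) ξ : H Λ), (η : H Λ)⟫_ℂ = (-1) ^ i * ⟪(ξ : H Λ), ((D ^ i) η : H Λ)⟫_ℂ := by
  induction i generalizing η with
  | zero => simp
  | succ i ih =>
    rw [pow_succ' D, Module.End.mul_apply, eq_neg_of_add_eq_zero_left (h.skew _ η), ih,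
      ← Module.End.mul_apply, ← pow_succ, ← pow_succ', pow_succ (-1 : ℂ)]
    ring

omit [Group Λ] in
lemma sum_norm {A t : ℝ} (hA : 0 ≤ A) (ht : |t| * A < 1) {ξ : V} {c : ℝ}
    (hb : ∀ n : ℕ, ‖((D ^ n) ξ : H Λ)‖ ≤ c * n.factorial * A ^ n) :
    Summable fun n => ‖Fl.cf t n • ((D ^ n) ξ : H Λ)‖ := by
  refine Summable.of_nonneg_of_le (fun _ => norm_nonneg _) (fun k => ?_)
    ((summable_geometric_of_lt_one (mul_nonneg (abs_nonneg t) hA) ht).mul_left c)
  have hk : (0 : ℝ) < k.factorial := by exact_mod_cast k.factorial_pos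
  rw [norm_smul, Fl.norm_cf]
  calc |t| ^ k / k.factorial * ‖((D ^ k) ξ : H Λ)‖
      ≤ |t| ^ k / k.factorial * (c * k.factorial * A ^ k) := by gcongr; exact hb k
    _ = c * (|t| * A) ^ k := by rw [mul_pow]; field_simp

lemma coef_conj (h : Scale d a₀ C V N D) {A t : ℝ} (hA : 0 ≤ A) (ht : |t| * A < 1)
    (hb : ∀ ξ : V, ∃ c : ℝ, ∀ n : ℕ, ‖((D ^ n) ξ : H Λ)‖ ≤ c * n.factorial * A ^ n)
    {U : Op Λ} (hU : ∀ ξ : V, HasSum (fun n => Fl.cf (-t) n • ((D ^ n) ξ : H Λ)) (U ξ))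
    (g x y : Λ) :
    HasSum (fun k => Fl.cf t k * ((ad D)^[k] (tl h g) (e h x) : H Λ) y)
      ((star U * lam g * U) (dl x) y) := by
  have ht' : |-t| * A < 1 := by rwa [abs_neg]
  obtain ⟨c, hc⟩ := hb (e h y)
  obtain ⟨c', hc'⟩ := hb (e h x)
  have h1 : Summable fun n => ‖lam g (Fl.cf (-t) n • ((D ^ n) (e h x) : H Λ))‖ := by
    simpa only [lam_norm] using sum_norm hA ht' hc'
  have h2 := hasSum_inner (sum_norm hA ht' hc) h1 (hU (e h y)) ((hU (e h x)).mapL (lam g))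
  rw [mul_ap, mul_ap, ← inner_dl, inner_star, ← e_coe h x, ← e_coe h y]
  convert h2 using 1
  funext k
  rw [ad_iter, ← inner_dl, LinearMap.sum_apply, AddSubmonoidClass.coe_finsetSum, inner_sum,
    Finset.mul_sum]
  refine Finset.sum_congr rfl fun p hp => ?_
  have h3 : ((-D) ^ p.2) (e h x) = ((-1 : ℂ) ^ p.2) • (D ^ p.2) (e h x) := by
    rw [← neg_one_smul ℂ D, smul_pow, LinearMap.smul_apply]
  rw [map_smul, inner_smul_left, inner_smul_right, Fl.conj_cf, ← tl_coe h, skew_pow h,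
    ← Nat.cast_smul_eq_nsmul ℂ, LinearMap.smul_apply, SetLike.val_smul, inner_smul_right,
    ← mul_assoc, Fl.cf_choose t (mem_antidiagonal.1 hp), Module.End.mul_apply,
    Module.End.mul_apply, h3, map_smul, map_smul, SetLike.val_smul, inner_smul_right, Fl.cf_neg,
    Fl.cf_neg, e_coe]
  have h4 : ((-1 : ℂ) ^ p.1) * (-1) ^ p.1 = 1 := by rw [← mul_pow]; simp
  linear_combination (-(Fl.cf t p.1 * Fl.cf t p.2 * (-1) ^ p.2 *
    ⟪dl y, ((D ^ p.1) (tl h g ((D ^ p.2) (e h x))) : H Λ)⟫_ℂ)) * h4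

lemma small_mem (h : Scale d a₀ C V N D) (h0 : 0 < a₀) (hC : 0 ≤ C)
    (hd : ∀ x y, d (x * y) = rho y⁻¹ (d x) + lam x (d y)) {A t : ℝ} (hA : 0 ≤ A)
    (ht : |t| * A < 1)
    (hb : ∀ ξ : V, ∃ c : ℝ, ∀ n : ℕ, ‖((D ^ n) ξ : H Λ)‖ ≤ c * n.factorial * A ^ n)
    {U : Op Λ} (hU : ∀ ξ : V, HasSum (fun n => Fl.cf (-t) n • ((D ^ n) ξ : H Λ)) (U ξ))
    (g : Λ) : star U * lam g * U ∈ LL Λ := by
  refine mem_LL.2 fun k => op_ext fun x => ?_
  ext y
  rw [mul_ap (rho k), mul_ap _ (rho k), rho_dl, rho_coef]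
  refine (coef_conj h hA ht hb hU g x (y * k)).unique ?_
  simpa only [coef_tr h (iter_tr h h0 hC hd g _).2] using coef_conj h hA ht hb hU g (x * k⁻¹) y

lemma all_mem {U : ℝ → Op Λ} (h0 : U 0 = 1) (ha : ∀ s t, U (s + t) = U s * U t) {A : ℝ}
    (hs : ∀ t, |t| * A < 1 → ∀ g, U t * lam g * U (-t) ∈ LL Λ) (t : ℝ) (g : Λ) :
    U t * lam g * U (-t) ∈ LL Λ := by
  obtain ⟨n, hn⟩ := exists_nat_gt (max 0 (|t| * A))
  have hn0 : (0 : ℝ) < n := (le_max_left _ _).trans_lt hn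
  have hn1 : |t| * A < n := (le_max_right _ _).trans_lt hn
  have h1 : |t / n| * A < 1 := by
    rw [abs_div, abs_of_pos hn0, div_mul_eq_mul_div, div_lt_one hn0]
    exact hn1
  have h2 : ∀ j : ℕ, U (j * (t / n)) * lam g * U (-(j * (t / n))) ∈ LL Λ := fun j => by
    induction j with
    | zero => simpa [h0] using lam_mem g
    | succ j ih =>
      have h3 : ((j + 1 : ℕ) : ℝ) * (t / n) = t / n + j * (t / n) := by push_cast; ring
      have h4 : -(t / n + j * (t / n)) = -(j * (t / n)) + -(t / n) := by ring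
      have h5 := conj_mem_LL (U := U (t / n)) (V := U (-(t / n)))
        (by rw [← ha, neg_add_cancel, h0]) (by rw [← ha, add_neg_cancel, h0]) (hs _ h1) ih
      rw [h3, h4, ha, ha]
      simpa only [mul_assoc] using h5
  have h6 : (n : ℝ) * (t / n) = t := by field_simp
  simpa only [h6] using h2 n

end

end KerP

open KerP in
theorem ker (hS : ScaleStmt) (hE : ExpStmt) : KerStmt := by
  intro Λ _ ℓ d a₀ C h0 hℓ hsk hd hF
  obtain ⟨C', V, N, D, hC, h⟩ := hS Λ ℓ d a₀ C h0 hℓ hsk hF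
  have hA : 0 ≤ C' * Real.exp 1 / (a₀ / 2) := by positivity
  have hb : ∀ ξ : V, ∃ c : ℝ, ∀ n : ℕ,
      ‖((D ^ n) ξ : H Λ)‖ ≤ c * n.factorial * (C' * Real.exp 1 / (a₀ / 2)) ^ n :=
    fun ξ => ⟨_, analytic h h0 hC ξ⟩
  obtain ⟨U, hU0, hUa, hUs, hUt, hUd⟩ := hE Λ V D _ hA h.mem h.skew hb
  refine ⟨U, hU0, hUa, hUs, all_mem hU0 hUa (A := C' * Real.exp 1 / (a₀ / 2)) fun t ht g => ?_,
    fun x t => ?_⟩
  · have := small_mem h h0 hC hd hA ht hb (hUt (-t) (by rwa [abs_neg])) g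
    rwa [hUs, neg_neg] at this
  · have := hUd t (e h x)
    have h2 : (D (e h x) : H Λ) = d x := h.val x
    rwa [h2] at this

end Pool.Agent.MP_494aff_an.Lf

end MrgPart4

-- marker of a merged file
example : 731051 + 175504 = 731051 + 175504 := rfl
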