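import Mathlib
import Pool.Agent.MP_494aff_an.se.Dim
import Pool.Agent.MP_494aff_an.fr.Qb
import Pool.Agent.MP_494aff_an.lf.Scale
import Pool.Agent.MP_494aff_an.pinch.AttA
import Pool.Agent.MP_494aff_an.pinch.Hseq

-- ======== part 0: formerly Pool.Agent.MP_494aff_an.hi.Prune
section MrgPart0

-- ======== part 0: formerly Pool.Agent.MP_494aff_an.hi.Sys
section MrgPart0

/-! Band systems and their moves. -/

open scoped Pointwise

namespace Pool.Agent.MP_494aff_an.Hi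

open Pool.Agent.MP_494aff_an.Se

noncomputable section

open Classical

/-- Active, abelian, quadratic. -/
inductive Ty
  | act
  | ab
  | qd

/-- Components `J`, bands `B`; a band has a domain, two darts and finitely many steps. -/
structure Sys (G T J B : Type) where
  al : B → ℝ
  be : B → ℝ
  cp : B × Bool → J
  a : B × Bool → ℝ
  e : B × Bool → ℝ
  ga : B × Bool → G
  st : B → Finset ℝ
  ty : J → Ty
  io : J → ℝ → T

/-- The other dart of the band. -/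
def op {B : Type} (d : B × Bool) : B × Bool := (d.1, !d.2)

namespace Sys

section Defs

variable {G T J B J' B' : Type} (S : Sys G T J B)

def pos (d : B × Bool) (t : ℝ) : ℝ := S.a d + S.e d * t

def lo (d : B × Bool) : ℝ := min (S.pos d (S.al d.1)) (S.pos d (S.be d.1))

def hi (d : B × Bool) : ℝ := max (S.pos d (S.al d.1)) (S.pos d (S.be d.1))

/-- The base of a dart. -/
def Bs (d : B × Bool) : Set ℝ := Set.Icc (S.lo d) (S.hi d)

/-- Positive width. -/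
def Pos (b : B) : Prop := S.al b < S.be b

/-- Positive and active. -/
def PA (d : B × Bool) : Prop := S.Pos d.1 ∧ S.ty (S.cp d) = Ty.act

/-- Sign of the map from the base of `d` to the other base. -/
def sg (d : B × Bool) : ℝ := S.e (op d) * S.e d

/-- Offset of this map. -/
def of (d : B × Bool) : ℝ := S.a (op d) - S.sg d * S.a d

/-- The open bases meet. -/
def Ov (d d' : B × Bool) : Prop :=
  S.cp d = S.cp d' ∧ ∃ x, S.lo d < x ∧ x < S.hi d ∧ S.lo d' < x ∧ x < S.hi d'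

def TyOK : Prop := ∀ d, S.Pos d.1 → S.ty (S.cp d) = S.ty (S.cp (op d))

def QdOK : Prop :=
  ∀ d₁ d₂ d₃ x, d₁ ≠ d₂ → d₁ ≠ d₃ → d₂ ≠ d₃ → S.cp d₂ = S.cp d₁ → S.cp d₃ = S.cp d₁ →
    S.ty (S.cp d₁) = Ty.qd → S.lo d₁ < x → x < S.hi d₁ → S.lo d₂ < x → x < S.hi d₂ →
    S.lo d₃ < x → x < S.hi d₃ → False

/-- Weight at least two off a finite set. -/
def W2 : Prop :=
  ∃ Q : Finset ℝ, ∀ d, S.PA d → ∀ x ∈ S.Bs d, x ∉ Q →
    ∃ d', d' ≠ d ∧ S.PA d' ∧ S.cp d' = S.cp d ∧ x ∈ S.Bs d'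

/-- The number of positive active darts. -/
def nE [Fintype B] : ℕ := (Finset.univ.filter S.PA).card

/-- The cycle space. -/
def cyc [Fintype B] : Submodule ℚ (B → ℚ) where
  carrier := {w | (∀ b, w b ≠ 0 → S.PA (b, false) ∧ S.PA (b, true)) ∧
    ∀ X : Set (B × Bool), (∀ d d', S.PA d → S.PA d' → S.Ov d d' → d ∈ X → d' ∈ X) →
      ∑ b, w b * ((if (b, false) ∈ X then 1 else 0) - (if (b, true) ∈ X then 1 else 0)) = 0}
  zero_mem' := ⟨fun _ h => absurd rfl h, fun _ _ => by simp⟩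
  add_mem' := by
    rintro w w' ⟨h1, h2⟩ ⟨h3, h4⟩
    refine ⟨fun b hb => ?_, fun X hX => ?_⟩
    · by_cases h : w b = 0
      · exact h3 b fun h' => hb (by simp [h, h'])
      · exact h1 b h
    · simp only [Pi.add_apply, add_mul, Finset.sum_add_distrib, h2 X hX, h4 X hX, add_zero]
  smul_mem' := by
    rintro c w ⟨h1, h2⟩
    refine ⟨fun b hb => h1 b fun h => hb (by simp [h]), fun X hX => ?_⟩
    simp only [Pi.smul_apply, smul_eq_mul, mul_assoc, ← Finset.mul_sum, h2 X hX, mul_zero]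

/-- The complexity. -/
def cx [Fintype B] : ℕ := Module.finrank ℚ S.cyc

variable [Group G]

/-- Label of the map from the base of `d` to the other base. -/
def lb (d : B × Bool) : G := S.ga (op d) * (S.ga d)⁻¹

def Geo [MulAction G T] : Prop :=
  ∀ d t, S.al d.1 ≤ t → t ≤ S.be d.1 →
    (S.ga d)⁻¹ • S.io (S.cp d) (S.pos d t) = (S.ga (op d))⁻¹ • S.io (S.cp (op d)) (S.pos (op d) t)

/-- Solutions: cocycles that are trivial on the cover of the graph of steps. -/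
def Sol (u : B × Bool → F2) : Prop :=
  ∃ f : J → ℝ → G → F2, ∀ d, ∀ t ∈ S.st d.1, ∀ g,
    (u d)⁻¹ * f (S.cp d) (S.pos d t) (S.ga d * g) =
      (u (op d))⁻¹ * f (S.cp (op d)) (S.pos (op d) t) (S.ga (op d) * g)

def Ext : Prop :=
  ∀ u, S.Sol u → ∃ (Ψ : G →* F2) (y : J → F2) (w : B → F2),
    ∀ d, u d = y (S.cp d) * Ψ (S.ga d) * (w d.1)⁻¹

def Conn : Prop :=
  ∀ X : J → Set G, (∀ d g, S.ga d * g ∈ X (S.cp d) → S.ga (op d) * g ∈ X (S.cp (op d))) →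
    ∀ j g, g ∈ X j → ∀ j' g', g' ∈ X j'

structure Core [MulAction G T] : Prop where
  ne : Nonempty J
  le : ∀ b, S.al b ≤ S.be b
  sg : ∀ d, S.e d = 1 ∨ S.e d = -1
  stm : ∀ b, ∀ t ∈ S.st b, S.al b ≤ t ∧ t ≤ S.be b
  geo : S.Geo
  ext : S.Ext
  conn : S.Conn

omit [Group G] in
def AbOK (Ln : Set (Set T)) : Prop :=
  ∃ A : J → Set T, (∀ j, S.ty j = Ty.ab → A j ∈ Ln) ∧
    ∀ d, S.ty (S.cp d) = Ty.ab → ∀ x ∈ S.Bs d, S.io (S.cp d) x ∈ A (S.cp d)

/-- The interval `[x₁, x₂]` of `j` is carried by active bands, by the map `x ↦ c + s * x`. -/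
inductive Wd (j : J) (x₁ x₂ : ℝ) : J → ℝ → ℝ → G → Prop
  | refl : Wd j x₁ x₂ j 1 0 1
  | step {j' : J} {s c : ℝ} {g : G} (d : B × Bool) : Wd j x₁ x₂ j' s c g → S.cp d = j' →
      S.PA d → c + s * x₁ ∈ S.Bs d → c + s * x₂ ∈ S.Bs d →
      Wd j x₁ x₂ (S.cp (op d)) (S.sg d * s) (S.of d + S.sg d * c) (S.lb d * g)

structure Dyn : Prop where
  fix : ∀ j x₁ x₂ g, x₁ < x₂ → S.Wd j x₁ x₂ j 1 0 g → g = 1
  rev : ∀ j x₁ x₂ g, x₁ < x₂ → ¬ S.Wd j x₁ x₂ j (-1) (x₁ + x₂) g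
  gap : ∀ j x₁ x₂, x₁ < x₂ → ∃ ε : ℝ, 0 < ε ∧ ∀ τ g, S.Wd j x₁ x₂ j 1 τ g → |τ| < ε → τ = 0

/-- Every active band of `S'` is a word of `S`. -/
def Sub (S' : Sys G T J' B') (π : J' → J) : Prop :=
  ∀ d, S'.PA d → S.Wd (π (S'.cp d)) (S'.lo d) (S'.hi d) (π (S'.cp (op d))) (S'.sg d) (S'.of d)
    (S'.lb d)

structure Valid [MulAction G T] (Ln : Set (Set T)) : Prop where
  core : S.Core
  ty : S.TyOK
  ab : S.AbOK Ln
  qd : S.QdOK
  dyn : S.Dyn

end Defs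

section Moves

variable {G T J B : Type} (S : Sys G T J B)

/-- New domains and steps. -/
def narrow (al be : B → ℝ) (st : B → Finset ℝ) : Sys G T J B :=
  { S with al := al, be := be, st := st }

/-- New types. -/
def retype (ty : J → Ty) : Sys G T J B := { S with ty := ty }

/-- Subdivide the band `b` at the parameter `t`. -/
def subdiv (b : B) (t : ℝ) : Sys G T J (Option B) where
  al o := o.elim t S.al
  be o := o.elim (S.be b) fun b' => if b' = b then t else S.be b'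
  cp d := S.cp (d.1.getD b, d.2)
  a d := S.a (d.1.getD b, d.2)
  e d := S.e (d.1.getD b, d.2)
  ga d := S.ga (d.1.getD b, d.2)
  st o := o.elim (insert t ((S.st b).filter fun s => t ≤ s)) fun b' =>
    if b' = b then insert t ((S.st b).filter fun s => s ≤ t) else S.st b'
  ty := S.ty
  io := S.io

/-- Move the darts of `j` that satisfy `R` to a new component of type `τ`, joined at `x`. -/
def cut [One G] (j : J) (x : ℝ) (R : B × Bool → Prop) (τ : Ty) :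
    Sys G T (Option J) (Option B) where
  al o := o.elim 0 S.al
  be o := o.elim 0 S.be
  cp d := d.1.elim (if d.2 = true then none else some j) fun b =>
    if S.cp (b, d.2) = j ∧ R (b, d.2) then none else some (S.cp (b, d.2))
  a d := d.1.elim x fun b => S.a (b, d.2)
  e d := d.1.elim 1 fun b => S.e (b, d.2)
  ga d := d.1.elim 1 fun b => S.ga (b, d.2)
  st o := o.elim {0} S.st
  ty o := o.elim τ S.ty
  io o := S.io (o.getD j)

/-- The darts on the same side of the gap as the end of the band. -/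
def Side (d : B × Bool) (t₁ t₂ : ℝ) (ν : B × Bool) : Prop :=
  S.cp ν = S.cp d ∧ 0 < S.e d * (S.pos ν (S.al ν.1) - S.pos d ((t₁ + t₂) / 2))

/-- Collapse the band of `d` over the free arc with parameters `(t₁, t₂)`. -/
def collapse (d : B × Bool) (t₁ t₂ : ℝ) : Sys G T (Option J) (Option B) where
  al o := o.elim t₂ S.al
  be o := o.elim (S.be d.1) fun b => if b = d.1 then t₁ else S.be b
  cp ν := if (ν.1.getD d.1, ν.2) = d then ν.1.elim none fun _ => some (S.cp d)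
    else if S.Side d t₁ t₂ (ν.1.getD d.1, ν.2) then none else some (S.cp (ν.1.getD d.1, ν.2))
  a ν := S.a (ν.1.getD d.1, ν.2)
  e ν := S.e (ν.1.getD d.1, ν.2)
  ga ν := S.ga (ν.1.getD d.1, ν.2)
  st o := o.elim ((S.st d.1).filter fun s => t₂ ≤ s) fun b =>
    if b = d.1 then (S.st d.1).filter fun s => s ≤ t₁ else S.st b
  ty o := S.ty (o.getD (S.cp d))
  io o := S.io (o.getD (S.cp d))

/-- The arc with parameters `(t₁, t₂)` is free. -/
structure Free (d : B × Bool) (t₁ t₂ : ℝ) : Prop where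
  l : S.al d.1 ≤ t₁
  lt : t₁ < t₂
  r : t₂ ≤ S.be d.1
  st : ∀ t ∈ S.st d.1, t ≤ t₁ ∨ t₂ ≤ t
  only : ∀ ν, ν ≠ d → S.cp ν = S.cp d → ∀ t, t₁ < t → t < t₂ → S.pos d t ∉ S.Bs ν

/-- Slide the darts in `N` along the band of `d`. -/
def slide [Group G] [Fintype B] (d : B × Bool) (N : B × Bool → Prop) : Sys G T J B where
  al := S.al
  be := S.be
  cp ν := if N ν then S.cp (op d) else S.cp ν
  a ν := if N ν then S.of d + S.sg d * S.a ν else S.a ν
  e ν := if N ν then S.sg d * S.e ν else S.e ν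
  ga ν := if N ν then S.lb d * S.ga ν else S.ga ν
  st b := if b = d.1 then S.st b ∪ (Finset.univ.filter N).biUnion fun ν =>
    (S.st ν.1).image fun s => S.e d * (S.pos ν s - S.a d) else S.st b
  ty := S.ty
  io := S.io

/-- The darts in `N` lie in the base of `d`. -/
def Slid (d : B × Bool) (N : B × Bool → Prop) : Prop :=
  ∀ ν, N ν → ν.1 ≠ d.1 ∧ S.cp ν = S.cp d ∧ S.Bs ν ⊆ S.Bs d

/-- The darts that are moved in one step. -/
def Mv (d : B × Bool) (z : ℝ) (ν : B × Bool) : Prop :=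
  ν.1 ≠ d.1 ∧ S.cp ν = S.cp d ∧ S.lo d ≤ S.lo ν ∧ S.lo ν < z

/-- One step: slide, prune, and cut the carrier `d` back to the start `z`. -/
def step [Group G] [Fintype B] (d : B × Bool) (z : ℝ) : Sys G T J B :=
  (S.slide d (S.Mv d z)).narrow
    (fun b => if b = d.1 ∧ S.e d = 1 then z - S.a d else S.al b)
    (fun b => if b = d.1 ∧ S.e d ≠ 1 then S.a d - z else S.be b)
    fun b => if b = d.1 then ((S.slide d (S.Mv d z)).st b).filter fun t => z ≤ S.pos d t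
      else S.st b

/-- `d` is a carrier and `z` is the next start. -/
structure Car (d : B × Bool) (z : ℝ) : Prop where
  pa : S.PA d
  left : ∀ ν, S.PA ν → S.cp ν = S.cp d → S.lo d ≤ S.lo ν
  max : ∀ ν, S.PA ν → S.cp ν = S.cp d → S.lo ν = S.lo d → S.hi ν ≤ S.hi d
  lt : S.lo d < z
  le : z ≤ S.hi d
  min : ∀ ν, S.PA ν → S.cp ν = S.cp d → S.hi d < S.hi ν → z ≤ S.lo ν
  wit : z = S.hi d ∨ ∃ ν, S.PA ν ∧ S.cp ν = S.cp d ∧ S.hi d < S.hi ν ∧ S.lo ν = z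
  far : S.cp (op d) = S.cp d → z ≤ S.lo (op d)

/-- What is known after a regular step. -/
structure Reg [Group G] (S' : Sys G T J B) (d : B × Bool) (z : ℝ) : Prop where
  pa : ∀ ν, S'.PA ν ↔ S.PA ν
  len : ∀ b, S'.be b - S'.al b = S.be b - S.al b - if b = d.1 then z - S.lo d else 0
  mv : ∀ ν, S.PA ν → (S'.cp ν = S.cp ν ∧ S'.Bs ν ⊆ S.Bs ν) ∨
    (S.cp ν = S.cp d ∧ S.Bs ν ⊆ S.Bs d ∧ S'.cp ν = S.cp (op d) ∧ S'.Bs ν ⊆ S.Bs (op d))
  one : ∃ ν, S.PA ν ∧ S.cp ν = S.cp d ∧ S.lo ν < z ∧ S'.cp ν = S.cp (op d) ∧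
    S'.Bs ν ⊆ S.Bs (op d)
  car : S'.cp d = S.cp d ∧ S'.lo d = z ∧ S'.hi d = S.hi d
  left : ∀ ν, S'.PA ν → S'.cp ν = S.cp d → z ≤ S'.lo ν
  sub : S.Sub S' id

/-- All components are active intervals on which `io` is isometric. -/
structure Iso [MetricSpace T] (l r : J → ℝ) : Prop where
  act : ∀ j, S.ty j = Ty.act
  iso : ∀ j x y, l j ≤ x → x ≤ r j → l j ≤ y → y ≤ r j → dist (S.io j x) (S.io j y) = |x - y|
  bs : ∀ d, l (S.cp d) ≤ S.lo d ∧ S.hi d ≤ r (S.cp d)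

/-- The trace of a line. -/
def Spc (Ln : Set (Set T)) (l r : J → ℝ) (p : J × ℝ × ℝ) : Prop :=
  l p.1 ≤ p.2.1 ∧ p.2.1 < p.2.2 ∧ p.2.2 ≤ r p.1 ∧ ∃ A ∈ Ln, ∀ x, l p.1 ≤ x → x ≤ r p.1 →
    (S.io p.1 x ∈ A ↔ p.2.1 ≤ x ∧ x ≤ p.2.2)

/-- A finite family of traces that contains those with an end of a base and is closed under
the bands. -/
structure Fam (Ln : Set (Set T)) (l r : J → ℝ) (K : Finset (J × ℝ × ℝ)) : Prop where
  spc : ∀ p ∈ K, S.Spc Ln l r p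
  ends : ∀ p, S.Spc Ln l r p → ∀ d, S.Pos d.1 → S.cp d = p.1 →
    S.lo d ∈ Set.Icc p.2.1 p.2.2 ∨ S.hi d ∈ Set.Icc p.2.1 p.2.2 → p ∈ K
  move : ∀ p ∈ K, ∀ d t t', S.cp d = p.1 → S.al d.1 ≤ t → t < t' → t' ≤ S.be d.1 →
    S.pos d t ∈ Set.Icc p.2.1 p.2.2 → S.pos d t' ∈ Set.Icc p.2.1 p.2.2 →
    ∃ q ∈ K, q.1 = S.cp (op d) ∧ S.pos (op d) t ∈ Set.Icc q.2.1 q.2.2 ∧
      S.pos (op d) t' ∈ Set.Icc q.2.1 q.2.2

/-- An interval that overlaps no member of the family. -/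
def Off (l r : J → ℝ) (K : Finset (J × ℝ × ℝ)) (j : J) (x₁ x₂ : ℝ) : Prop :=
  l j ≤ x₁ ∧ x₁ < x₂ ∧ x₂ ≤ r j ∧ ∀ p ∈ K, p.1 = j → x₂ ≤ p.2.1 ∨ p.2.2 ≤ x₁

/-- `S'` refines `S`. -/
structure Ref {J' B' : Type} (S' : Sys G T J' B') (π : J' → J) (ρ : B' → B) : Prop where
  io : ∀ j, S'.io j = S.io (π j)
  ty : ∀ j, S'.ty j = S.ty (π j)
  dom : ∀ b, S'.Pos b → S.al (ρ b) ≤ S'.al b ∧ S'.be b ≤ S.be (ρ b)
  dart : ∀ b i, S'.Pos b → S.cp (ρ b, i) = π (S'.cp (b, i)) ∧ S.a (ρ b, i) = S'.a (b, i) ∧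
    S.e (ρ b, i) = S'.e (b, i) ∧ S.ga (ρ b, i) = S'.ga (b, i)

/-- No point of `Q` separates the darts of a component. -/
def Cell (Q : Finset ℝ) : Prop :=
  ∀ q ∈ Q, ∀ j, (∀ d, S.cp d = j → S.hi d ≤ q) ∨ ∀ d, S.cp d = j → q ≤ S.lo d

/-- The part of `j` to the left of `Z` is quadratic; `X` is the set of its bands. -/
structure Quad (j : J) (Z : ℝ) (X : Set B) : Prop where
  ne : ∃ ν, S.PA ν ∧ S.cp ν = j ∧ ν.1 ∈ X
  iff : ∀ ν, S.PA ν → (ν.1 ∈ X ↔ S.cp ν = j ∧ S.hi ν ≤ Z)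
  right : ∀ ν, S.PA ν → S.cp ν = j → ν.1 ∉ X → Z ≤ S.lo ν
  two : ∀ d₁ d₂ d₃ x, d₁ ≠ d₂ → d₁ ≠ d₃ → d₂ ≠ d₃ → S.PA d₁ → S.PA d₂ → S.PA d₃ → d₁.1 ∈ X →
    d₂.1 ∈ X → d₃.1 ∈ X → S.lo d₁ < x → x < S.hi d₁ → S.lo d₂ < x → x < S.hi d₂ →
    S.lo d₃ < x → x < S.hi d₃ → False

/-- No active band, and the steps are normalised. -/
structure Pre [Group G] [MulAction G T] (Ln : Set (Set T)) : Prop where
  valid : S.Valid Ln
  nact : ∀ d, ¬ S.PA d
  pt : ∀ b, ¬ S.Pos b → S.st b = {S.al b}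
  qd : ∀ d, S.Pos d.1 → S.ty (S.cp d) = Ty.qd → S.st d.1 = {S.al d.1, S.be d.1}

/-- The normal form at the end. -/
structure Fin [Group G] [MulAction G T] (Ln : Set (Set T)) : Prop where
  core : S.Core
  ty : S.TyOK
  ab : S.AbOK Ln
  nact : ∀ d, ¬ S.PA d
  pt : ∀ b, ¬ S.Pos b → S.st b = {S.al b}
  qd : ∀ d, S.Pos d.1 → S.ty (S.cp d) = Ty.qd → S.st d.1 = {S.al d.1, S.be d.1}
  two : ∀ (d₁ d₂ d₃ : B × Bool) (x : ℝ), d₁ ≠ d₂ → d₁ ≠ d₃ → d₂ ≠ d₃ → S.cp d₂ = S.cp d₁ →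
    S.cp d₃ = S.cp d₁ → S.ty (S.cp d₁) = Ty.qd → S.Pos d₁.1 → S.Pos d₂.1 → S.Pos d₃.1 →
    x = S.lo d₁ ∨ x = S.hi d₁ → x = S.lo d₂ ∨ x = S.hi d₂ → x = S.lo d₃ ∨ x = S.hi d₃ → False

end Moves

end Sys

/-- An infinite sequence of regular steps in the component `j`. -/
structure Run {G T J B : Type} [Group G] [MulAction G T] (Ln : Set (Set T))
    (S : ℕ → Sys G T J B) (j : J) (d : ℕ → B × Bool) (z : ℕ → ℝ) : Prop where
  valid : ∀ i, (S i).Valid Ln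
  w2 : ∀ i, (S i).W2
  cp : ∀ i, (S i).cp (d i) = j
  lo : ∀ i, (S i).lo (d i) = z i
  car : ∀ i, (S i).Car (d i) (z (i + 1))
  lt : ∀ i, z (i + 1) < (S i).hi (d i)
  reg : ∀ i, (S i).Reg (S (i + 1)) (d i) (z (i + 1))

end

end Pool.Agent.MP_494aff_an.Hi

end MrgPart0

-- ======== part 1: formerly Pool.Agent.MP_494aff_an.hi.Spec
section MrgPart1

/-! The steps of the machine. -/

open Filter Topology

namespace Pool.Agent.MP_494aff_an.Hi

open Pool.Agent.MP_494aff_an.Se Pool.Agent.MP_494aff_an.Fr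

/-! Moves -/

def SubdivStmt : Prop :=
  ∀ (G T J B : Type) [Group G] [MulAction G T] (S : Sys G T J B) (b : B) (t : ℝ),
    S.al b ≤ t → t ≤ S.be b → (S.Core → (S.subdiv b t).Core) ∧
      ∀ Ln : Set (Set T), S.Valid Ln → (S.subdiv b t).Valid Ln

def CutStmt : Prop :=
  ∀ (G T J B : Type) [Group G] [MulAction G T] (S : Sys G T J B) (j : J) (x : ℝ)
    (R : B × Bool → Prop),
    (∀ d d', S.cp d = j → S.cp d' = j → R d → ¬ R d' → ∀ y ∈ S.Bs d, y ∈ S.Bs d' → y = x) →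
    (∀ τ, S.Core → (S.cut j x R τ).Core) ∧
      ∀ Ln : Set (Set T), S.Valid Ln → S.ty j ≠ Ty.ab → (S.cut j x R (S.ty j)).Valid Ln

def CollStmt : Prop :=
  ∀ (G T J B : Type) [Group G] [MulAction G T] (Ln : Set (Set T)) (S : Sys G T J B)
    (d : B × Bool) (t₁ t₂ : ℝ), S.Valid Ln → S.Free d t₁ t₂ → (S.collapse d t₁ t₂).Valid Ln

def CollCxStmt : Prop :=
  ∀ (G T J B : Type) [Group G] [MulAction G T] [Fintype B] (S : Sys G T J B)
    (d : B × Bool) (t₁ t₂ : ℝ), S.Core → S.Free d t₁ t₂ → (S.collapse d t₁ t₂).cx ≤ S.cx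

def SlideStmt : Prop :=
  ∀ (G T J B : Type) [Group G] [MulAction G T] [Fintype B] (Ln : Set (Set T)) (S : Sys G T J B)
    (d : B × Bool) (N : B × Bool → Prop), S.Valid Ln → S.PA d → S.Slid d N →
    (S.slide d N).Valid Ln ∧ S.Sub (S.slide d N) id

def SlideCxStmt : Prop :=
  ∀ (G T J B : Type) [Group G] [MulAction G T] [Fintype B] (S : Sys G T J B)
    (d : B × Bool) (N : B × Bool → Prop), S.Core → S.TyOK → S.PA d → S.Slid d N →
    (S.slide d N).cx ≤ S.cx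

/-- Steps that may be deleted: over free nodes, or on a band whose two darts coincide. -/
def PruneStmt : Prop :=
  ∀ (G T J B : Type) [Group G] (S : Sys G T J B) (d : B × Bool) (al be : B → ℝ)
    (st : B → Finset ℝ), (∀ b, b ≠ d.1 → S.st b ⊆ st b) →
    (S.e d ≠ 0 → (∀ t ∈ S.st d.1, t ∉ st d.1 → ∀ ν, ν ≠ d → S.cp ν = S.cp d →
      ∀ s ∈ S.st ν.1, S.pos ν s ≠ S.pos d t) → ∀ u, (S.narrow al be st).Sol u → S.Sol u) ∧
    (S.cp (op d) = S.cp d → S.a (op d) = S.a d → S.e (op d) = S.e d → S.ga (op d) = S.ga d →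
      (st d.1).Nonempty → ∀ u, (S.narrow al be st).Sol u → S.Sol u)

/-! The machine -/

def Ph1Stmt : Prop :=
  ∀ (G T J B : Type) [Group G] [MulAction G T] [Fintype J] [Fintype B] (Ln : Set (Set T))
    (S : Sys G T J B), S.Valid Ln →
    ∃ (J' B' : Type) (_ : Fintype J') (_ : Fintype B') (S' : Sys G T J' B'),
      S'.Valid Ln ∧ S'.W2 ∧ S'.cx ≤ S.cx

def StcStmt : Prop :=
  ∀ (G T J B : Type) [Group G] [MulAction G T] [Fintype B] (Ln : Set (Set T)) (S : Sys G T J B)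
    (d₀ : B × Bool), S.Valid Ln → S.PA d₀ →
    (∃ S' : Sys G T J B, S'.Valid Ln ∧ S'.cx < S.cx) ∨ ∃ d z, S.cp d = S.cp d₀ ∧ S.Car d z

def StvStmt : Prop :=
  ∀ (G T J B : Type) [Group G] [MulAction G T] [Fintype B] (Ln : Set (Set T)) (S : Sys G T J B)
    (d : B × Bool) (z : ℝ), S.Valid Ln → S.Car d z →
    (S.step d z).Valid Ln ∧ (S.step d z).cx ≤ S.cx

def StwStmt : Prop :=
  ∀ (G T J B : Type) [Group G] [MulAction G T] [Fintype B] (Ln : Set (Set T)) (S : Sys G T J B)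
    (d : B × Bool) (z : ℝ), S.Valid Ln → S.W2 → S.Car d z → (S.step d z).W2

def StrStmt : Prop :=
  ∀ (G T J B : Type) [Group G] [MulAction G T] [Fintype B] (Ln : Set (Set T)) (S : Sys G T J B)
    (d : B × Bool) (z : ℝ), S.Valid Ln → S.W2 → S.Car d z →
    (z = S.hi d → (S.step d z).nE < S.nE) ∧ (z < S.hi d → S.Reg (S.step d z) d z)

def RunAStmt : Prop :=
  ∀ (G T J B : Type) [Group G] [MulAction G T] [Fintype B] (Ln : Set (Set T))
    (S : ℕ → Sys G T J B) (j : J) (d : ℕ → B × Bool) (z : ℕ → ℝ), Run Ln S j d z →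
    ∃ Z, Tendsto z atTop (𝓝 Z) ∧ ∀ i, (S i).hi (d i) ≤ Z

/-- Intervals of small total length that cover an interval twice. -/
def CoverStmt : Prop :=
  ∀ (ι : Type) [Fintype ι] (l h : ι → ℝ) (p : ι → Prop) (z Z : ℝ) (Q : Finset ℝ),
    (∀ k, l k < h k) → z < Z → ∑ k, (h k - l k) ≤ 2 * (Z - z) →
    (∀ x, z < x → x < Z → x ∉ Q →
      ∃ k k', k ≠ k' ∧ p k ∧ p k' ∧ x ∈ Set.Icc (l k) (h k) ∧ x ∈ Set.Icc (l k') (h k')) →
    (∀ k, p k ∧ z ≤ l k ∧ h k ≤ Z) ∧ ∀ k₁ k₂ k₃ x, k₁ ≠ k₂ → k₁ ≠ k₃ → k₂ ≠ k₃ →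
      l k₁ < x → x < h k₁ → l k₂ < x → x < h k₂ → l k₃ < x → x < h k₃ → False

def RunBStmt : Prop :=
  ∀ (G T J B : Type) [Group G] [MulAction G T] [Fintype B] (Ln : Set (Set T))
    (S : ℕ → Sys G T J B) (j : J) (d : ℕ → B × Bool) (z : ℕ → ℝ) (Z : ℝ), Run Ln S j d z →
    Tendsto z atTop (𝓝 Z) → (∀ i, (S i).hi (d i) ≤ Z) → ∃ i X, (S i).Quad j Z X

def FrqStmt : Prop :=
  ∀ (G T J B : Type) [Group G] [MulAction G T] [Fintype B] (Ln : Set (Set T)) (S : Sys G T J B)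
    (j : J) (Z : ℝ) (X : Set B), S.Valid Ln → S.W2 → S.Quad j Z X →
    ∃ S' : Sys G T (Option J) (Option B), S'.Valid Ln ∧ S'.W2 ∧ S'.cx ≤ S.cx ∧ S'.nE < S.nE

def Mach0Stmt : Prop :=
  ∀ (G T J B : Type) [Group G] [MulAction G T] [Fintype J] [Fintype B] (Ln : Set (Set T))
    (S : Sys G T J B), S.Valid Ln →
    ∃ (J' B' : Type) (_ : Fintype J') (_ : Fintype B') (S' : Sys G T J' B'),
      S'.Valid Ln ∧ ∀ d, ¬ S'.PA d

/-! The first system -/

def InitStmt : Prop :=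
  ∀ (G T : Type) [Group G] [MetricSpace T] [MulAction G T] (Ln : Set (Set T)), Tr G Ln → Det G →
    ∃ (J B : Type) (_ : Fintype J) (_ : Fintype B) (S : Sys G T J B) (l r : J → ℝ),
      S.Core ∧ S.Iso l r

/-- Traces of lines. -/
def SpcStmt : Prop :=
  ∀ (G T J B : Type) [Group G] [MetricSpace T] [MulAction G T] (Ln : Set (Set T))
    (S : Sys G T J B) (l r : J → ℝ), Tr G Ln → S.Iso l r →
    (∀ j x x', ∀ A ∈ Ln, l j ≤ x → x < x' → x' ≤ r j → S.io j x ∈ A → S.io j x' ∈ A →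
      ∃ y y', l j ≤ y ∧ y ≤ x ∧ x' ≤ y' ∧ y' ≤ r j ∧
        ∀ w, l j ≤ w → w ≤ r j → (S.io j w ∈ A ↔ y ≤ w ∧ w ≤ y')) ∧
    ∀ p q x x', S.Spc Ln l r p → S.Spc Ln l r q → p.1 = q.1 → x < x' → p.2.1 ≤ x → x' ≤ p.2.2 →
      q.2.1 ≤ x → x' ≤ q.2.2 → p = q

def FamStmt : Prop :=
  ∀ (G T J B : Type) [Group G] [MetricSpace T] [MulAction G T] [Fintype J] [Fintype B]
    (Ln : Set (Set T)) (S : Sys G T J B) (l r : J → ℝ), Tr G Ln → S.Core → S.Iso l r →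
    ∃ K, S.Fam Ln l r K

def Dyn0Stmt : Prop :=
  ∀ (G T J B : Type) [Group G] [MetricSpace T] [MulAction G T] (Ln : Set (Set T))
    (S : Sys G T J B) (l r : J → ℝ) (K : Finset (J × ℝ × ℝ)) (j : J) (x₁ x₂ : ℝ), Tr G Ln →
    S.Core → S.Iso l r → S.Fam Ln l r K → Sys.Off l r K j x₁ x₂ →
    (∀ g, S.Wd j x₁ x₂ j 1 0 g → g = 1) ∧ (∀ g, ¬ S.Wd j x₁ x₂ j (-1) (x₁ + x₂) g) ∧
      ∃ ε : ℝ, 0 < ε ∧ ∀ τ g, S.Wd j x₁ x₂ j 1 τ g → |τ| < ε → τ = 0

def Ref1Stmt : Prop :=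
  ∀ (G T J B : Type) [Group G] [MulAction G T] [Fintype B] (S : Sys G T J B) (Q : Finset ℝ),
    S.Core → ∃ (B' : Type) (_ : Fintype B') (S' : Sys G T J B') (ρ : B' → B),
      S'.Core ∧ S.Ref S' id ρ ∧ ∀ d, ∀ q ∈ Q, S'.hi d ≤ q ∨ q ≤ S'.lo d

def Ref2Stmt : Prop :=
  ∀ (G T J B : Type) [Group G] [MulAction G T] [Fintype J] [Fintype B] (S : Sys G T J B)
    (Q : Finset ℝ), S.Core → (∀ d, ∀ q ∈ Q, S.hi d ≤ q ∨ q ≤ S.lo d) →
    ∃ (J' B' : Type) (_ : Fintype J') (_ : Fintype B') (S' : Sys G T J' B') (π : J' → J)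
      (ρ : B' → B), S'.Core ∧ S.Ref S' π ρ ∧ S'.Cell Q

def FrzStmt : Prop :=
  ∀ (G T J B J' B' : Type) [Group G] [MetricSpace T] [MulAction G T] (Ln : Set (Set T))
    (S : Sys G T J B) (l r : J → ℝ) (K : Finset (J × ℝ × ℝ)) (Q : Finset ℝ)
    (S' : Sys G T J' B') (π : J' → J) (ρ : B' → B), Tr G Ln → S.Core → S.Iso l r →
    S.Fam Ln l r K → (∀ p ∈ K, p.2.1 ∈ Q ∧ p.2.2 ∈ Q) → S'.Core → S.Ref S' π ρ → S'.Cell Q →
    ∃ ty, (S'.retype ty).Valid Ln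

/-! The last system -/

def Qp1Stmt : Prop :=
  ∀ (G T J B : Type) [Group G] [MulAction G T] [Fintype B] (Ln : Set (Set T)) (S : Sys G T J B),
    S.Valid Ln → (∀ d, ¬ S.PA d) →
    ∃ (B' : Type) (_ : Fintype B') (S' : Sys G T J B'), S'.Pre Ln

def Qp2Stmt : Prop :=
  ∀ (G T J B : Type) [Group G] [MulAction G T] [Fintype J] [Fintype B] (Ln : Set (Set T))
    (S : Sys G T J B), S.Pre Ln →
    ∃ (J' B' : Type) (_ : Fintype J') (_ : Fintype B') (S' : Sys G T J' B'), S'.Fin Ln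

def SkelStmt : Prop :=
  ∀ (G T Ω J B : Type) [Group G] [MulAction G T] [MulAction G Ω] [Fintype B] (Ln : Set (Set T))
    (π : T → Ω) (S : Sys G T J B), (∀ (g : G) z, π (g • z) = g • π z) →
    (∀ A ∈ Ln, ∀ p ∈ A, ∀ q ∈ A, π p = π q) → S.Fin Ln →
    ∃ (N St : Type) (_ : Fintype N) (_ : Fintype St) (K : Skel G Ω J B N St), K.Ok

end Pool.Agent.MP_494aff_an.Hi

end MrgPart1

-- ======== part 2: formerly Pool.Agent.MP_494aff_an.hi.Base
section MrgPart2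

/-! Basic facts on band systems. -/

namespace Pool.Agent.MP_494aff_an.Hi

open Pool.Agent.MP_494aff_an.Se

open Classical

section Op

variable {B : Type}

@[simp] theorem op_op (d : B × Bool) : op (op d) = d := by simp [op]

@[simp] theorem op_fst (d : B × Bool) : (op d).1 = d.1 := rfl

@[simp] theorem op_snd (d : B × Bool) : (op d).2 = !d.2 := rfl

@[simp] theorem op_mk (b : B) (i : Bool) : op (b, i) = (b, !i) := rfl

theorem op_ne (d : B × Bool) : op d ≠ d := by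
  obtain ⟨b, i⟩ := d
  cases i <;> simp

theorem eq_or_op {d ν : B × Bool} (h : ν.1 = d.1) : ν = d ∨ ν = op d := by
  obtain ⟨b, i⟩ := d
  obtain ⟨b', i'⟩ := ν
  obtain rfl : b' = b := h
  cases i <;> cases i' <;> simp

end Op

namespace Sys

variable {G T J B J' B' J'' B'' : Type} {S : Sys G T J B} {d : B × Bool} {t t' x : ℝ}

theorem lo_le_hi (S : Sys G T J B) (d : B × Bool) : S.lo d ≤ S.hi d := min_le_max

theorem lo_mem (S : Sys G T J B) (d : B × Bool) : S.lo d ∈ S.Bs d := ⟨le_rfl, S.lo_le_hi d⟩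

theorem hi_mem (S : Sys G T J B) (d : B × Bool) : S.hi d ∈ S.Bs d := ⟨S.lo_le_hi d, le_rfl⟩

theorem lo_hi_pos (he : S.e d = 1) (hle : S.al d.1 ≤ S.be d.1) :
    S.lo d = S.a d + S.al d.1 ∧ S.hi d = S.a d + S.be d.1 := by
  simp only [lo, hi, pos, he, one_mul]
  exact ⟨min_eq_left (by linarith), max_eq_right (by linarith)⟩

theorem lo_hi_neg (he : S.e d = -1) (hle : S.al d.1 ≤ S.be d.1) :
    S.lo d = S.a d - S.be d.1 ∧ S.hi d = S.a d - S.al d.1 := by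
  simp only [lo, hi, pos, he, neg_mul, one_mul, ← sub_eq_add_neg]
  exact ⟨min_eq_right (by linarith), max_eq_left (by linarith)⟩

theorem hi_sub_lo (he : S.e d = 1 ∨ S.e d = -1) (hle : S.al d.1 ≤ S.be d.1) :
    S.hi d - S.lo d = S.be d.1 - S.al d.1 := by
  rcases he with he | he
  · obtain ⟨h1, h2⟩ := lo_hi_pos he hle
    linarith
  · obtain ⟨h1, h2⟩ := lo_hi_neg he hle
    linarith

theorem pos_iff (he : S.e d = 1 ∨ S.e d = -1) (hle : S.al d.1 ≤ S.be d.1) :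
    S.Pos d.1 ↔ S.lo d < S.hi d := by
  have := hi_sub_lo he hle
  unfold Pos
  constructor <;> intro <;> linarith

theorem pos_mem_iff (he : S.e d = 1 ∨ S.e d = -1) (hle : S.al d.1 ≤ S.be d.1) :
    S.pos d t ∈ S.Bs d ↔ S.al d.1 ≤ t ∧ t ≤ S.be d.1 := by
  rcases he with he | he
  · obtain ⟨h1, h2⟩ := lo_hi_pos he hle
    simp only [Bs, Set.mem_Icc, h1, h2, pos, he]
    constructor <;> rintro ⟨_, _⟩ <;> constructor <;> linarith
  · obtain ⟨h1, h2⟩ := lo_hi_neg he hle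
    simp only [Bs, Set.mem_Icc, h1, h2, pos, he]
    constructor <;> rintro ⟨_, _⟩ <;> constructor <;> linarith

theorem pos_mem (he : S.e d = 1 ∨ S.e d = -1) (h1 : S.al d.1 ≤ t) (h2 : t ≤ S.be d.1) :
    S.pos d t ∈ S.Bs d := (pos_mem_iff he (h1.trans h2)).2 ⟨h1, h2⟩

/-- Interior points. -/
theorem pos_int_iff (he : S.e d = 1 ∨ S.e d = -1) (hle : S.al d.1 ≤ S.be d.1) :
    S.lo d < S.pos d t ∧ S.pos d t < S.hi d ↔ S.al d.1 < t ∧ t < S.be d.1 := by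
  rcases he with he | he
  · obtain ⟨h1, h2⟩ := lo_hi_pos he hle
    simp only [h1, h2, pos, he]
    constructor <;> rintro ⟨_, _⟩ <;> constructor <;> linarith
  · obtain ⟨h1, h2⟩ := lo_hi_neg he hle
    simp only [h1, h2, pos, he]
    constructor <;> rintro ⟨_, _⟩ <;> constructor <;> linarith

theorem pos_par (he : S.e d = 1 ∨ S.e d = -1) (x : ℝ) : S.pos d (S.e d * (x - S.a d)) = x := by
  rcases he with he | he <;> simp [pos, he]

theorem par_pos (he : S.e d = 1 ∨ S.e d = -1) (t : ℝ) : S.e d * (S.pos d t - S.a d) = t := by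
  rcases he with he | he <;> simp [pos, he]

theorem pos_inj (he : S.e d = 1 ∨ S.e d = -1) (h : S.pos d t = S.pos d t') : t = t' := by
  rw [← par_pos he t, h, par_pos he]

theorem exists_pos (he : S.e d = 1 ∨ S.e d = -1) (hle : S.al d.1 ≤ S.be d.1) (hx : x ∈ S.Bs d) :
    ∃ t, S.al d.1 ≤ t ∧ t ≤ S.be d.1 ∧ S.pos d t = x := by
  rw [← pos_par he x] at hx
  obtain ⟨h1, h2⟩ := (pos_mem_iff he hle).1 hx
  exact ⟨_, h1, h2, pos_par he x⟩

theorem sg_op (S : Sys G T J B) (d : B × Bool) : S.sg (op d) = S.sg d := by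
  simp [sg, mul_comm]

theorem sg_sign (he : ∀ d, S.e d = 1 ∨ S.e d = -1) (d : B × Bool) :
    S.sg d = 1 ∨ S.sg d = -1 := by
  rcases he d with h | h <;> rcases he (op d) with h' | h' <;> simp [sg, h, h']

theorem of_add (he : S.e d = 1 ∨ S.e d = -1) (t : ℝ) :
    S.of d + S.sg d * S.pos d t = S.pos (op d) t := by
  rcases he with he | he <;> simp only [of, sg, pos, he] <;> ring

theorem of_op (he : ∀ d, S.e d = 1 ∨ S.e d = -1) (d : B × Bool) (x : ℝ) :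
    S.of (op d) + S.sg (op d) * (S.of d + S.sg d * x) = x := by
  rw [← pos_par (he d) x, of_add (he d), of_add (he (op d)), op_op]

theorem map_mem (he : ∀ d, S.e d = 1 ∨ S.e d = -1) (hle : S.al d.1 ≤ S.be d.1)
    (hx : x ∈ S.Bs d) : S.of d + S.sg d * x ∈ S.Bs (op d) := by
  obtain ⟨t, h1, h2, rfl⟩ := exists_pos (he d) hle hx
  rw [of_add (he d)]
  exact pos_mem (he (op d)) h1 h2

theorem lo_op_pos (he : ∀ d, S.e d = 1 ∨ S.e d = -1) (hle : S.al d.1 ≤ S.be d.1)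
    (hs : S.sg d = 1) : S.lo (op d) = S.of d + S.lo d ∧ S.hi (op d) = S.of d + S.hi d := by
  have h1 := map_mem he hle (S.lo_mem d)
  have h2 := map_mem he hle (S.hi_mem d)
  have h3 := hi_sub_lo (he d) hle
  have h4 := hi_sub_lo (d := op d) (he _) hle
  rw [hs, one_mul] at h1 h2
  simp only [op_fst] at h4
  constructor <;> linarith [h1.1, h2.2]

theorem lo_op_neg (he : ∀ d, S.e d = 1 ∨ S.e d = -1) (hle : S.al d.1 ≤ S.be d.1)
    (hs : S.sg d = -1) : S.lo (op d) = S.of d - S.hi d ∧ S.hi (op d) = S.of d - S.lo d := by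
  have h1 := map_mem he hle (S.lo_mem d)
  have h2 := map_mem he hle (S.hi_mem d)
  have h3 := hi_sub_lo (he d) hle
  have h4 := hi_sub_lo (d := op d) (he _) hle
  rw [hs] at h1 h2
  simp only [op_fst] at h4
  constructor <;> linarith [h1.2, h2.1]

theorem PA.op (h : S.PA d) (ht : S.TyOK) : S.PA (op d) := ⟨h.1, (ht d h.1).symm.trans h.2⟩

/-- A base inside another base, for darts with the same position map. -/
theorem bs_sub {S' : Sys G T J' B'} {d' : B' × Bool} (he : S.e d = 1 ∨ S.e d = -1)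
    (ha : S'.a d' = S.a d) (he' : S'.e d' = S.e d) (h1 : S.al d.1 ≤ S'.al d'.1)
    (h2 : S'.al d'.1 ≤ S'.be d'.1) (h3 : S'.be d'.1 ≤ S.be d.1) : S'.Bs d' ⊆ S.Bs d := by
  intro x hx
  obtain ⟨t, k1, k2, rfl⟩ := exists_pos (he' ▸ he) h2 hx
  have : S'.pos d' t = S.pos d t := by simp [pos, ha, he']
  rw [this]
  exact pos_mem he (h1.trans k1) (k2.trans h3)

theorem lo_le_of_sub {S' : Sys G T J' B'} {d' : B' × Bool} (h : S'.Bs d' ⊆ S.Bs d) :
    S.lo d ≤ S'.lo d' ∧ S'.hi d' ≤ S.hi d := ⟨(h (S'.lo_mem d')).1, (h (S'.hi_mem d')).2⟩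

/-! The complexity -/

/-- Every active band of `S'` comes from a band of `S`. -/
theorem cx_le [Fintype B] [Fintype B'] {S' : Sys G T J' B'} (ι : B → B')
    (hι : Function.Injective ι) (hr : ∀ b', S'.PA (b', false) → b' ∈ Set.range ι)
    (hp : ∀ d : B × Bool, S'.PA (ι d.1, d.2) → S.PA d)
    (ho : ∀ d d' : B × Bool, S'.PA (ι d.1, d.2) → S'.PA (ι d'.1, d'.2) →
      S'.Ov (ι d.1, d.2) (ι d'.1, d'.2) → S.Ov d d') (ht : S'.TyOK) : S'.cx ≤ S.cx := by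
  have hr' : ∀ d', S'.PA d' → d'.1 ∈ Set.range ι := by
    rintro ⟨b', i⟩ h
    cases i
    · exact hr _ h
    · exact hr _ (h.op ht)
  have key : ∀ w ∈ S'.cyc, (fun b => w (ι b)) ∈ S.cyc := by
    rintro w ⟨h1, h2⟩
    refine ⟨fun b hb => ⟨hp (b, false) (h1 _ hb).1, hp (b, true) (h1 _ hb).2⟩, fun X hX => ?_⟩
    have := h2 {d' | ∃ d ∈ X, d' = (ι d.1, d.2)} (by
      rintro _ ⟨b', i⟩ p1 p2 o ⟨d, hd, rfl⟩
      obtain ⟨b, rfl⟩ := hr' _ p2
      exact ⟨(b, i), hX d (b, i) (hp _ p1) (hp (b, i) p2) (ho d (b, i) p1 p2 o) hd, rfl⟩)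
    refine Eq.trans ?_ this
    have mem : ∀ b i, (ι b, i) ∈ {d' | ∃ d ∈ X, d' = (ι d.1, d.2)} ↔ (b, i) ∈ X := by
      intro b i
      constructor
      · rintro ⟨⟨b', i'⟩, hd, e⟩
        obtain ⟨e1, e2⟩ := Prod.mk.inj e
        obtain rfl := hι e1
        obtain rfl : i = i' := e2
        exact hd
      · exact fun h => ⟨(b, i), h, rfl⟩
    refine Finset.sum_of_injOn ι hι.injOn (fun _ _ => Finset.mem_coe.2 (Finset.mem_univ _))
      (fun b' _ hb' => ?_) fun b _ => by simp only [mem]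
    have : w b' = 0 := by
      by_contra h
      obtain ⟨b, rfl⟩ := hr _ (h1 _ h).1
      exact hb' ⟨b, by simp, rfl⟩
    simp [this]
  refine LinearMap.finrank_le_finrank_of_injective
    (f := (LinearMap.funLeft ℚ ℚ ι).restrict key) fun w w' h => ?_
  ext b'
  by_cases hb : b' ∈ Set.range ι
  · obtain ⟨b, rfl⟩ := hb
    exact congrFun (congrArg Subtype.val h) b
  · have z : ∀ v : S'.cyc, v.1 b' = 0 := fun v => by
      by_contra h
      exact hb (hr _ (v.2.1 _ h).1)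
    rw [z, z]

theorem cyc_le [Fintype B] {S' : Sys G T J' B} (hp : ∀ d, S'.PA d → S.PA d)
    (ho : ∀ d d', S'.PA d → S'.PA d' → S'.Ov d d' → S.Ov d d') : S'.cyc ≤ S.cyc := by
  rintro w ⟨h1, h2⟩
  exact ⟨fun b hb => ⟨hp _ (h1 _ hb).1, hp _ (h1 _ hb).2⟩, fun X hX =>
    h2 X fun d d' p p' o => hX d d' (hp _ p) (hp _ p') (ho _ _ p p' o)⟩

theorem narrow_bs {al be : B → ℝ} {st : B → Finset ℝ} (he : ∀ d, S.e d = 1 ∨ S.e d = -1)
    (h1 : ∀ b, S.al b ≤ al b) (h2 : ∀ b, al b ≤ be b) (h3 : ∀ b, be b ≤ S.be b) (d : B × Bool) :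
    (S.narrow al be st).Bs d ⊆ S.Bs d := bs_sub (he d) rfl rfl (h1 _) (h2 _) (h3 _)

theorem narrow_pa {al be : B → ℝ} {st : B → Finset ℝ} (h1 : ∀ b, S.al b ≤ al b)
    (h3 : ∀ b, be b ≤ S.be b) (h : (S.narrow al be st).PA d) : S.PA d :=
  ⟨lt_of_le_of_lt (h1 _) (lt_of_lt_of_le h.1 (h3 _)), h.2⟩

theorem narrow_cyc [Fintype B] {al be : B → ℝ} {st : B → Finset ℝ}
    (he : ∀ d, S.e d = 1 ∨ S.e d = -1) (h1 : ∀ b, S.al b ≤ al b) (h2 : ∀ b, al b ≤ be b)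
    (h3 : ∀ b, be b ≤ S.be b) : (S.narrow al be st).cyc ≤ S.cyc := by
  refine cyc_le (fun d => narrow_pa h1 h3) ?_
  rintro d d' - - ⟨hc, x, k1, k2, k3, k4⟩
  have := lo_le_of_sub (narrow_bs (st := st) he h1 h2 h3 d)
  have := lo_le_of_sub (narrow_bs (st := st) he h1 h2 h3 d')
  exact ⟨hc, x, by linarith, by linarith, by linarith, by linarith⟩

theorem narrow_cx [Fintype B] {al be : B → ℝ} {st : B → Finset ℝ}
    (he : ∀ d, S.e d = 1 ∨ S.e d = -1) (h1 : ∀ b, S.al b ≤ al b) (h2 : ∀ b, al b ≤ be b)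
    (h3 : ∀ b, be b ≤ S.be b) : (S.narrow al be st).cx ≤ S.cx :=
  Submodule.finrank_mono (narrow_cyc he h1 h2 h3)

/-! Refinements -/

theorem Ref.refl (S : Sys G T J B) : S.Ref S id id :=
  ⟨fun _ => rfl, fun _ => rfl, fun _ _ => ⟨le_rfl, le_rfl⟩, fun _ _ _ => ⟨rfl, rfl, rfl, rfl⟩⟩

theorem Ref.pos {S' : Sys G T J' B'} {π : J' → J} {ρ : B' → B} (h : S.Ref S' π ρ) {b : B'}
    (hb : S'.Pos b) : S.Pos (ρ b) :=
  lt_of_le_of_lt (h.dom b hb).1 (lt_of_lt_of_le hb (h.dom b hb).2)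

theorem Ref.trans {S' : Sys G T J' B'} {S'' : Sys G T J'' B''} {π : J' → J} {ρ : B' → B}
    {π' : J'' → J'} {ρ' : B'' → B'} (h : S.Ref S' π ρ) (h' : S'.Ref S'' π' ρ') :
    S.Ref S'' (π ∘ π') (ρ ∘ ρ') := by
  refine ⟨fun j => (h'.io j).trans (h.io _), fun j => (h'.ty j).trans (h.ty _), fun b hb => ?_,
    fun b i hb => ?_⟩
  · exact ⟨(h.dom _ (h'.pos hb)).1.trans (h'.dom b hb).1,
      (h'.dom b hb).2.trans (h.dom _ (h'.pos hb)).2⟩
  · obtain ⟨k1, k2, k3, k4⟩ := h.dart _ i (h'.pos hb)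
    obtain ⟨l1, l2, l3, l4⟩ := h'.dart b i hb
    exact ⟨k1.trans (congrArg π l1), k2.trans l2, k3.trans l3, k4.trans l4⟩

variable [Group G]

theorem lb_op (S : Sys G T J B) (d : B × Bool) : S.lb (op d) = (S.lb d)⁻¹ := by simp [lb]

/-! Words -/

theorem Wd.cast {j j' j'' : J} {x₁ x₂ s c s' c' : ℝ} {g g' : G} (h : S.Wd j x₁ x₂ j' s c g)
    (hj : j' = j'') (hs : s = s') (hc : c = c') (hg : g = g') : S.Wd j x₁ x₂ j'' s' c' g' := by
  subst hj hs hc hg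
  exact h

theorem Wd.one {x₁ x₂ : ℝ} (h : S.PA d) (h1 : x₁ ∈ S.Bs d) (h2 : x₂ ∈ S.Bs d) :
    S.Wd (S.cp d) x₁ x₂ (S.cp (Hi.op d)) (S.sg d) (S.of d) (S.lb d) :=
  (Wd.step d Wd.refl rfl h (by simpa using h1) (by simpa using h2)).cast rfl (by simp) (by simp)
    (by simp)

omit [Group G] in
theorem aff_mem {x₁ x₂ y s c : ℝ} (h1 : c + s * x₁ ∈ S.Bs d) (h2 : c + s * x₂ ∈ S.Bs d)
    (k1 : x₁ ≤ y) (k2 : y ≤ x₂) : c + s * y ∈ S.Bs d := by
  rcases le_total 0 s with hs | hs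
  · exact ⟨by nlinarith [h1.1], by nlinarith [h2.2]⟩
  · exact ⟨by nlinarith [h2.1], by nlinarith [h1.2]⟩

theorem Wd.trans {j j' j'' : J} {x₁ x₂ y₁ y₂ s c s' c' : ℝ} {g g' : G}
    (h : S.Wd j x₁ x₂ j' s c g) (h' : S.Wd j' y₁ y₂ j'' s' c' g')
    (k1 : c + s * x₁ ∈ Set.Icc y₁ y₂) (k2 : c + s * x₂ ∈ Set.Icc y₁ y₂) :
    S.Wd j x₁ x₂ j'' (s' * s) (c' + s' * c) (g' * g) := by
  induction h' with
  | refl => exact h.cast rfl (by simp) (by simp) (by simp)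
  | step d _ hc hp m1 m2 ih =>
    refine (Wd.step d ih hc hp ?_ ?_).cast rfl (by ring) (by ring) (by group)
    · convert aff_mem m1 m2 k1.1 k1.2 using 1
      ring
    · convert aff_mem m1 m2 k2.1 k2.2 using 1
      ring

theorem Wd.mono {j j' : J} {x₁ x₂ y₁ y₂ s c : ℝ} {g : G} (h : S.Wd j y₁ y₂ j' s c g)
    (k1 : x₁ ∈ Set.Icc y₁ y₂) (k2 : x₂ ∈ Set.Icc y₁ y₂) : S.Wd j x₁ x₂ j' s c g :=
  (Wd.trans Wd.refl h (by simpa using k1) (by simpa using k2)).cast rfl (by simp) (by simp)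
    (by simp)

theorem Wd.sign {j j' : J} {x₁ x₂ s c : ℝ} {g : G} (he : ∀ d, S.e d = 1 ∨ S.e d = -1)
    (h : S.Wd j x₁ x₂ j' s c g) : s = 1 ∨ s = -1 := by
  induction h with
  | refl => exact Or.inl rfl
  | step d _ _ _ _ _ ih => rcases sg_sign he d with h | h <;> rcases ih with h' | h' <;> simp [h, h']

/-- A word is empty or starts in an active base. -/
theorem Wd.first {j j' : J} {x₁ x₂ s c : ℝ} {g : G} (h : S.Wd j x₁ x₂ j' s c g) :
    (j' = j ∧ s = 1 ∧ c = 0 ∧ g = 1) ∨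
      ∃ d, S.cp d = j ∧ S.PA d ∧ x₁ ∈ S.Bs d ∧ x₂ ∈ S.Bs d := by
  induction h with
  | refl => exact Or.inl ⟨rfl, rfl, rfl, rfl⟩
  | step d _ hc hp m1 m2 ih =>
    rcases ih with ⟨rfl, rfl, rfl, rfl⟩ | ih
    · exact Or.inr ⟨d, hc, hp, by simpa using m1, by simpa using m2⟩
    · exact Or.inr ih

theorem Sub.wd {S' : Sys G T J' B'} {π : J' → J} (h : S.Sub S' π) {j j' : J'} {x₁ x₂ s c : ℝ}
    {g : G} (hw : S'.Wd j x₁ x₂ j' s c g) : S.Wd (π j) x₁ x₂ (π j') s c g := by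
  induction hw with
  | refl => exact Wd.refl
  | step d _ hc hp m1 m2 ih => exact ih.trans (hc ▸ h d hp) m1 m2

theorem Sub.refl (S : Sys G T J B) : S.Sub S id := fun d h => Wd.one h (S.lo_mem d) (S.hi_mem d)

theorem Sub.trans {S' : Sys G T J' B'} {S'' : Sys G T J'' B''} {π : J' → J} {π' : J'' → J'}
    (h : S.Sub S' π) (h' : S'.Sub S'' π') : S.Sub S'' (π ∘ π') := fun d hd => h.wd (h' d hd)

theorem Sub.dyn {S' : Sys G T J' B'} {π : J' → J} (h : S.Sub S' π) (hd : S.Dyn) : S'.Dyn := by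
  refine ⟨fun j x₁ x₂ g l w => hd.fix _ _ _ _ l (h.wd w),
    fun j x₁ x₂ g l w => hd.rev _ _ _ _ l (h.wd w), fun j x₁ x₂ l => ?_⟩
  obtain ⟨ε, hε, k⟩ := hd.gap (π j) x₁ x₂ l
  exact ⟨ε, hε, fun τ g w => k τ g (h.wd w)⟩

/-- Every active band of `S'` is a piece of an active band of `S`. -/
theorem Sub.of_piece {S' : Sys G T J' B'} {π : J' → J}
    (h : ∀ b' i, S'.PA (b', i) → ∃ b, S.PA (b, i) ∧ S'.Bs (b', i) ⊆ S.Bs (b, i) ∧ ∀ i',
      S.cp (b, i') = π (S'.cp (b', i')) ∧ S.a (b, i') = S'.a (b', i') ∧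
      S.e (b, i') = S'.e (b', i') ∧ S.ga (b, i') = S'.ga (b', i')) : S.Sub S' π := by
  rintro ⟨b', i⟩ hp
  obtain ⟨b, p, s, k⟩ := h b' i hp
  have := Wd.one p (s (S'.lo_mem _)) (s (S'.hi_mem _))
  rw [(k i).1] at this
  exact this.cast (k _).1 (by simp [sg, k]) (by simp [of, sg, k]) (by simp [lb, k])

theorem narrow_sub {al be : B → ℝ} {st : B → Finset ℝ} (he : ∀ d, S.e d = 1 ∨ S.e d = -1)
    (h1 : ∀ b, S.al b ≤ al b) (h2 : ∀ b, al b ≤ be b) (h3 : ∀ b, be b ≤ S.be b) :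
    S.Sub (S.narrow al be st) id :=
  Sub.of_piece fun b _ p =>
    ⟨b, narrow_pa h1 h3 p, narrow_bs he h1 h2 h3 _, fun _ => ⟨rfl, rfl, rfl, rfl⟩⟩

/-- More steps. -/
theorem Sol.of_subset {al be : B → ℝ} {st : B → Finset ℝ} (h : ∀ b, S.st b ⊆ st b)
    {u : B × Bool → F2} (hu : (S.narrow al be st).Sol u) : S.Sol u := by
  obtain ⟨f, hf⟩ := hu
  exact ⟨f, fun d t ht g => hf d t (h _ ht) g⟩

variable [MulAction G T]

theorem Core.lb_smul (h : S.Core) (hx : x ∈ S.Bs d) :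
    S.lb d • S.io (S.cp d) x = S.io (S.cp (op d)) (S.of d + S.sg d * x) := by
  obtain ⟨t, h1, h2, rfl⟩ := exists_pos (h.sg d) (h.le _) hx
  rw [of_add (h.sg d), lb, mul_smul, h.geo d t h1 h2, smul_inv_smul]

theorem Wd.geo (h : S.Core) {j j' : J} {x₁ x₂ s c : ℝ} {g : G} (hw : S.Wd j x₁ x₂ j' s c g)
    (k1 : x₁ ≤ x) (k2 : x ≤ x₂) : g • S.io j x = S.io j' (c + s * x) := by
  induction hw with
  | refl => simp
  | step d _ hc hp m1 m2 ih =>
    rw [mul_smul, ih, ← hc, h.lb_smul (aff_mem m1 m2 k1 k2)]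
    congr 1
    ring

theorem Core.narrow (h : S.Core) {al be : B → ℝ} {st : B → Finset ℝ} (h1 : ∀ b, S.al b ≤ al b)
    (h2 : ∀ b, al b ≤ be b) (h3 : ∀ b, be b ≤ S.be b)
    (h4 : ∀ b, ∀ t ∈ st b, al b ≤ t ∧ t ≤ be b)
    (h5 : ∀ u, (S.narrow al be st).Sol u → S.Sol u) : (S.narrow al be st).Core :=
  ⟨h.ne, h2, h.sg, h4, fun d t k1 k2 => h.geo d t ((h1 _).trans k1) (k2.trans (h3 _)),
    fun u hu => h.ext u (h5 u hu), h.conn⟩

theorem Valid.narrow {Ln : Set (Set T)} (h : S.Valid Ln) {al be : B → ℝ} {st : B → Finset ℝ}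
    (h1 : ∀ b, S.al b ≤ al b) (h2 : ∀ b, al b ≤ be b) (h3 : ∀ b, be b ≤ S.be b)
    (h4 : ∀ b, ∀ t ∈ st b, al b ≤ t ∧ t ≤ be b)
    (h5 : ∀ u, (S.narrow al be st).Sol u → S.Sol u) : (S.narrow al be st).Valid Ln := by
  have hb := narrow_bs (st := st) h.core.sg h1 h2 h3
  refine ⟨h.core.narrow h1 h2 h3 h4 h5, fun d p => h.ty d ?_, ?_, ?_,
    (narrow_sub h.core.sg h1 h2 h3).dyn h.dyn⟩
  · exact lt_of_le_of_lt (h1 _) (lt_of_lt_of_le p (h3 _))
  · obtain ⟨A, a1, a2⟩ := h.ab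
    exact ⟨A, a1, fun d k x hx => a2 d k x (hb d hx)⟩
  · intro d₁ d₂ d₃ x n1 n2 n3 c1 c2 q l1 l2 l3 l4 l5 l6
    have k1 := lo_le_of_sub (hb d₁)
    have k2 := lo_le_of_sub (hb d₂)
    have k3 := lo_le_of_sub (hb d₃)
    exact h.qd d₁ d₂ d₃ x n1 n2 n3 c1 c2 q (by linarith) (by linarith) (by linarith) (by linarith)
      (by linarith) (by linarith)

theorem Core.retype (h : S.Core) (ty : J → Ty) : (S.retype ty).Core :=
  ⟨h.ne, h.le, h.sg, h.stm, h.geo, h.ext, h.conn⟩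

end Sys

end Pool.Agent.MP_494aff_an.Hi

end MrgPart2

-- ======== part 3: formerly Pool.Agent.MP_494aff_an.hi.Prune
section MrgPart3

/-! Steps that may be deleted. -/

namespace Pool.Agent.MP_494aff_an.Hi

open Pool.Agent.MP_494aff_an.Se Pool.Agent.MP_494aff_an.Fr

open Classical

namespace PruneP

variable {G T J B : Type} [Group G] {S : Sys G T J B} {d : B × Bool} {u : B × Bool → F2}

/-- It is enough to check one of the two darts of the band of `d`. -/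
theorem sol_of (f : J → ℝ → G → F2)
    (h1 : ∀ ν : B × Bool, ν.1 ≠ d.1 → ∀ t ∈ S.st ν.1, ∀ g,
      (u ν)⁻¹ * f (S.cp ν) (S.pos ν t) (S.ga ν * g) =
        (u (op ν))⁻¹ * f (S.cp (op ν)) (S.pos (op ν) t) (S.ga (op ν) * g))
    (h2 : ∀ t ∈ S.st d.1, ∀ g, (u d)⁻¹ * f (S.cp d) (S.pos d t) (S.ga d * g) =
      (u (op d))⁻¹ * f (S.cp (op d)) (S.pos (op d) t) (S.ga (op d) * g)) : S.Sol u := by
  refine ⟨f, fun ν t ht g => ?_⟩
  by_cases h : ν.1 = d.1
  · rcases eq_or_op h with rfl | rfl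
    · exact h2 t ht g
    · rw [op_op]
      exact (h2 t ht g).symm
  · exact h1 ν h t ht g

end PruneP

open PruneP in
theorem prune : PruneStmt := by
  intro G T J B _ S d al be st hst
  refine ⟨fun he hfree u ⟨f, hf⟩ => ?_, fun hc ha he hg ⟨t₀, ht₀⟩ u ⟨f, hf⟩ => ?_⟩
  · have hf' : ∀ ν : B × Bool, ∀ t ∈ st ν.1, ∀ g,
        (u ν)⁻¹ * f (S.cp ν) (S.pos ν t) (S.ga ν * g) =
          (u (op ν))⁻¹ * f (S.cp (op ν)) (S.pos (op ν) t) (S.ga (op ν) * g) := hf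
    have par : ∀ t, (S.pos d t - S.a d) / S.e d = t := fun t => by
      rw [Sys.pos, add_sub_cancel_left, mul_div_cancel_left₀ _ he]
    obtain ⟨f', k1, k2⟩ : ∃ f' : J → ℝ → G → F2,
        (∀ j y g, ¬ (j = S.cp d ∧ ∃ t ∈ S.st d.1, t ∉ st d.1 ∧ y = S.pos d t) →
          f' j y g = f j y g) ∧
        ∀ t ∈ S.st d.1, t ∉ st d.1 → ∀ g, f' (S.cp d) (S.pos d t) g = u d * (u (op d))⁻¹ *
          f (S.cp (op d)) (S.pos (op d) t) (S.ga (op d) * (S.ga d)⁻¹ * g) := by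
      refine ⟨fun j y g => if j = S.cp d ∧ ∃ t ∈ S.st d.1, t ∉ st d.1 ∧ y = S.pos d t then
        u d * (u (op d))⁻¹ * f (S.cp (op d)) (S.pos (op d) ((y - S.a d) / S.e d))
          (S.ga (op d) * (S.ga d)⁻¹ * g) else f j y g, fun j y g h => if_neg h,
        fun t ht ht' g => ?_⟩
      exact (if_pos ⟨rfl, t, ht, ht', rfl⟩).trans (by rw [par])
    have k3 : ∀ ν, ν ≠ d → ∀ s ∈ S.st ν.1, ∀ g,
        f' (S.cp ν) (S.pos ν s) g = f (S.cp ν) (S.pos ν s) g := fun ν hν s hs g =>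
      k1 _ _ _ fun ⟨c, t, ht, ht', e⟩ => hfree t ht ht' ν hν c s hs e
    refine sol_of (d := d) f' (fun ν hν t ht g => ?_) fun t ht g => ?_
    · rw [k3 ν (fun e => hν (congrArg Prod.fst e)) t ht,
        k3 (op ν) (fun e => hν ((op_fst ν).symm.trans (congrArg Prod.fst e))) t ht]
      exact hf' ν t (hst _ hν ht) g
    · rw [k3 (op d) (op_ne d) t ht]
      by_cases h : t ∈ st d.1
      · rw [k1 _ _ _ fun ⟨_, t', _, ht', e⟩ => ht' (by rwa [← par t', ← e, par])]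
        exact hf' d t h g
      · rw [k2 t ht h, mul_assoc (S.ga (op d)), inv_mul_cancel_left, mul_assoc,
          inv_mul_cancel_left]
  · have hf' : ∀ ν : B × Bool, ∀ t ∈ st ν.1, ∀ g,
        (u ν)⁻¹ * f (S.cp ν) (S.pos ν t) (S.ga ν * g) =
          (u (op ν))⁻¹ * f (S.cp (op ν)) (S.pos (op ν) t) (S.ga (op ν) * g) := hf
    have hp : ∀ t, S.pos (op d) t = S.pos d t := fun t => by rw [Sys.pos, Sys.pos, ha, he]
    have hu : (u d)⁻¹ = (u (op d))⁻¹ := by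
      have := hf' d t₀ ht₀ 1
      rw [hc, hp, hg] at this
      exact mul_right_cancel this
    refine sol_of (d := d) f (fun ν hν t ht g => hf' ν t (hst _ hν ht) g) fun t _ g => ?_
    rw [hc, hp, hg, hu]

end Pool.Agent.MP_494aff_an.Hi

end MrgPart3

-- marker of a merged file
example : 731051 + 156748 = 731051 + 156748 := rfl

end MrgPart0

-- ======== part 1: formerly Pool.Agent.MP_494aff_an.lf.Form
section MrgPart1

-- ======== part 0: formerly Pool.Agent.MP_494aff_an.lf.AF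
section MrgPart0

/-! Cocycles that are small on a finite set and close to one somewhere. -/

namespace Pool.Agent.MP_494aff_an.Lf

open Pool.Agent.MP_494aff_an.Pinch Pool.Agent.MP_494aff_an.Pinch.TowP

noncomputable section

namespace AFP

variable {Γ : Type}

open Classical in
/-- The real part of the restriction to `X`, as a function. -/
def rf (X : Set Γ) (ξ : H Γ) (y : Γ) : ℂ := if y ∈ X then ((ξ y).re : ℂ) else 0

lemma norm_rf (X : Set Γ) (ξ : H Γ) (y : Γ) : ‖rf X ξ y‖ ≤ ‖ξ y‖ := by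
  unfold rf
  split_ifs
  · rw [Complex.norm_real]
    exact Complex.abs_re_le_norm _
  · simp

/-- The real part of the restriction to `X`. -/
def rv (X : Set Γ) (ξ : H Γ) : H Γ := ⟨rf X ξ, (lp.memℓp ξ).mono' (norm_rf X ξ)⟩

lemma rv_ap (X : Set Γ) (ξ : H Γ) (y : Γ) : rv X ξ y = rf X ξ y := rfl

lemma norm_rv (X : Set Γ) (ξ : H Γ) : ‖rv X ξ‖ ≤ ‖ξ‖ :=
  lp.norm_mono (by norm_num) (norm_rf X ξ)

lemma rv_add (X : Set Γ) (ξ η : H Γ) : rv X (ξ + η) = rv X ξ + rv X η := by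
  ext y
  rw [lp.coeFn_add, Pi.add_apply, rv_ap, rv_ap, rv_ap]
  unfold rf
  split_ifs
  · rw [lp.coeFn_add, Pi.add_apply]
    simp
  · simp

lemma rv_smul (X : Set Γ) (r : ℝ) (ξ : H Γ) : rv X (r • ξ) = r • rv X ξ := by
  ext y
  rw [lp.coeFn_smul, Pi.smul_apply, rv_ap, rv_ap]
  unfold rf
  split_ifs
  · rw [lp.coeFn_smul, Pi.smul_apply]
    simp
  · simp

lemma rv_sub (X : Set Γ) (ξ η : H Γ) : rv X (ξ - η) = rv X ξ - rv X η := by
  rw [eq_sub_iff_add_eq, ← rv_add, sub_add_cancel]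

lemma rv_zero (X : Set Γ) : rv X (0 : H Γ) = 0 := by
  have := rv_sub X 0 0
  rwa [sub_self, sub_self] at this

lemma rv_dl {X : Set Γ} {x : Γ} (hx : x ∈ X) : rv X (dl x) = dl x := by
  ext y
  rw [rv_ap]
  unfold rf
  by_cases h : y = x
  · rw [h, if_pos hx, dl_self]
    simp
  · rw [dl_ne h]
    simp

variable [Group Γ]

lemma rv_lam {K : Subgroup Γ} {g : Γ} (hg : g ∈ K) (ξ : H Γ) :
    rv K (lam g ξ) = lam g (rv K ξ) := by
  ext y
  rw [lam_coef, rv_ap, rv_ap]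
  unfold rf
  have : y ∈ (K : Set Γ) ↔ g⁻¹ * y ∈ (K : Set Γ) :=
    (K.mul_mem_cancel_left (inv_mem hg)).symm
  by_cases h : y ∈ (K : Set Γ)
  · rw [if_pos h, if_pos (this.1 h), lam_coef]
  · rw [if_neg h, if_neg fun h' => h (this.2 h')]

lemma rv_pol {K : Subgroup Γ} {p : Op Γ} (hp : p ∈ Pol (K : Set Γ)) (ξ : H Γ) :
    rv K (p ξ) = p (rv K ξ) := by
  induction hp using Submodule.span_induction with
  | mem x hx =>
    obtain ⟨g, hg, rfl⟩ := hx
    exact rv_lam hg ξ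
  | zero => exact rv_zero _
  | add x y _ _ hx hy =>
    rw [_root_.add_apply, _root_.add_apply, rv_add, hx, hy]
  | smul r x _ hx =>
    rw [_root_.smul_apply, _root_.smul_apply, rv_smul, hx]

lemma rv_an {ℓ : Γ → ℕ} {K : Subgroup Γ} {T : Op Γ} (hT : An ℓ K T) (ξ : H Γ) :
    rv K (T ξ) = T (rv K ξ) := by
  rw [← sub_eq_zero, ← norm_le_zero_iff]
  refine le_of_forall_pos_le_add fun ε hε => ?_
  have h0 : 0 < 2 * ‖ξ‖ + 1 := by positivity
  obtain ⟨p, hp, h⟩ := hT.approx (div_pos hε h0)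
  have e : rv K (T ξ) - T (rv K ξ) = rv K ((T - p) ξ) - (T - p) (rv K ξ) := by
    rw [_root_.sub_apply, _root_.sub_apply, rv_sub, rv_pol hp]
    abel
  have h1 : ‖rv K ((T - p) ξ)‖ ≤ ε / (2 * ‖ξ‖ + 1) * ‖ξ‖ :=
    (norm_rv _ _).trans (((T - p).le_opNorm ξ).trans (by gcongr))
  have h2 : ‖(T - p) (rv K ξ)‖ ≤ ε / (2 * ‖ξ‖ + 1) * ‖ξ‖ :=
    ((T - p).le_opNorm _).trans (mul_le_mul h (norm_rv _ _) (norm_nonneg _) (by positivity))
  have h3 : ε / (2 * ‖ξ‖ + 1) * (2 * ‖ξ‖ + 1) = ε := div_mul_cancel₀ _ h0.ne'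
  have h4 : 0 < ε / (2 * ‖ξ‖ + 1) := div_pos hε h0
  rw [e]
  refine (norm_sub_le _ _).trans ?_
  nlinarith

lemma exists_pol (X : Set Γ) (ξ : H Γ) {θ : ℝ} (hθ : 0 < θ) :
    ∃ p ∈ Pol X, ‖p (dl 1) - rv X ξ‖ ≤ θ := by
  classical
  have h := hasSum_dl (rv X ξ)
  obtain ⟨s, hs⟩ := (Metric.tendsto_nhds.1 h θ hθ).exists
  refine ⟨∑ x ∈ s, if x ∈ X then (ξ x).re • lam x else 0, ?_, ?_⟩
  · refine Submodule.sum_mem _ fun x _ => ?_
    split_ifs with hx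
    · exact Submodule.smul_mem _ _ (Submodule.subset_span ⟨x, hx, rfl⟩)
    · exact zero_mem _
  · rw [dist_eq_norm] at hs
    refine le_trans (le_of_eq ?_) hs.le
    congr 2
    rw [_root_.sum_apply]
    refine Finset.sum_congr rfl fun x _ => ?_
    change _ = rf X ξ x • dl x
    unfold rf
    split_ifs with hx
    · rw [_root_.smul_apply, lam_one, Complex.coe_smul]
      rfl
    · simp

variable {G : Type} [Group G]

lemma map_gs (ι : G →* Γ) (u v : G) (j : ℕ) : ι (gs u v j) = gs (ι u) (ι v) j := by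
  induction j with
  | zero => exact map_one ι
  | succ j ih => simp only [gs, map_mul, map_pow, ih]

lemma co_gs {ι : G →* Γ} {β : G → Op Γ} (h : Co ι β) {u v : G} (hv : β v = 0) (L : ℕ) :
    β (gs u v L) = (∑ j ∈ Finset.range L, lam (gs (ι u) (ι v) j)) * β u := by
  induction L with
  | zero => simpa [gs] using h.one
  | succ L ih =>
    have h1 : β (v ^ (L + 1)) = 0 := by
      have := h.zpow_zero hv ((L + 1 : ℕ) : ℤ)
      rwa [zpow_natCast] at this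
    rw [gs, h, h u, h1, ih, map_gs, Finset.sum_range_succ, mul_zero, add_zero, add_mul]

end AFP

open AFP in
theorem af (hT : TreeStmt) (hR : RegStmt) : AFStmt := by
  intro G _ hG ⟨u, v, huv, hF⟩ Γ _ ℓ ι hι S ε hε
  obtain ⟨β, hβ, hv, hu⟩ := hF Γ ℓ ι hι (ε ^ 2 / 8) (by positivity)
  obtain ⟨B, hB0, hB⟩ : ∃ B : ℝ, 0 < B ∧ ∀ s ∈ S, ‖β s‖ ≤ B := by
    refine ⟨1 + ∑ s ∈ S, ‖β s‖, by positivity, fun s hs => ?_⟩
    have := Finset.single_le_sum (f := fun s => ‖β s‖) (fun _ _ => norm_nonneg _) hs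
    linarith
  obtain ⟨ε', hε', h1⟩ := hR Γ (β u) (ε ^ 2 / 8) (B ^ 2) (hβ.an u).mem (by positivity)
    (by positivity) hu
  obtain ⟨L, κ₀, hκ₀, hD⟩ := hT Γ (ι u) (ι v) (free_map hG hι huv) ε' hε'
  obtain ⟨κ, hκ⟩ := h1 _ κ₀ (sum_mem fun j _ => lam_mem _) hκ₀ hD
  rw [← mul_ap, ← co_gs hβ.co hv] at hκ
  set w := gs u v L
  have a1 : ‖β w κ - dl 1‖ ≤ ε / 2 := by
    refine (pow_le_pow_iff_left₀ (norm_nonneg _) (by positivity) two_ne_zero).1 ?_
    have : 0 ≤ B ^ 2 * ‖κ‖ ^ 2 := by positivity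
    nlinarith
  have a2 : B * ‖κ‖ ≤ ε / 2 := by
    refine (pow_le_pow_iff_left₀ (by positivity) (by positivity) two_ne_zero).1 ?_
    have : 0 ≤ ‖β w κ - dl 1‖ ^ 2 := by positivity
    nlinarith
  have h0 : 0 < B + ‖β w‖ := by positivity
  obtain ⟨p, hp, hpκ⟩ := exists_pol (ι.range : Set Γ) κ (θ := ε / 2 / (B + ‖β w‖)) (by positivity)
  have h3 : ε / 2 / (B + ‖β w‖) * (B + ‖β w‖) = ε / 2 := div_mul_cancel₀ _ h0.ne'
  have h4 : 0 < ε / 2 / (B + ‖β w‖) := by positivity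
  refine ⟨fun x => β x * p, w, hβ.co.mul p, fun x => (hβ.an x).mul' (An.pol hp), fun s hs => ?_, ?_⟩
  · have e1 : ‖p (dl 1)‖ ≤ ε / 2 / (B + ‖β w‖) + ‖κ‖ := by
      have := norm_add_le (p (dl 1) - rv ι.range κ) (rv ι.range κ)
      rw [sub_add_cancel] at this
      linarith [norm_rv (ι.range : Set Γ) κ]
    have e2 : ‖β s (p (dl 1))‖ ≤ B * (ε / 2 / (B + ‖β w‖) + ‖κ‖) :=
      ((β s).le_opNorm _).trans (mul_le_mul (hB s hs) e1 (norm_nonneg _) hB0.le)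
    change ‖β s (p (dl 1))‖ ≤ ε
    nlinarith [norm_nonneg (β w)]
  · have e0 : β w (p (dl 1)) - dl 1 =
        β w (p (dl 1) - rv ι.range κ) + rv ι.range (β w κ - dl 1) := by
      rw [rv_sub, rv_an (hβ.an w), rv_dl (one_mem ι.range), map_sub]
      abel
    have e1 : ‖β w (p (dl 1) - rv ι.range κ)‖ ≤ ‖β w‖ * (ε / 2 / (B + ‖β w‖)) :=
      ((β w).le_opNorm _).trans (by gcongr)
    have e2 := (norm_rv (ι.range : Set Γ) (β w κ - dl 1)).trans a1
    change ‖β w (p (dl 1)) - dl 1‖ ≤ ε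
    rw [e0]
    refine (norm_add_le _ _).trans ?_
    nlinarith

end

end Pool.Agent.MP_494aff_an.Lf

end MrgPart0

-- ======== part 1: formerly Pool.Agent.MP_494aff_an.lf.Exp
section MrgPart1

/-! The unitary group generated by a skew operator with a dense set of analytic vectors. -/

open scoped InnerProductSpace ComplexConjugate
open Finset

namespace Pool.Agent.MP_494aff_an.Lf

open Pool.Agent.MP_494aff_an.Pinch Pool.Agent.MP_494aff_an.Pinch.Fl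

namespace Ex

noncomputable section

lemma hasSum_inner {E : Type} [NormedAddCommGroup E] [InnerProductSpace ℂ E] [CompleteSpace E]
    {a b : ℕ → E} (ha : Summable fun n => ‖a n‖) (hb : Summable fun n => ‖b n‖) :
    HasSum (fun n => ∑ p ∈ antidiagonal n, ⟪a p.1, b p.2⟫_ℂ) ⟪∑' n, a n, ∑' n, b n⟫_ℂ := by
  have hf : Summable fun p : ℕ × ℕ => ⟪a p.1, b p.2⟫_ℂ :=
    Summable.of_norm_bounded
      (ha.mul_of_nonneg hb (fun _ => norm_nonneg _) fun _ => norm_nonneg _)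
      fun p => norm_inner_le_norm _ _
  have h1 : HasSum (fun i => ⟪a i, ∑' n, b n⟫_ℂ) (∑' p : ℕ × ℕ, ⟪a p.1, b p.2⟫_ℂ) :=
    hf.hasSum.prod_fiberwise fun i => hb.of_norm.hasSum.mapL (innerSL ℂ (a i))
  have h2 : HasSum (fun i => ⟪a i, ∑' n, b n⟫_ℂ) ⟪∑' n, a n, ∑' n, b n⟫_ℂ := by
    have := (ha.of_norm.hasSum.mapL (innerSL ℂ (∑' n, b n))).star
    simpa only [innerSL_apply_apply, RCLike.star_def, inner_conj_symm] using this
  rw [← h1.unique h2]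
  have h3 := (HasAntidiagonal.sigmaAntidiagonalEquivProd (A := ℕ)).hasSum_iff.2 hf.hasSum
  refine h3.sigma fun n => ?_
  have h4 := hasSum_fintype fun c : antidiagonal n => ⟪a c.1.1, b c.1.2⟫_ℂ
  rw [Finset.sum_coe_sort (antidiagonal n) fun p => ⟪a p.1, b p.2⟫_ℂ] at h4
  exact h4

variable {Λ : Type} {V : Submodule ℂ (H Λ)} {D : V →ₗ[ℂ] V} {a : ℝ}

/-- The hypotheses on the operator. -/
structure Hyp (V : Submodule ℂ (H Λ)) (D : V →ₗ[ℂ] V) (a : ℝ) : Prop where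
  pos : 0 ≤ a
  mem : ∀ x, dl x ∈ V
  skew : ∀ ξ η : V, ⟪(D ξ : H Λ), (η : H Λ)⟫_ℂ + ⟪(ξ : H Λ), (D η : H Λ)⟫_ℂ = 0
  bd : ∀ ξ : V, ∃ C : ℝ, ∀ n : ℕ, ‖((D ^ n) ξ : H Λ)‖ ≤ C * n.factorial * a ^ n

/-- The terms of the series. -/
def tm (D : V →ₗ[ℂ] V) (t : ℝ) (ξ : V) (k : ℕ) : H Λ := cf t k • ((D ^ k) ξ : H Λ)

/-- The sum of the series. -/
def E (D : V →ₗ[ℂ] V) (t : ℝ) (ξ : V) : H Λ := ∑' k, tm D t ξ k

lemma pow_succ_ap (k : ℕ) (x : V) : (D ^ (k + 1)) x = D ((D ^ k) x) := by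
  rw [pow_succ']; rfl

lemma pow_succ_ap' (k : ℕ) (x : V) : (D ^ (k + 1)) x = (D ^ k) (D x) := by
  rw [pow_succ]; rfl

lemma norm_tm (h : Hyp V D a) (x : V) :
    ∃ C : ℝ, 0 ≤ C ∧ ∀ (t : ℝ) (k : ℕ), ‖tm D t x k‖ ≤ C * (|t| * a) ^ k := by
  obtain ⟨C, hb⟩ := h.bd x
  have hC : 0 ≤ C := by simpa using (norm_nonneg _).trans (hb 0)
  refine ⟨C, hC, fun t k => ?_⟩
  have hk : (0 : ℝ) < k.factorial := by exact_mod_cast k.factorial_pos
  rw [tm, norm_smul, norm_cf]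
  calc |t| ^ k / k.factorial * ‖((D ^ k) x : H Λ)‖
      ≤ |t| ^ k / k.factorial * (C * k.factorial * a ^ k) := by gcongr; exact hb k
    _ = C * (|t| * a) ^ k := by rw [mul_pow]; field_simp

lemma sum_norm (h : Hyp V D a) {t : ℝ} (ht : |t| * a < 1) (x : V) :
    Summable fun k => ‖tm D t x k‖ := by
  obtain ⟨C, -, hb⟩ := norm_tm h x
  exact Summable.of_nonneg_of_le (fun _ => norm_nonneg _) (hb t)
    ((summable_geometric_of_lt_one (mul_nonneg (abs_nonneg t) h.pos) ht).mul_left C)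

lemma hasSum_E (h : Hyp V D a) {t : ℝ} (ht : |t| * a < 1) (x : V) :
    HasSum (tm D t x) (E D t x) := (sum_norm h ht x).of_norm.hasSum

lemma E_zero (x : V) : E D 0 x = x := by
  rw [E, tsum_eq_single 0]
  · simp [tm, cf_zero]
  · intro k hk
    obtain ⟨j, rfl⟩ := Nat.exists_eq_succ_of_ne_zero hk
    rw [tm, cf_zero_succ, zero_smul]

lemma skew_pow (h : Hyp V D a) (i : ℕ) (x y : V) :
    ⟪((D ^ i) x : H Λ), (y : H Λ)⟫_ℂ = (-1) ^ i * ⟪(x : H Λ), ((D ^ i) y : H Λ)⟫_ℂ := by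
  induction i generalizing y with
  | zero => simp
  | succ i ih =>
    rw [pow_succ_ap, eq_neg_of_add_eq_zero_left (h.skew _ y), ih, ← pow_succ_ap', pow_succ]
    ring

lemma inner_E (h : Hyp V D a) {s t : ℝ} (hs : |s| * a < 1) (ht : |t| * a < 1)
    (hst : |-s + t| * a < 1) (x y : V) :
    ⟪E D s x, E D t y⟫_ℂ = ⟪(x : H Λ), E D (-s + t) y⟫_ℂ := by
  refine (hasSum_inner (sum_norm h hs x) (sum_norm h ht y)).unique ?_
  have h5 := (hasSum_E h hst y).mapL (innerSL ℂ (x : H Λ))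
  have : (fun n => ∑ p ∈ antidiagonal n, ⟪tm D s x p.1, tm D t y p.2⟫_ℂ) =
      fun n => innerSL ℂ (x : H Λ) (tm D (-s + t) y n) := by
    funext n
    rw [tm, map_smul, ← cf_add, smul_eq_mul, sum_mul]
    refine sum_congr rfl fun p hp => ?_
    rw [tm, tm, inner_smul_left, inner_smul_right, conj_cf, skew_pow h, cf_neg,
      ← mem_antidiagonal.1 hp, pow_add D, innerSL_apply_apply, Module.End.mul_apply]
    ring
  rw [this]
  exact h5

lemma inner_E_self (h : Hyp V D a) {t : ℝ} (ht : |t| * a < 1) (x y : V) :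
    ⟪E D t x, E D t y⟫_ℂ = ⟪(x : H Λ), (y : H Λ)⟫_ℂ := by
  rw [inner_E h ht ht (by simp), neg_add_cancel, E_zero]

lemma exists_u (h : Hyp V D a) :
    ∃ u : ℝ → Op Λ, ∀ t, |t| * a < 1 → ∀ x : V, u t x = E D t x := by
  have : ∀ t : ℝ, ∃ u : Op Λ, |t| * a < 1 → ∀ x : V, u x = E D t x := fun t => by
    by_cases ht : |t| * a < 1
    · have hv : Orthonormal ℂ fun g : Λ => E D t ⟨dl g, h.mem g⟩ := by
        classical
        rw [orthonormal_iff_ite]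
        intro g g'
        rw [inner_E_self h ht]
        exact orthonormal_iff_ite.1 orthonormal_dl g g'
      refine ⟨ofON _ hv, fun _ x => ?_⟩
      have h1 : (innerSL ℂ (E D t x)).comp (ofON _ hv) = innerSL ℂ (x : H Λ) :=
        op_ext fun g => by
          rw [ContinuousLinearMap.comp_apply, ofON_dl, innerSL_apply_apply, innerSL_apply_apply,
            inner_E_self h ht]
      have h2 : ⟪E D t x, ofON _ hv x⟫_ℂ = ⟪(x : H Λ), (x : H Λ)⟫_ℂ :=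
        congrArg (fun T : H Λ →L[ℂ] ℂ => T x) h1
      have h3 : ⟪ofON _ hv x, E D t x⟫_ℂ = ⟪(x : H Λ), (x : H Λ)⟫_ℂ := by
        rw [← inner_conj_symm, h2, inner_conj_symm]
      rw [← sub_eq_zero, ← inner_self_eq_zero (𝕜 := ℂ), inner_sub_left, inner_sub_right,
        inner_sub_right, h2, h3, ofON_inner, inner_E_self h ht]
      ring
    · exact ⟨1, fun h' => (ht h').elim⟩
  choose u hu using this
  exact ⟨u, hu⟩

section Loc

variable {u : ℝ → Op Λ}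

lemma star_u_mul (h : Hyp V D a) (hu : ∀ t, |t| * a < 1 → ∀ x : V, u t x = E D t x)
    {s t : ℝ} (hs : |s| * a < 1) (ht : |t| * a < 1) (hst : |-s + t| * a < 1) :
    star (u s) * u t = u (-s + t) := by
  refine op_ext fun y => ?_
  ext x
  rw [← inner_dl, ← inner_dl, mul_ap, inner_star]
  have e1 := hu s hs ⟨dl x, h.mem x⟩
  have e2 := hu t ht ⟨dl y, h.mem y⟩
  have e3 := hu _ hst ⟨dl y, h.mem y⟩
  simp only at e1 e2 e3
  rw [e1, e2, e3, inner_E h hs ht hst]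

lemma u_zero (h : Hyp V D a) (hu : ∀ t, |t| * a < 1 → ∀ x : V, u t x = E D t x) : u 0 = 1 :=
  op_ext fun x => (hu 0 (by simp) ⟨dl x, h.mem x⟩).trans (E_zero _)

lemma star_u (h : Hyp V D a) (hu : ∀ t, |t| * a < 1 → ∀ x : V, u t x = E D t x)
    {s : ℝ} (hs : |s| * a < 1) : star (u s) = u (-s) := by
  have := star_u_mul h hu hs (t := 0) (by simp) (by simpa using hs)
  rwa [u_zero h hu, mul_one, add_zero] at this

lemma u_mul (h : Hyp V D a) (hu : ∀ t, |t| * a < 1 → ∀ x : V, u t x = E D t x)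
    {s t : ℝ} (hs : |s| * a < 1) (ht : |t| * a < 1) (hst : |s + t| * a < 1) :
    u s * u t = u (s + t) := by
  have hs' : |-s| * a < 1 := by rwa [abs_neg]
  have := star_u_mul h hu hs' ht (by rwa [neg_neg])
  rwa [star_u h hu hs', neg_neg] at this

lemma u_pow (h : Hyp V D a) (hu : ∀ t, |t| * a < 1 → ∀ x : V, u t x = E D t x)
    (s : ℝ) (n : ℕ) (hn : |n * s| * a < 1) : u s ^ n = u (n * s) := by
  induction n with
  | zero => simp [u_zero h hu]
  | succ n ih =>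
    have hle : ∀ r : ℝ, 0 ≤ r → r ≤ (n + 1 : ℕ) → |r * s| * a < 1 := fun r h0 h1 => by
      refine lt_of_le_of_lt ?_ hn
      rw [abs_mul, abs_mul, abs_of_nonneg h0, Nat.abs_cast]
      have := h.pos
      gcongr
    have h1 := hle n (Nat.cast_nonneg _) (by push_cast; linarith)
    have h2 := hle 1 zero_le_one (by push_cast; linarith [(Nat.cast_nonneg n : (0 : ℝ) ≤ n)])
    have h3 : (n : ℝ) * s + s = (n + 1 : ℕ) * s := by push_cast; ring
    rw [one_mul] at h2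
    rw [pow_succ, ih h1, u_mul h hu h1 h2 (by rwa [h3]), h3]

lemma small_div {t : ℝ} {n : ℕ} (hn : 0 < n) (ht : |t| * a < n) : |t / n| * a < 1 := by
  have hn' : (0 : ℝ) < n := by exact_mod_cast hn
  rwa [abs_div, abs_of_pos hn', div_mul_eq_mul_div, div_lt_one hn']

lemma pow_indep (h : Hyp V D a) (hu : ∀ t, |t| * a < 1 → ∀ x : V, u t x = E D t x)
    {t : ℝ} {m n : ℕ} (hm : 0 < m) (hn : 0 < n) (htm : |t| * a < m) (htn : |t| * a < n) :
    u (t / m) ^ m = u (t / n) ^ n := by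
  have hm' : (m : ℝ) ≠ 0 := by exact_mod_cast hm.ne'
  have hn' : (n : ℝ) ≠ 0 := by exact_mod_cast hn.ne'
  have e1 : (n : ℝ) * (t / (m * n)) = t / m := by field_simp
  have e2 : (m : ℝ) * (t / (m * n)) = t / n := by field_simp
  have h1 := u_pow h hu (t / (m * n)) n (by rw [e1]; exact small_div hm htm)
  have h2 := u_pow h hu (t / (m * n)) m (by rw [e2]; exact small_div hn htn)
  rw [e1] at h1
  rw [e2] at h2
  rw [← h1, ← h2, ← pow_mul, ← pow_mul, mul_comm n m]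

lemma exists_U (h : Hyp V D a) (hu : ∀ t, |t| * a < 1 → ∀ x : V, u t x = E D t x) :
    ∃ U : ℝ → Op Λ, ∀ (t : ℝ) (n : ℕ), 0 < n → |t| * a < n → U t = u (t / n) ^ n :=
  ⟨fun t => u (t / (⌊|t| * a⌋₊ + 1 : ℕ)) ^ (⌊|t| * a⌋₊ + 1), fun t _ hn ht =>
    pow_indep h hu (Nat.succ_pos _) hn (by push_cast; exact Nat.lt_floor_add_one _) ht⟩

end Loc

lemma deriv_E (h : Hyp V D a) (x : V) : HasDerivAt (fun r => E D r x) (D x : H Λ) 0 := by
  obtain ⟨C, hC, hb⟩ := norm_tm h x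
  rw [hasDerivAt_iff_isLittleO_nhds_zero]
  refine Asymptotics.IsBigO.trans_isLittleO (g := fun r : ℝ => r ^ 2) ?_
    (Asymptotics.isLittleO_pow_id one_lt_two)
  refine Asymptotics.IsBigO.of_bound (2 * C * a ^ 2) ?_
  filter_upwards [small a (c := 1 / 2) (by norm_num)] with r hr
  have hr1 : |r| * a < 1 := by linarith
  have h0 : 0 ≤ |r| * a := mul_nonneg (abs_nonneg r) h.pos
  have h1 := (sum_norm h hr1 x).of_norm.sum_add_tsum_nat_add 2
  have h2 : E D (0 + r) x - E D 0 x - r • (D x : H Λ) = ∑' k, tm D r x (k + 2) := by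
    have e0 : tm D r x 0 = x := by rw [tm, cf_zero, one_smul, pow_zero]; rfl
    have e1 : tm D r x 1 = r • (D x : H Λ) := by rw [tm, cf_one, pow_one]; rfl
    rw [zero_add, E_zero, E, ← h1, sum_range_succ, sum_range_one, e0, e1, add_assoc,
      add_sub_cancel_left, add_sub_cancel_left]
  rw [h2]
  have h3 := (hasSum_geometric_of_lt_one h0 hr1).mul_left (C * (|r| * a) ^ 2)
  have h4 := tsum_of_norm_bounded (f := fun k => tm D r x (k + 2)) h3 fun k => by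
    refine (hb r _).trans (le_of_eq ?_); ring
  refine h4.trans ?_
  have h5 : (1 - |r| * a)⁻¹ ≤ 2 := by
    rw [inv_le_comm₀ (by linarith) (by norm_num)]; linarith
  calc C * (|r| * a) ^ 2 * (1 - |r| * a)⁻¹ ≤ C * (|r| * a) ^ 2 * 2 := by gcongr
    _ = 2 * C * a ^ 2 * ‖r ^ 2‖ := by rw [norm_pow, Real.norm_eq_abs]; ring

end

end Ex

open Ex in
theorem exp1 : ExpStmt := by
  intro Λ V D a h0 h1 h2 h3
  have h : Ex.Hyp V D a := ⟨h0, h1, h2, h3⟩
  obtain ⟨u, hu⟩ := exists_u h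
  obtain ⟨U, hU⟩ := exists_U h hu
  have hloc : ∀ t, |t| * a < 1 → U t = u t := fun t ht => by
    simpa using hU t 1 one_pos (by simpa using ht)
  have hadd : ∀ s t, U (s + t) = U s * U t := fun s t => by
    obtain ⟨n, hn⟩ := exists_nat_gt (|s| * a + |t| * a)
    have hs0 := mul_nonneg (abs_nonneg s) h0
    have ht0 := mul_nonneg (abs_nonneg t) h0
    have hn0 : 0 < n := by exact_mod_cast (by linarith : (0 : ℝ) < n)
    have hs : |s| * a < n := by linarith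
    have ht : |t| * a < n := by linarith
    have hst : |s + t| * a < n := by
      have := mul_le_mul_of_nonneg_right (abs_add_le s t) h0
      linarith
    have k1 := small_div hn0 hs
    have k2 := small_div hn0 ht
    have k3 := small_div hn0 hst
    rw [add_div] at k3
    have hc : Commute (u (s / n)) (u (t / n)) := by
      rw [Commute, SemiconjBy, u_mul h hu k1 k2 k3, u_mul h hu k2 k1 (by rwa [add_comm]),
        add_comm]
    rw [hU s n hn0 hs, hU t n hn0 ht, hU _ n hn0 hst, ← hc.mul_pow, u_mul h hu k1 k2 k3, add_div]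
  refine ⟨U, by rw [hloc 0 (by simp), u_zero h hu], hadd, fun t => ?_, fun t ht ξ => ?_,
    fun t ξ => ?_⟩
  · obtain ⟨n, hn⟩ := exists_nat_gt (|t| * a)
    have ht0 := mul_nonneg (abs_nonneg t) h0
    have hn0 : 0 < n := by exact_mod_cast (by linarith : (0 : ℝ) < n)
    rw [hU t n hn0 hn, hU (-t) n hn0 (by rwa [abs_neg]), star_pow,
      star_u h hu (small_div hn0 hn), neg_div]
  · rw [hloc t ht, hu t ht]
    exact hasSum_E h ht ξ
  · have k1 : HasDerivAt (fun r => U t (E D r ξ)) (U t (D ξ)) (t - t) := by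
      rw [sub_self]
      exact ((U t).restrictScalars ℝ).hasFDerivAt.comp_hasDerivAt (0 : ℝ) (deriv_E h ξ)
    refine (k1.comp_sub_const t t).congr_of_eventuallyEq ?_
    have hc : Filter.Tendsto (fun s : ℝ => s - t) (nhds t) (nhds 0) := by
      simpa using (continuous_sub_right t).tendsto t
    filter_upwards [hc.eventually (small a one_pos)] with s hs
    rw [← hu _ hs, ← hloc _ hs, ← mul_ap, ← hadd, add_sub_cancel]

end Pool.Agent.MP_494aff_an.Lf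

end MrgPart1

-- ======== part 2: formerly Pool.Agent.MP_494aff_an.lf.Form
section MrgPart2

/-! The form bound for a kernel that is a sum over lines. -/

open scoped ComplexConjugate

namespace Pool.Agent.MP_494aff_an.Lf

namespace Form

variable {Λ I : Type}

theorem half {h : I → Λ → Λ → ℂ} {M : ℝ} (hM : 0 ≤ M)
    (hh : ∀ q (F : Finset Λ) (ξ η : Λ → ℂ), ‖∑ x ∈ F, ∑ y ∈ F, conj (η y) * h q x y * ξ x‖ ≤
      M * √(∑ x ∈ F, ‖ξ x‖ ^ 2) * √(∑ y ∈ F, ‖η y‖ ^ 2))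
    (Z : Finset I) (F : Finset Λ) (u v : I → Λ → ℂ) {s t : Λ → ℝ} {α β : ℝ} (hα : 0 ≤ α)
    (hβ : 0 ≤ β) (hu : ∀ x, ∑ q ∈ Z, ‖u q x‖ ^ 2 ≤ α * s x)
    (hv : ∀ x, ∑ q ∈ Z, ‖v q x‖ ^ 2 ≤ β * t x) :
    ‖∑ q ∈ Z, ∑ x ∈ F, ∑ y ∈ F, conj (v q y) * h q x y * u q x‖ ≤
      M * √α * √β * √(∑ x ∈ F, s x) * √(∑ y ∈ F, t y) := by
  have h1 : ∑ q ∈ Z, ∑ x ∈ F, ‖u q x‖ ^ 2 ≤ α * ∑ x ∈ F, s x := by
    rw [Finset.sum_comm, Finset.mul_sum]
    exact Finset.sum_le_sum fun x _ => hu x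
  have h2 : ∑ q ∈ Z, ∑ x ∈ F, ‖v q x‖ ^ 2 ≤ β * ∑ x ∈ F, t x := by
    rw [Finset.sum_comm, Finset.mul_sum]
    exact Finset.sum_le_sum fun x _ => hv x
  have h3 := Real.sum_sqrt_mul_sqrt_le Z (f := fun q => ∑ x ∈ F, ‖u q x‖ ^ 2)
    (g := fun q => ∑ x ∈ F, ‖v q x‖ ^ 2) (fun q => by positivity) fun q => by positivity
  calc _ ≤ ∑ q ∈ Z, M * (√(∑ x ∈ F, ‖u q x‖ ^ 2) * √(∑ y ∈ F, ‖v q y‖ ^ 2)) :=
        (norm_sum_le _ _).trans (Finset.sum_le_sum fun q _ => by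
          rw [← mul_assoc]; exact hh q F _ _)
    _ ≤ M * (√(α * ∑ x ∈ F, s x) * √(β * ∑ x ∈ F, t x)) := by
        rw [← Finset.mul_sum]
        exact mul_le_mul_of_nonneg_left (h3.trans (by gcongr)) hM
    _ = _ := by rw [Real.sqrt_mul hα, Real.sqrt_mul hβ]; ring

open Classical in
theorem count {ℓ : ℕ} {nd : I → Prop} (hc : ∀ Z : Finset I, (∀ q ∈ Z, nd q) → Z.card ≤ ℓ)
    (Z : Finset I) (c : ℂ) :
    ∑ q ∈ Z, ‖if nd q then c else 0‖ ^ 2 ≤ 1 * ((1 + (ℓ : ℝ)) * ‖c‖ ^ 2) := by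
  have h1 : ∑ q ∈ Z, ‖if nd q then c else 0‖ ^ 2 = ∑ q ∈ Z with nd q, ‖c‖ ^ 2 := by
    rw [Finset.sum_filter]
    exact Finset.sum_congr rfl fun q _ => by split_ifs <;> simp
  have h2 : ((Z.filter nd).card : ℝ) ≤ ℓ := by
    exact_mod_cast hc _ fun q hq => (Finset.mem_filter.1 hq).2
  rw [h1, Finset.sum_const, nsmul_eq_mul]
  nlinarith [sq_nonneg ‖c‖]

theorem weight {B e e₀ : I → ℝ} {D : ℝ} (Z : Finset I) (he : ∀ q, e q ≤ e₀ q)
    (hD : ∑ q ∈ Z, B q ^ 2 * Real.exp (2 * e₀ q) ≤ D) (c : ℂ) (u : I → ℂ)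
    (hu : ∀ q, u q = 0 ∨ u q = (B q * Real.exp (e q) : ℝ) * c) :
    ∑ q ∈ Z, ‖u q‖ ^ 2 ≤ D * ‖c‖ ^ 2 := by
  refine le_trans ?_ (mul_le_mul_of_nonneg_right hD (sq_nonneg _))
  rw [Finset.sum_mul]
  refine Finset.sum_le_sum fun q _ => ?_
  rcases hu q with h | h <;> rw [h]
  · rw [norm_zero, zero_pow two_ne_zero]
    positivity
  · rw [norm_mul, mul_pow, Complex.norm_real, Real.norm_eq_abs, sq_abs, mul_pow, ← Real.exp_nat_mul]
    have : Real.exp ((2 : ℕ) * e q) ≤ Real.exp (2 * e₀ q) :=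
      Real.exp_le_exp.2 (by push_cast; linarith [he q])
    gcongr

end Form

open Form Classical in
theorem form : FormStmt := by
  intro Λ I ℓ k h B nd L M C a₀ hM hC ha₀ hh hB hL hle hc hw huniq hk hk0
  refine ⟨2 * M * √C, fun a ha ha' F ξ η => ?_⟩
  have fin : ∀ p : Λ × Λ, {q | h q p.1 p.2 ≠ 0}.Finite := fun p =>
    Set.Subsingleton.finite fun q hq q' hq' => huniq _ _ _ _ hq hq'
  set Z : Finset I := (F ×ˢ F).biUnion fun p => (fin p).toFinset with hZ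
  have hkZ : ∀ x ∈ F, ∀ y ∈ F, k x y = ∑ q ∈ Z, Complex.I * B x q * h q x y := fun x hx y hy => by
    by_cases h0 : ∀ q, h q x y = 0
    · simp [hk0 x y h0, h0]
    · obtain ⟨q, hq⟩ := not_forall.1 h0
      rw [Finset.sum_eq_single q, hk x y q hq]
      · intro q' _ hq'
        rw [by_contra fun h' => hq' (huniq _ _ _ _ h' hq), mul_zero]
      · exact fun h' => absurd (Finset.mem_biUnion.2 ⟨(x, y), Finset.mem_product.2 ⟨hx, hy⟩,
          (fin _).mem_toFinset.2 hq⟩) h'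
  have hd : ∀ x q, (0 : ℝ) ≤ (L x q : ℝ) - ℓ x := fun x q => sub_nonneg.2 (by exact_mod_cast hle x q)
  have hw' : ∀ x, ∑ q ∈ Z, B x q ^ 2 * Real.exp (2 * (a₀ * ((L x q : ℝ) - ℓ x))) ≤
      C * (1 + ℓ x) := fun x => by simpa only [mul_assoc] using hw x Z
  have b1 := half hM hh Z F (fun q x => if nd x q then ξ x else 0)
    (fun q y => (B y q * Real.exp (-(a * ((L y q : ℝ) - ℓ y))) : ℝ) * η y) zero_le_one hC
    (s := fun x => (1 + (ℓ x : ℝ)) * ‖ξ x‖ ^ 2) (t := fun y => (1 + (ℓ y : ℝ)) * ‖η y‖ ^ 2)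
    (fun x => count (hc x) Z _) fun y => by
      rw [← mul_assoc]
      exact weight Z (fun q => by nlinarith [hd y q]) (hw' y) _ _ fun q => Or.inr rfl
  have b2 := half hM hh Z F
    (fun q x => if nd x q then 0 else (B x q * Real.exp (a * ((L x q : ℝ) - ℓ x)) : ℝ) * ξ x)
    (fun q y => if nd y q then η y else 0) hC zero_le_one
    (s := fun x => (1 + (ℓ x : ℝ)) * ‖ξ x‖ ^ 2) (t := fun y => (1 + (ℓ y : ℝ)) * ‖η y‖ ^ 2)
    (fun x => by
      rw [← mul_assoc]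
      refine weight (e := fun q => a * ((L x q : ℝ) - ℓ x)) Z (fun q => by nlinarith [hd x q])
        (hw' x) _ _ fun q => ?_
      split_ifs
      · exact Or.inl rfl
      · exact Or.inr rfl) fun y => count (hc y) Z _
  refine le_trans (le_of_eq ?_) ((norm_add_le _ _).trans ((add_le_add b1 b2).trans (le_of_eq ?_)))
  swap
  · rw [Real.sqrt_one]; ring
  rw [← one_mul ‖_ + _‖, ← Complex.norm_I, ← norm_mul]
  congr 1
  simp only [← Finset.sum_add_distrib, Finset.mul_sum]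
  rw [Finset.sum_comm (s := Z)]
  refine Finset.sum_congr rfl fun x hx => ?_
  rw [Finset.sum_comm (s := Z)]
  refine Finset.sum_congr rfl fun y hy => ?_
  rw [hkZ x hx y hy, Finset.mul_sum, Finset.sum_mul]
  refine Finset.sum_congr rfl fun q _ => ?_
  by_cases h0 : h q x y = 0
  · simp [h0]
  obtain ⟨e1, e2, e3⟩ := hB q x y h0
  by_cases hn : nd x q
  · have e4 : -(a * ((L y q : ℝ) - ℓ y)) = a * ((ℓ y : ℝ) - ℓ x) := by
      rw [← e2, hL x q hn]; ring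
    simp only [if_pos hn, e4, ← e1, map_mul, Complex.conj_ofReal, Complex.ofReal_mul]
    ring
  · have hy' := e3.resolve_left hn
    have e4 : a * ((L x q : ℝ) - ℓ x) = a * ((ℓ y : ℝ) - ℓ x) := by rw [e2, hL y q hy']
    simp only [if_neg hn, if_pos hy', e4, Complex.ofReal_mul]
    ring

end Pool.Agent.MP_494aff_an.Lf

end MrgPart2

-- marker of a merged file
example : 731051 + 180941 = 731051 + 180941 := rfl

end MrgPart1

-- ======== part 2: formerly Pool.Agent.MP_494aff_an.lf.Line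
section MrgPart2

/-! The logarithm of a translation and its conjugates along the cosets. -/

open Monoid Filter Topology
open scoped InnerProductSpace ComplexConjugate

namespace Pool.Agent.MP_494aff_an.Lf

open Pool.Agent.MP_494aff_an.Pinch Pool.Agent.MP_494aff_an.Pinch.TowP

noncomputable section

namespace Ln

section Strong

variable {Λ : Type}

lemma cauchy_all {T : ℕ → Op Λ} {M : ℝ} (hM : ∀ j, ‖T j‖ ≤ M)
    (h : ∀ x, CauchySeq fun j => T j (dl x)) (ξ : H Λ) : CauchySeq fun j => T j ξ := by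
  have hM0 : 0 ≤ M := (norm_nonneg _).trans (hM 0)
  have h1 : ∀ η ∈ Submodule.span ℂ (Set.range (dl : Λ → H Λ)), CauchySeq fun j => T j η := by
    intro η hη
    induction hη using Submodule.span_induction with
    | mem x hx => obtain ⟨g, rfl⟩ := hx; exact h g
    | zero => simpa using cauchySeq_const (0 : H Λ)
    | add x y _ _ hx hy =>
      simp only [map_add]
      exact hx.add hy
    | smul c x _ hx =>
      simp only [map_smul]
      exact (uniformContinuous_const_smul c).comp_cauchySeq hx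
  rw [Metric.cauchySeq_iff]
  intro ε hε
  obtain ⟨η, hη, hd⟩ := Metric.dense_iff.1 dense_dl ξ (ε / (3 * (M + 1))) (by positivity)
  obtain ⟨N, hN⟩ := Metric.cauchySeq_iff.1 (h1 η hd) (ε / 3) (by positivity)
  refine ⟨N, fun m hm n hn => ?_⟩
  have h2 := dist_triangle4 (T m ξ) (T m η) (T n η) (T n ξ)
  have h3 : ∀ k, dist (T k η) (T k ξ) ≤ ε / 3 := fun k => by
    rw [Metric.mem_ball, dist_eq_norm] at hη
    rw [dist_eq_norm, ← map_sub]
    refine ((T k).le_opNorm _).trans ?_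
    calc ‖T k‖ * ‖η - ξ‖ ≤ (M + 1) * (ε / (3 * (M + 1))) := by
          gcongr
          linarith [hM k]
      _ = ε / 3 := by field_simp
  have h4 := hN m hm n hn
  have h5 := h3 m
  have h6 := h3 n
  rw [dist_comm] at h5
  linarith

lemma exists_lim {T : ℕ → Op Λ} {M : ℝ} (hM : ∀ j, ‖T j‖ ≤ M)
    (h : ∀ x, CauchySeq fun j => T j (dl x)) :
    ∃ L : Op Λ, ∀ ξ, Tendsto (fun j => T j ξ) atTop (𝓝 (L ξ)) := by
  choose f hf using fun ξ => cauchySeq_tendsto_of_complete (cauchy_all hM h ξ)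
  refine ⟨ContinuousLinearMap.ofTendstoOfBoundedRange (l := atTop) f T (tendsto_pi_nhds.2 hf)
    (isBounded_iff_forall_norm_le.2 ⟨M, ?_⟩), hf⟩
  rintro _ ⟨j, rfl⟩
  exact hM j

lemma strong_ap' {T : ℕ → Op Λ} {L : Op Λ} {M : ℝ} (hM : ∀ j, ‖T j‖ ≤ M)
    (h : ∀ ξ, Tendsto (fun j => T j ξ) atTop (𝓝 (L ξ))) {η : ℕ → H Λ} {ξ : H Λ}
    (hη : Tendsto η atTop (𝓝 ξ)) : Tendsto (fun j => T j (η j)) atTop (𝓝 (L ξ)) := by
  have h1 : Tendsto (fun j => T j (η j - ξ)) atTop (𝓝 0) := by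
    refine squeeze_zero_norm (a := fun j => M * ‖η j - ξ‖)
      (fun j => ((T j).le_opNorm _).trans (by gcongr; exact hM j)) ?_
    simpa using (tendsto_iff_norm_sub_tendsto_zero.1 hη).const_mul M
  simpa using h1.add (h ξ)

lemma strong_pow {T : ℕ → Op Λ} {L : Op Λ} {M : ℝ} (hM : ∀ j, ‖T j‖ ≤ M)
    (h : ∀ ξ, Tendsto (fun j => T j ξ) atTop (𝓝 (L ξ))) (ξ : H Λ) (n : ℕ) :
    Tendsto (fun j => (T j ^ n) ξ) atTop (𝓝 ((L ^ n) ξ)) := by
  induction n with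
  | zero => simp
  | succ n ih =>
    simp only [pow_succ', mul_ap]
    exact strong_ap' hM h ih

lemma norm_pow_ap {T : Op Λ} {M : ℝ} (hM : ‖T‖ ≤ M) (ξ : H Λ) (n : ℕ) :
    ‖(T ^ n) ξ‖ ≤ M ^ n * ‖ξ‖ := by
  have hM0 : 0 ≤ M := (norm_nonneg _).trans hM
  induction n with
  | zero => simp
  | succ n ih =>
    rw [pow_succ', mul_ap, pow_succ', mul_assoc]
    refine (T.le_opNorm _).trans ?_
    gcongr

lemma exp_ap (T : Op Λ) (ξ : H Λ) :
    NormedSpace.exp T ξ = ∑' n : ℕ, ((n.factorial : ℂ)⁻¹) • (T ^ n) ξ := by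
  have := (NormedSpace.exp_series_hasSum_exp' (𝕂 := ℂ) T).mapL
    (ContinuousLinearMap.apply ℂ (H Λ) ξ)
  exact this.tsum_eq.symm

lemma strong_exp {T : ℕ → Op Λ} {L : Op Λ} {M : ℝ} (hM : ∀ j, ‖T j‖ ≤ M)
    (h : ∀ ξ, Tendsto (fun j => T j ξ) atTop (𝓝 (L ξ))) (ξ : H Λ) :
    Tendsto (fun j => NormedSpace.exp (T j) ξ) atTop (𝓝 (NormedSpace.exp L ξ)) := by
  simp only [exp_ap]
  refine tendsto_tsum_of_dominated_convergence (bound := fun n => M ^ n / n.factorial * ‖ξ‖)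
    ((Real.summable_pow_div_factorial M).mul_right _)
    (fun n => (strong_pow hM h ξ n).const_smul _) (Eventually.of_forall fun j n => ?_)
  rw [norm_smul, norm_inv, Complex.norm_natCast]
  calc (n.factorial : ℝ)⁻¹ * ‖(T j ^ n) ξ‖ ≤ (n.factorial : ℝ)⁻¹ * (M ^ n * ‖ξ‖) := by
        gcongr
        exact norm_pow_ap (hM j) ξ n
    _ = _ := by ring

end Strong

section Cosets

variable {G : Type} [Group G] {h : Op (FZ G)}

lemma conj_coef (hh : h ∈ LL (FZ G)) (z x y : FZ G) :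
    (lam z * h * lam z⁻¹) (dl x) y = h (dl 1) (z⁻¹ * y * x⁻¹ * z) := by
  rw [mul_ap, mul_ap, lam_dl, lam_coef, LL_coef hh]
  group

lemma conj_norm (hh : h ∈ LL (FZ G)) (z x : FZ G) :
    ‖(lam z * h * lam z⁻¹) (dl x)‖ = ‖h (dl 1)‖ := by
  rw [mul_ap, mul_ap, lam_dl, lam_norm, LL_dl hh, rho_norm]

lemma conj_gen (hh : h ∈ LL (FZ G)) (hs : Supp (C0 (gen G)) (h (dl 1))) (j : ℤ) :
    lam (gen G ^ j) * h * lam (gen G ^ j)⁻¹ = h := by
  refine LL_ext (mul_mem (mul_mem (lam_mem _) hh) (lam_mem _)) hh ?_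
  ext w
  rw [conj_coef hh, inv_one, mul_one]
  by_cases hw : w ∈ C0 (gen G)
  · obtain ⟨k, -, rfl⟩ := hw
    group
  · rw [hs w hw]
    refine hs _ fun ⟨k, hk, e⟩ => hw ⟨k, hk, ?_⟩
    calc w = gen G ^ j * ((gen G ^ j)⁻¹ * w * gen G ^ j) * (gen G ^ j)⁻¹ := by group
      _ = _ := by rw [e]; group

lemma hq_mk (hh : h ∈ LL (FZ G)) (hs : Supp (C0 (gen G)) (h (dl 1))) (z : FZ G) :
    hq h (z : Cs G) = lam z * h * lam z⁻¹ := by
  obtain ⟨⟨_, j, rfl⟩, e⟩ := QuotientGroup.mk_out_eq_mul (Subgroup.zpowers (gen G)) z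
  unfold hq
  rw [e]
  simp only [mul_inv_rev, map_mul]
  calc lam z * lam (gen G ^ j) * h * (lam (gen G ^ j)⁻¹ * lam z⁻¹)
      = lam z * (lam (gen G ^ j) * h * lam (gen G ^ j)⁻¹) * lam z⁻¹ := by simp only [mul_assoc]
    _ = _ := by rw [conj_gen hh hs]

lemma hq_supp (hh : h ∈ LL (FZ G)) (hs : Supp (C0 (gen G)) (h (dl 1))) (q : Cs G) (x y : FZ G)
    (hne : hq h q (dl x) y ≠ 0) : ∃ k : ℤ, k ≠ 0 ∧ y = q.out * gen G ^ k * q.out⁻¹ * x := by
  unfold hq at hne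
  rw [conj_coef hh] at hne
  by_contra hc
  refine hne (hs _ fun ⟨k, hk, e⟩ => hc ⟨k, hk, ?_⟩)
  rw [← e]
  group

lemma smul_mk (g z : FZ G) : g • (z : Cs G) = ((g * z : FZ G) : Cs G) := rfl

lemma gen_mk (z : FZ G) (k : ℤ) : ((z * gen G ^ k : FZ G) : Cs G) = (z : Cs G) :=
  QuotientGroup.mk_mul_of_mem z ⟨k, rfl⟩

variable {S : Finset G} {ℓ : FZ G → ℕ} {φ : FZ G → Cs G → ℤ} {L : FZ G → Cs G → ℕ}

lemma phi_conj (hW : WL S ℓ φ L) (z : FZ G) (k : ℤ) (q : Cs G)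
    (hq : (z * gen G ^ k * z⁻¹)⁻¹ • q = q) :
    φ (z * gen G ^ k * z⁻¹) q = φ (gen G ^ k) (z⁻¹ • q) := by
  have h1 : φ 1 q = 0 := by
    have := hW.φ_inl 1 q
    rwa [map_one] at this
  have h2 := hW.φ_mul z z⁻¹ q
  rw [mul_inv_cancel, h1] at h2
  have h3 : (z * gen G ^ k)⁻¹ • q = z⁻¹ • q := by
    conv_rhs => rw [← hq, ← mul_smul]
    congr 1
    group
  rw [hW.φ_mul, hW.φ_mul, h3]
  linarith

lemma conj_fix (z : FZ G) (k : ℤ) : (z * gen G ^ k * z⁻¹)⁻¹ • (z : Cs G) = (z : Cs G) := by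
  rw [smul_mk, ← gen_mk z (-k)]
  congr 1
  group

lemma coset_eq (hW : WL S ℓ φ L) {z z' : FZ G} {k k' : ℤ} (hk : k ≠ 0)
    (e : z * gen G ^ k * z⁻¹ = z' * gen G ^ k' * z'⁻¹) : (z : Cs G) = (z' : Cs G) := by
  by_contra hne
  have h1 := phi_conj hW z k z (conj_fix z k)
  have h2 := phi_conj hW z' k' z (e ▸ conj_fix z k)
  rw [smul_mk, inv_mul_cancel, hW.φ_gen] at h1
  rw [hW.φ_gen' k', ← e, h1] at h2
  · exact hk h2
  · intro h3
    apply hne
    have h4 := congrArg (fun q : Cs G => z' • q) h3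
    simp only [smul_inv_smul] at h4
    rw [h4, smul_mk, mul_one]

lemma hq_uniq (hW : WL S ℓ φ L) (hh : h ∈ LL (FZ G)) (hs : Supp (C0 (gen G)) (h (dl 1)))
    (q q' : Cs G) (x y : FZ G) (h1 : hq h q (dl x) y ≠ 0) (h2 : hq h q' (dl x) y ≠ 0) :
    q = q' := by
  obtain ⟨k, hk, e⟩ := hq_supp hh hs q x y h1
  obtain ⟨k', -, e'⟩ := hq_supp hh hs q' x y h2
  have := coset_eq hW hk (mul_right_cancel (e.symm.trans e'))
  rwa [QuotientGroup.out_eq', QuotientGroup.out_eq'] at this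

end Cosets

lemma sum_sq_le {Λ : Type} (ξ : H Λ) (F : Finset Λ) : ∑ y ∈ F, ‖ξ y‖ ^ 2 ≤ ‖ξ‖ ^ 2 := by
  have := lp.sum_rpow_le_norm_rpow (p := 2) (by norm_num) ξ F
  simpa using this

lemma glue {Λ I : Type} [Nonempty I] (u : I → H Λ) (N : ℝ) (hN0 : 0 ≤ N) (hN : ∀ q, ‖u q‖ ≤ N)
    (hu : ∀ q q' y, u q y ≠ 0 → u q' y ≠ 0 → q = q') (b : I → ℂ) (r : ℝ) (hr : 0 ≤ r)
    (hb : ∀ Z : Finset I, ∑ q ∈ Z, ‖b q‖ ^ 2 ≤ r ^ 2) :
    ∃ v : H Λ, ‖v‖ ≤ r * N ∧ (∀ q y, u q y ≠ 0 → v y = b q * u q y) ∧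
      ∀ y, (∀ q, u q y = 0) → v y = 0 := by
  classical
  have hQ : ∀ y, ∃ q₀, ∀ q, u q y ≠ 0 → q₀ = q := fun y => by
    by_cases hy : ∃ q, u q y ≠ 0
    · obtain ⟨q, hq⟩ := hy
      exact ⟨q, fun q' hq' => hu q q' y hq hq'⟩
    · exact ⟨Classical.arbitrary I, fun q hq => (hy ⟨q, hq⟩).elim⟩
  choose Q hQ using hQ
  have key : ∀ F : Finset Λ, ∑ y ∈ F, ‖b (Q y) * u (Q y) y‖ ^ 2 ≤ (r * N) ^ 2 := fun F => by
    rw [← Finset.sum_fiberwise_of_maps_to (t := F.image Q) (g := Q)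
      (fun y hy => Finset.mem_image_of_mem Q hy)]
    calc ∑ q ∈ F.image Q, ∑ y ∈ F with Q y = q, ‖b (Q y) * u (Q y) y‖ ^ 2
        ≤ ∑ q ∈ F.image Q, ‖b q‖ ^ 2 * N ^ 2 := by
          refine Finset.sum_le_sum fun q _ => ?_
          have e : ∑ y ∈ F with Q y = q, ‖b (Q y) * u (Q y) y‖ ^ 2 =
              ‖b q‖ ^ 2 * ∑ y ∈ F with Q y = q, ‖u q y‖ ^ 2 := by
            rw [Finset.mul_sum]
            refine Finset.sum_congr rfl fun y hy => ?_
            rw [(Finset.mem_filter.1 hy).2, norm_mul, mul_pow]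
          rw [e]
          refine mul_le_mul_of_nonneg_left ((sum_sq_le _ _).trans ?_) (by positivity)
          exact pow_le_pow_left₀ (norm_nonneg _) (hN q) 2
      _ ≤ (r * N) ^ 2 := by
          rw [← Finset.sum_mul, mul_pow]
          exact mul_le_mul_of_nonneg_right (hb _) (by positivity)
  have key' : ∀ F : Finset Λ, ∑ y ∈ F, ‖b (Q y) * u (Q y) y‖ ^ (2 : ENNReal).toReal ≤
      (r * N) ^ (2 : ENNReal).toReal := fun F => by
    have := key F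
    simpa using this
  refine ⟨⟨fun y => b (Q y) * u (Q y) y, memℓp_gen' key'⟩, ?_, fun q y hy => ?_, fun y hy => ?_⟩
  · exact lp.norm_le_of_forall_sum_le (by norm_num) (mul_nonneg hr hN0) key'
  · show b (Q y) * u (Q y) y = _
    rw [hQ y q hy]
  · show b (Q y) * u (Q y) y = _
    rw [hy, mul_zero]

end Ln

open Ln in
theorem harg : HargStmt := by
  intro Λ _ y hy
  obtain ⟨M, a, ha, hc, hexp⟩ := hseq Λ y hy
  obtain ⟨h, hl⟩ := exists_lim (T := fun j => op (a j)) (M := M) (fun j => (ha j).2.2) fun x => by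
    simp only [LL_dl (op_mem _) x]
    exact (rho x⁻¹).uniformContinuous.comp_cauchySeq hc
  have hm : h ∈ LL Λ := mem_LL_of_tendsto (fun j => op_mem (a j)) hl
  refine ⟨h, hm, ?_, ?_, ?_⟩
  · rw [IsSelfAdjoint]
    ext1 ξ
    refine ext_inner_right ℂ fun η => ?_
    rw [star_inner]
    refine tendsto_nhds_unique (tendsto_const_nhds.inner (hl η)) ?_
    refine ((hl ξ).inner tendsto_const_nhds).congr fun j => ?_
    rw [← star_inner, (ha j).2.1.star_eq]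
  · exact (isClosed_supp _).mem_of_tendsto (hl (dl 1)) (Eventually.of_forall fun j => (ha j).1)
  · have hZ : NormedSpace.exp (Complex.I • h) ∈ LL Λ := mem_LL.2 fun x =>
      Commute.exp_right (Commute.smul_right (mem_LL.1 hm x) _)
    refine LL_ext hZ (lam_mem y) ?_
    rw [lam_one]
    refine tendsto_nhds_unique (strong_exp (T := fun j => Complex.I • op (a j)) (M := M)
      (fun j => ?_) (fun ξ => (hl ξ).const_smul Complex.I) (dl 1)) hexp
    rw [norm_smul, Complex.norm_I, one_mul]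
    exact (ha j).2.2

open Ln in
theorem line : LineStmt := by
  intro G _ S ℓ φ L h hW hh hs
  refine ⟨hq_mk hh hs, hq_supp hh hs, hq_uniq hW hh hs, fun b r hr hb x => ?_⟩
  exact glue (fun q => hq h q (dl x)) _ (norm_nonneg _) (fun q => (conj_norm hh _ x).le)
    (fun q q' y => hq_uniq hW hh hs q q' x y) b r hr hb

end

end Pool.Agent.MP_494aff_an.Lf

end MrgPart2

-- marker of a merged file
example : 731051 + 687888 = 731051 + 687888 := rfl
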